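import Pool.Agent.Lib.MP_23b606_ag.PQ.Nv
import Pool.Agent.Lib.MP_23b606_ag.T4.Base

/-!
PQ/Log: logarithmic forms of top degree have at most a simple pole.

Proof: `⋀^n Ω` is one-dimensional (`T4.finrank_omega`), so every `W a` is `j • W y` for some `j`. Write
`y i = π^(k i) u i` (`V.unit`), so with `dlog a = a⁻¹ • D a` one has `dlog (y i) = k i • dlog π + dlog (u i)`.
Expand `⋀ dlog (y i) = ∏ (y i)⁻¹ • W y` over the sets `A` of the places with the first summand: the terms with
`|A| ≥ 2` vanish, the others are multiples of `W a`, `a i = π` or `u i`, by products of values `≥ -1`. One of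
the terms has value at most `- ∑ k i`.
-/

set_option autoImplicit false

open T1

open scoped KaehlerDifferential

namespace PQ

theorem exists_smul_W {K : Type} [Field K] [Algebra ℂ K] {n : ℕ} (hn : Algebra.trdeg ℂ K = n)
    (a y : Fin n → K) (hW : W y ≠ 0) : ∃ j : K, W a = j • W y := by
  haveI : CharZero K := charZero_of_injective_algebraMap (algebraMap ℂ K).injective
  obtain ⟨hfin, hrk⟩ := T4.finrank_omega (F := ℂ) (k := K) hn
  have h1 : Module.finrank K (⋀[K]^n Ω[K⁄ℂ]) = 1 := by
    rw [exteriorPower.finrank_eq, hrk, Nat.choose_self]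
  obtain ⟨c, hc⟩ := (finrank_eq_one_iff_of_nonzero' (W y) hW).1 h1 (W a)
  exact ⟨c, hc.symm⟩

theorem log_form {K : Type} [Field K] [Algebra ℂ K] {n : ℕ} (hn : Algebra.trdeg ℂ K = n)
    {O : ValuationSubring K} (V : NVal O) (hC : Cst O) (y : Fin n → K) (hy : ∀ i, y i ≠ 0)
    (hW : W y ≠ 0) (i₀ : Fin n) (hi : V.v (y i₀) ≠ 0) :
    ∃ (a : Fin n → K) (j : K), (∀ i, a i ∈ O) ∧ j ≠ 0 ∧ W a = j • W y ∧
      V.v j ≤ 1 - ∑ i, V.v (y i) := by
  classical
  choose u hu0 huO huO' huv huc using fun i => V.unit (hy i)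
  let k : Fin n → ℤ := fun i => V.v (y i)
  let p : Fin n → Ω[K⁄ℂ] := fun i => ((k i : K) * V.π⁻¹) • KaehlerDifferential.D ℂ K V.π
  let q : Fin n → Ω[K⁄ℂ] := fun i => (u i)⁻¹ • KaehlerDifferential.D ℂ K (u i)
  have hx : ∀ i, (y i)⁻¹ • KaehlerDifferential.D ℂ K (y i) = p i + q i := by
    intro i
    have h3 : KaehlerDifferential.D ℂ K (y i) = V.π ^ k i • KaehlerDifferential.D ℂ K (u i)
          + (u i * ((k i : K) * V.π ^ (k i - 1))) • KaehlerDifferential.D ℂ K V.π := by
      conv_lhs => rw [huc i]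
      rw [Derivation.leibniz, Derivation.leibniz_zpow, ← smul_smul, mul_smul, Int.cast_smul_eq_zsmul]
    rw [h3, smul_add, smul_smul, smul_smul, add_comm]
    have hu := hu0 i
    have hπ := zpow_ne_zero (k i) V.hπ
    congr 2
    · conv_lhs => rw [huc i]
      change (V.π ^ k i * u i)⁻¹ * _ = _
      rw [zpow_sub_one₀ V.hπ]
      field_simp
    · conv_lhs => rw [huc i]
      change (V.π ^ k i * u i)⁻¹ * _ = _
      field_simp
  let c : Finset (Fin n) → Fin n → K := fun A i => if i ∈ A then (k i : K) * V.π⁻¹ else (u i)⁻¹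
  let a : Finset (Fin n) → Fin n → K := fun A i => if i ∈ A then V.π else u i
  choose j hj using fun A => exists_smul_W hn (a A) y hW
  have hterm : ∀ A : Finset (Fin n), exteriorPower.ιMulti K n (A.piecewise p q) =
      ((∏ i, c A i) * j A) • W y := by
    intro A
    have hpq : A.piecewise p q = fun i => c A i • KaehlerDifferential.D ℂ K (a A i) := by
      funext i
      by_cases hi : i ∈ A
      · simp only [Finset.piecewise, hi, if_true, p, c, a]
      · simp only [Finset.piecewise, hi, if_false, q, c, a]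
    rw [hpq]
    have h1 := (exteriorPower.ιMulti K n (M := Ω[K⁄ℂ])).map_smul_univ (c A)
      (fun i => KaehlerDifferential.D ℂ K (a A i))
    rw [h1, mul_smul, ← hj A]
    rfl
  have hsum : (∏ i, (y i)⁻¹) • W y = (∑ A : Finset (Fin n), (∏ i, c A i) * j A) • W y := by
    have h0 := (exteriorPower.ιMulti K n (M := Ω[K⁄ℂ])).map_smul_univ (fun i => (y i)⁻¹)
      (fun i => KaehlerDifferential.D ℂ K (y i))
    have h1 := (exteriorPower.ιMulti K n (M := Ω[K⁄ℂ])).toMultilinearMap.map_add_univ p q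
    have h2 : (fun i => (y i)⁻¹ • KaehlerDifferential.D ℂ K (y i)) = p + q := funext hx
    rw [h2] at h0
    rw [Finset.sum_smul, ← Finset.sum_congr rfl fun A _ => hterm A]
    exact h0.symm.trans h1
  have hsum' : (∏ i, (y i)⁻¹) = ∑ A : Finset (Fin n), (∏ i, c A i) * j A :=
    smul_left_injective K hW hsum
  have hprod0 : (∏ i, (y i)⁻¹) ≠ 0 := Finset.prod_ne_zero_iff.2 fun i _ => inv_ne_zero (hy i)
  have hprodv : V.v (∏ i, (y i)⁻¹) = -∑ i, V.v (y i) := by
    rw [v_prod V _ _ fun i _ => inv_ne_zero (hy i), ← Finset.sum_neg_distrib]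
    exact Finset.sum_congr rfl fun i _ => V.inv (hy i)
  obtain ⟨A, hA0, hAv⟩ : ∃ A : Finset (Fin n), (∏ i, c A i) * j A ≠ 0 ∧
      V.v ((∏ i, c A i) * j A) ≤ -∑ i, V.v (y i) := by
    by_contra hcon
    push Not at hcon
    have h1 := V.sum Finset.univ (fun A : Finset (Fin n) => (∏ i, c A i) * j A)
      (-∑ i, V.v (y i)) (fun A _ => by
        by_cases hA : (∏ i, c A i) * j A = 0
        · exact Or.inl hA
        · exact Or.inr (hcon A hA))
    rw [← hsum'] at h1
    rcases h1 with h1 | h1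
    · exact hprod0 h1
    · omega
  have hj0 : j A ≠ 0 := right_ne_zero_of_mul hA0
  have hc : ∀ i, c A i ≠ 0 := fun i =>
    (Finset.prod_ne_zero_iff.1 (left_ne_zero_of_mul hA0)) i (Finset.mem_univ i)
  have hkA : ∀ i ∈ A, (k i : K) ≠ 0 := fun i hi => by
    have := hc i
    simp only [c, hi, if_true] at this
    exact left_ne_zero_of_mul this
  have hint : ∀ i, (k i : K) ≠ 0 → V.v (k i : K) = 0 := fun i h => by
    have h1 : ((k i : ℂ)) ≠ 0 := by
      intro h0
      apply h
      have h2 : algebraMap ℂ K (k i : ℂ) = (k i : K) := map_intCast _ _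
      rw [← h2, h0, map_zero]
    have h2 := v_const V hC h1
    rwa [map_intCast] at h2
  have hcv : ∀ i, V.v (c A i) = if i ∈ A then -1 else 0 := by
    intro i
    by_cases hi : i ∈ A
    · simp only [c, hi, if_true]
      rw [V.mul _ _ (hkA i hi) (inv_ne_zero V.hπ), V.inv V.hπ, V.vπ, hint i (hkA i hi)]
      rfl
    · simp only [c, hi, if_false]
      rw [V.inv (hu0 _), huv]
      rfl
  have hval : V.v (∏ i, c A i) = -(A.card : ℤ) := by
    rw [v_prod V _ _ fun i _ => hc i, Finset.sum_congr rfl fun i _ => hcv i, Finset.sum_ite_mem,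
      Finset.univ_inter, Finset.sum_const, nsmul_eq_mul, mul_neg, mul_one]
  rw [V.mul _ _ (left_ne_zero_of_mul hA0) hj0, hval] at hAv
  have hcard : A.card ≤ 1 := by
    by_contra hcon
    push Not at hcon
    obtain ⟨i, hi, i', hi', hij⟩ := Finset.one_lt_card.1 hcon
    apply hj0
    have h1 : W (a A) = 0 := by
      unfold W
      refine (exteriorPower.ιMulti K n (M := Ω[K⁄ℂ])).map_eq_zero_of_eq _ (i := i) (j := i') ?_ hij
      simp only [a, hi, hi', if_true]
    have h2 := hj A
    rw [h1] at h2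
    exact (smul_eq_zero.1 h2.symm).resolve_right hW
  refine ⟨a A, j A, fun i => ?_, hj0, hj A, by omega⟩
  by_cases hi : i ∈ A
  · simp only [a, hi, if_true]
    rw [V.mem _ V.hπ, V.vπ]
    exact zero_le_one
  · simp only [a, hi, if_false]
    exact huO _

end PQ
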