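import Pool.Agent.Lib.MP_23b606_ag.PQ.Nv

/-!
PQ/Res: the restriction of a discrete valuation to a subfield on which it is not trivial.

Proof: the set of the `V.v (ψ y)`, `y ≠ 0`, is a nonzero subgroup of `ℤ`, so equal to `a ℤ` with
`a ≥ 1` (least positive element); `W.v y = V.v (ψ y) / a`, `W.π` with `V.v (ψ W.π) = a`.
-/

set_option autoImplicit false

open T1

namespace PQ

theorem exists_res {k K : Type} [Field k] [Field K] (ψ : k →+* K) {O : ValuationSubring K}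
    (V : NVal O) (x : k) (hx : x ≠ 0) (h : V.v (ψ x) ≠ 0) :
    ∃ (W : NVal (O.comap ψ)) (a : ℤ), 1 ≤ a ∧ ∀ y : k, y ≠ 0 → V.v (ψ y) = a * W.v y := by
  classical
  have hψ : ∀ y : k, y ≠ 0 → ψ y ≠ 0 := fun y hy => (map_ne_zero ψ).2 hy
  have hex : ∃ n : ℕ, 0 < n ∧ ∃ y : k, y ≠ 0 ∧ V.v (ψ y) = n := by
    rcases lt_or_gt_of_ne h with h1 | h1
    · refine ⟨(-V.v (ψ x)).toNat, by omega, x⁻¹, inv_ne_zero hx, ?_⟩
      rw [map_inv₀, V.inv (hψ x hx)]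
      omega
    · exact ⟨(V.v (ψ x)).toNat, by omega, x, hx, by omega⟩
  obtain ⟨ha0, y0, hy0, hv0⟩ := Nat.find_spec hex
  have hmin : ∀ n : ℕ, n < Nat.find hex → ¬ (0 < n ∧ ∃ y : k, y ≠ 0 ∧ V.v (ψ y) = n) :=
    fun n hn => Nat.find_min hex hn
  obtain ⟨a, ha⟩ : ∃ a : ℤ, a = (Nat.find hex : ℕ) := ⟨_, rfl⟩
  have ha1 : 0 < a := by omega
  have hdvd : ∀ y : k, y ≠ 0 → a ∣ V.v (ψ y) := by
    intro y hy
    have h1 : V.v (ψ (y * y0 ^ (-(V.v (ψ y) / a)))) = V.v (ψ y) % a := by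
      rw [map_mul, map_zpow₀, V.mul _ _ (hψ y hy) (zpow_ne_zero _ (hψ y0 hy0)),
        V.zpow (hψ y0 hy0), hv0, ← ha]
      have h2 := Int.emod_add_mul_ediv (V.v (ψ y)) a
      linarith [mul_comm a (V.v (ψ y) / a)]
    by_contra hcon
    have h2 : 0 ≤ V.v (ψ y) % a := Int.emod_nonneg _ ha1.ne'
    have h3 : V.v (ψ y) % a < a := Int.emod_lt_of_pos _ ha1
    have h4 : V.v (ψ y) % a ≠ 0 := fun h => hcon (Int.dvd_of_emod_eq_zero h)
    refine hmin (V.v (ψ y) % a).toNat (by omega) ⟨by omega,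
      y * y0 ^ (-(V.v (ψ y) / a)), mul_ne_zero hy (zpow_ne_zero _ hy0), ?_⟩
    rw [h1]
    omega
  refine ⟨⟨y0, fun y => V.v (ψ y) / a, hy0, ?_, ?_, ?_⟩, a, by omega, ?_⟩
  · rw [hv0, ← ha]
    exact Int.ediv_self ha1.ne'
  · intro y z hy hz
    rw [map_mul, V.mul _ _ (hψ y hy) (hψ z hz), Int.add_ediv_of_dvd_left (hdvd y hy)]
  · intro y hy
    change ψ y ∈ O ↔ 0 ≤ V.v (ψ y) / a
    rw [V.mem _ (hψ y hy)]
    constructor
    · intro h1
      exact Int.ediv_nonneg h1 ha1.le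
    · intro h1
      have h2 := Int.mul_ediv_cancel' (hdvd y hy)
      rw [← h2]
      exact mul_nonneg ha1.le h1
  · intro y hy
    exact (Int.mul_ediv_cancel' (hdvd y hy)).symm

end PQ
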