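import Pool.Agent.Lib.MP_23b606_ag.PQ.Defs

/-! PQ/Nv: elementary facts on normalised valuations. -/

set_option autoImplicit false

open T1

namespace PQ

section fld

variable {K : Type} [Field K] {P : ValuationSubring K} (V : NVal P)

theorem v_pow {x : K} (hx : x ≠ 0) (m : ℕ) : V.v (x ^ m) = m * V.v x := by
  have := V.zpow hx (m : ℤ)
  rwa [zpow_natCast] at this

theorem v_div {x y : K} (hx : x ≠ 0) (hy : y ≠ 0) : V.v (x / y) = V.v x - V.v y := by
  rw [div_eq_mul_inv, V.mul _ _ hx (inv_ne_zero hy), V.inv hy]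
  ring

theorem v_prod {α : Type} (S : Finset α) (x : α → K) (hx : ∀ i ∈ S, x i ≠ 0) :
    V.v (∏ i ∈ S, x i) = ∑ i ∈ S, V.v (x i) := by
  classical
  induction S using Finset.induction_on with
  | empty => rw [Finset.prod_empty, Finset.sum_empty, V.one]
  | insert a S ha ih =>
    rw [Finset.prod_insert ha, Finset.sum_insert ha, V.mul _ _ (hx a (Finset.mem_insert_self a S))
      (Finset.prod_ne_zero_iff.2 fun i hi => hx i (Finset.mem_insert_of_mem hi)),
      ih fun i hi => hx i (Finset.mem_insert_of_mem hi)]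

theorem v_neg {x : K} (hx : x ≠ 0) : V.v (-x) = V.v x := by
  have h1 : V.v ((-1 : K) * (-1 : K)) = V.v (-1 : K) + V.v (-1 : K) :=
    V.mul _ _ (neg_ne_zero.2 one_ne_zero) (neg_ne_zero.2 one_ne_zero)
  rw [neg_mul_neg, one_mul, V.one] at h1
  have h2 := V.mul (-1 : K) x (neg_ne_zero.2 one_ne_zero) hx
  rw [neg_one_mul] at h2
  omega

/-- The sum of an element and an element of bigger value. -/
theorem v_add_eq {x y : K} (hx : x ≠ 0) (h : y = 0 ∨ V.v x < V.v y) :
    x + y ≠ 0 ∧ V.v (x + y) = V.v x := by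
  rcases eq_or_ne y 0 with rfl | hy
  · rw [add_zero]
    exact ⟨hx, rfl⟩
  have h := h.resolve_left hy
  have h1 : x + y ≠ 0 := by
    intro h0
    have h2 : x = -y := eq_neg_of_add_eq_zero_left h0
    rw [h2, v_neg V hy] at h
    exact lt_irrefl _ h
  refine ⟨h1, le_antisymm ?_ ?_⟩
  · by_contra hcon
    push Not at hcon
    have h3 := V.add (x := x + y) (y := -y) (c := V.v x) (Or.inr hcon)
      (Or.inr (by rw [v_neg V hy]; exact h))
    rw [add_neg_cancel_right] at h3
    rcases h3 with h3 | h3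
    · exact hx h3
    · exact lt_irrefl _ h3
  · have h3 := V.add (x := x) (y := y) (c := V.v x - 1) (Or.inr (by omega)) (Or.inr (by omega))
    have h4 := h3.resolve_left h1
    omega

theorem v_add_ge {x y : K} {c : ℤ} (hx : x = 0 ∨ c ≤ V.v x) (hy : y = 0 ∨ c ≤ V.v y) :
    x + y = 0 ∨ c ≤ V.v (x + y) := by
  have h := V.add (x := x) (y := y) (c := c - 1) (hx.imp_right fun h => by omega)
    (hy.imp_right fun h => by omega)
  exact h.imp_right fun h => by omega

theorem v_sum_ge {α : Type} (S : Finset α) (x : α → K) (c : ℤ)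
    (h : ∀ i ∈ S, x i = 0 ∨ c ≤ V.v (x i)) : ∑ i ∈ S, x i = 0 ∨ c ≤ V.v (∑ i ∈ S, x i) := by
  have h1 := V.sum S x (c - 1) fun i hi => (h i hi).imp_right fun h => by omega
  exact h1.imp_right fun h => by omega

theorem valuation_le_iff {x y : K} (hx : x ≠ 0) (hy : y ≠ 0) :
    P.valuation x ≤ P.valuation y ↔ V.v y ≤ V.v x := by
  have h1 : P.valuation x = P.valuation (x / y) * P.valuation y := by
    rw [← map_mul, div_mul_cancel₀ _ hy]
  have h2 : (0 : P.ValueGroup) < P.valuation y := by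
    rw [Valuation.pos_iff]
    exact hy
  have h3 : P.valuation x ≤ P.valuation y ↔ P.valuation (x / y) ≤ 1 := by
    rw [h1]
    constructor
    · intro h
      by_contra hcon
      push Not at hcon
      have h4 : P.valuation y < P.valuation (x / y) * P.valuation y := by
        calc P.valuation y = 1 * P.valuation y := (one_mul _).symm
          _ < P.valuation (x / y) * P.valuation y := by
            exact (mul_lt_mul_iff_left₀ h2).2 hcon
      exact absurd h (not_le.2 h4)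
    · intro h
      exact mul_le_of_le_one_left' h
  rw [h3, P.valuation_le_one_iff, V.mem _ (div_ne_zero hx hy), v_div V hx hy]
  omega

theorem valuation_lt_iff {x y : K} (hx : x ≠ 0) (hy : y ≠ 0) :
    P.valuation x < P.valuation y ↔ V.v y < V.v x := by
  rw [← not_le, valuation_le_iff V hy hx, not_le]

theorem valuation_lt_one_iff {x : K} (hx : x ≠ 0) : P.valuation x < 1 ↔ 0 < V.v x := by
  have h := valuation_lt_iff V hx one_ne_zero
  rwa [map_one, V.one] at h

theorem valuation_eq_one_iff {x : K} (hx : x ≠ 0) : P.valuation x = 1 ↔ V.v x = 0 := by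
  have h := valuation_le_iff V hx one_ne_zero
  have h' := valuation_le_iff V one_ne_zero hx
  rw [map_one, V.one] at h h'
  rw [le_antisymm_iff, h, h']
  omega

include V in
/-- The valuation ring of a normalised valuation is a discrete valuation ring. -/
theorem dvr_of_nval : IsDiscreteValuationRing P := by
  have hπ : V.π ∈ P := (V.mem _ V.hπ).2 (by rw [V.vπ]; exact zero_le_one)
  have hunit : ∀ u : P, IsUnit u ↔ (u : K) ≠ 0 ∧ V.v (u : K) = 0 := by
    intro u
    constructor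
    · intro hu
      obtain ⟨w, hw⟩ := isUnit_iff_exists_inv.1 hu
      have hw' : (u : K) * (w : K) = 1 := congrArg Subtype.val hw
      have hu0 : (u : K) ≠ 0 := left_ne_zero_of_mul_eq_one hw'
      have hw0 : (w : K) ≠ 0 := right_ne_zero_of_mul_eq_one hw'
      have h1 := V.mul _ _ hu0 hw0
      rw [hw', V.one] at h1
      have h2 := (V.mem _ hu0).1 u.2
      have h3 := (V.mem _ hw0).1 w.2
      exact ⟨hu0, by omega⟩
    · rintro ⟨hu0, hu⟩
      have h1 : (u : K)⁻¹ ∈ P := (V.mem _ (inv_ne_zero hu0)).2 (by rw [V.inv hu0, hu, neg_zero])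
      exact isUnit_iff_exists_inv.2 ⟨⟨_, h1⟩, Subtype.ext (mul_inv_cancel₀ hu0)⟩
  refine IsDiscreteValuationRing.ofHasUnitMulPowIrreducibleFactorization
    ⟨(⟨V.π, hπ⟩ : P), ?_, ?_⟩
  · refine ⟨fun h => ?_, fun {a b} hab => ?_⟩
    · have := ((hunit _).1 h).2
      rw [V.vπ] at this
      exact one_ne_zero this
    · have hab' : V.π = (a : K) * (b : K) := congrArg Subtype.val hab
      have ha0 : (a : K) ≠ 0 := by
        intro h
        rw [h, zero_mul] at hab'
        exact V.hπ hab'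
      have hb0 : (b : K) ≠ 0 := by
        intro h
        rw [h, mul_zero] at hab'
        exact V.hπ hab'
      have h1 := V.mul _ _ ha0 hb0
      rw [← hab', V.vπ] at h1
      have h2 := (V.mem _ ha0).1 a.2
      have h3 := (V.mem _ hb0).1 b.2
      rcases Nat.eq_zero_or_pos (V.v (a : K)).toNat with h4 | h4
      · left
        exact (hunit a).2 ⟨ha0, by omega⟩
      · right
        exact (hunit b).2 ⟨hb0, by omega⟩
  · intro u hu
    have hu0 : (u : K) ≠ 0 := fun h => hu (Subtype.ext h)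
    obtain ⟨w, w0, w1, w2, -, hw⟩ := V.unit hu0
    have h0 := (V.mem _ hu0).1 u.2
    refine ⟨(V.v (u : K)).toNat, ?_⟩
    have hwu : IsUnit (⟨w, w1⟩ : P) :=
      isUnit_iff_exists_inv.2 ⟨⟨_, w2⟩, Subtype.ext (mul_inv_cancel₀ w0)⟩
    obtain ⟨ww, hww⟩ := hwu
    refine ⟨ww, ?_⟩
    rw [hww]
    refine Subtype.ext ?_
    change V.π ^ (V.v (u : K)).toNat * w = (u : K)
    conv_rhs => rw [hw]
    rw [← zpow_natCast, Int.toNat_of_nonneg h0]

end fld

section const

variable {K : Type} [Field K] [Algebra ℂ K] {P : ValuationSubring K} (V : NVal P)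

theorem v_const (hC : Cst P) {c : ℂ} (hc : c ≠ 0) : V.v (algebraMap ℂ K c) = 0 := by
  have h0 : algebraMap ℂ K c ≠ 0 := (map_ne_zero _).2 hc
  have h1 := (V.mem _ h0).1 (hC c)
  have h2 : 0 ≤ V.v (algebraMap ℂ K c)⁻¹ := by
    rw [← V.mem _ (inv_ne_zero h0), ← map_inv₀]
    exact hC _
  rw [V.inv h0] at h2
  omega

include V in
theorem isDiv_one (hC : Cst P) : IsDiv 1 P := by
  refine ⟨dvr_of_nval V, Fin.elim0, fun p hp => ?_⟩
  obtain ⟨c, rfl⟩ := MvPolynomial.C_surjective (Fin 0) p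
  have hc : c ≠ 0 := by
    rintro rfl
    exact hp (map_zero _)
  rw [MvPolynomial.aeval_C, valuation_eq_one_iff V ((map_ne_zero _).2 hc), v_const V hC hc]

theorem cst_of_isDiv {n : ℕ} (h : IsDiv n P) : Cst P := by
  intro c
  obtain ⟨-, u, hu⟩ := h
  by_cases hc : c = 0
  · rw [hc, map_zero]
    exact P.zero_mem
  · have h1 := hu (MvPolynomial.C c) (by
      intro h
      exact hc (MvPolynomial.C_injective _ _ (by rw [h, map_zero])))
    rw [MvPolynomial.aeval_C] at h1
    exact (P.valuation_le_one_iff _).mp h1.le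

/-- At a pole of `x`. -/
theorem v_sub_of_neg (hC : Cst P) {x : K} (hx : x ≠ 0) (h : V.v x < 0) (c : ℂ) :
    x - algebraMap ℂ K c ≠ 0 ∧ V.v (x - algebraMap ℂ K c) = V.v x := by
  rw [sub_eq_add_neg, ← map_neg]
  refine v_add_eq V hx ?_
  by_cases hc : -c = 0
  · exact Or.inl (by rw [hc, map_zero])
  · exact Or.inr (by rw [v_const V hC hc]; exact h)

/-- If `x = c` at `V` then `x - c'` is a unit for `c' ≠ c`. -/
theorem v_sub_of_pos (hC : Cst P) {x : K} {c c' : ℂ} (hc : c' ≠ c)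
    (h : x - algebraMap ℂ K c = 0 ∨ 0 < V.v (x - algebraMap ℂ K c)) :
    x - algebraMap ℂ K c' ≠ 0 ∧ V.v (x - algebraMap ℂ K c') = 0 := by
  have h1 : x - algebraMap ℂ K c' = algebraMap ℂ K (c - c') + (x - algebraMap ℂ K c) := by
    rw [map_sub]
    ring
  have h2 : c - c' ≠ 0 := sub_ne_zero.2 hc.symm
  have h3 := v_add_eq V (x := algebraMap ℂ K (c - c')) (y := x - algebraMap ℂ K c)
    ((map_ne_zero _).2 h2) (by rw [v_const V hC h2]; exact h)
  rw [h1]
  exact ⟨h3.1, h3.2.trans (v_const V hC h2)⟩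

/-- Three cases for `x` which is not a constant. -/
theorem cases_at (hC : Cst P) (x : K) (hx : ∀ c : ℂ, x - algebraMap ℂ K c ≠ 0) :
    (V.v x < 0 ∧ ∀ c : ℂ, V.v (x - algebraMap ℂ K c) = V.v x) ∨
    (∃ c : ℂ, 0 < V.v (x - algebraMap ℂ K c) ∧
      ∀ c' : ℂ, c' ≠ c → V.v (x - algebraMap ℂ K c') = 0) ∨
    ∀ c : ℂ, V.v (x - algebraMap ℂ K c) = 0 := by
  have hx0 : x ≠ 0 := by
    have := hx 0
    rwa [map_zero, sub_zero] at this
  by_cases h1 : V.v x < 0
  · exact Or.inl ⟨h1, fun c => (v_sub_of_neg V hC hx0 h1 c).2⟩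
  right
  by_cases h2 : ∃ c : ℂ, 0 < V.v (x - algebraMap ℂ K c)
  · obtain ⟨c, hc⟩ := h2
    exact Or.inl ⟨c, hc, fun c' hc' => (v_sub_of_pos V hC hc' (Or.inr hc)).2⟩
  · right
    intro c
    push Not at h2
    refine le_antisymm (h2 c) ?_
    rw [← V.mem _ (hx c)]
    exact P.toSubring.sub_mem ((V.mem _ hx0).2 (not_lt.1 h1)) (hC c)

/-- The value of a product of powers of `x - c`. -/
theorem v_prod_sub (hC : Cst P) (x : K) (hx : ∀ c : ℂ, x - algebraMap ℂ K c ≠ 0) {C : ℂ}
    (hCne : C ≠ 0) (T : Finset ℂ) (a : ℂ → ℤ) :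
    algebraMap ℂ K C * ∏ c ∈ T, (x - algebraMap ℂ K c) ^ a c ≠ 0 ∧
      V.v (algebraMap ℂ K C * ∏ c ∈ T, (x - algebraMap ℂ K c) ^ a c) =
        ∑ c ∈ T, a c * V.v (x - algebraMap ℂ K c) := by
  have h1 : ∏ c ∈ T, (x - algebraMap ℂ K c) ^ a c ≠ 0 :=
    Finset.prod_ne_zero_iff.2 fun c _ => zpow_ne_zero _ (hx c)
  have h2 : algebraMap ℂ K C ≠ 0 := (map_ne_zero _).2 hCne
  refine ⟨mul_ne_zero h2 h1, ?_⟩
  rw [V.mul _ _ h2 h1, v_const V hC hCne, zero_add, v_prod V T _ fun c _ => zpow_ne_zero _ (hx c)]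
  exact Finset.sum_congr rfl fun c _ => V.zpow (hx c) _

/-- The value at a pole of `x`. -/
theorem v_prod_sub_neg (hC : Cst P) (x : K) (hx : ∀ c : ℂ, x - algebraMap ℂ K c ≠ 0) {C : ℂ}
    (hCne : C ≠ 0) (T : Finset ℂ) (a : ℂ → ℤ) (h : V.v x < 0) :
    V.v (algebraMap ℂ K C * ∏ c ∈ T, (x - algebraMap ℂ K c) ^ a c) =
      (∑ c ∈ T, a c) * V.v x := by
  have hx0 : x ≠ 0 := by
    have := hx 0
    rwa [map_zero, sub_zero] at this
  rw [(v_prod_sub V hC x hx hCne T a).2, Finset.sum_mul]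
  exact Finset.sum_congr rfl fun c _ => by rw [(v_sub_of_neg V hC hx0 h c).2]

/-- The value at `x = c`. -/
theorem v_prod_sub_pos (hC : Cst P) (x : K) (hx : ∀ c : ℂ, x - algebraMap ℂ K c ≠ 0) {C : ℂ}
    (hCne : C ≠ 0) (T : Finset ℂ) (a : ℂ → ℤ) {c : ℂ} (h : 0 < V.v (x - algebraMap ℂ K c)) :
    V.v (algebraMap ℂ K C * ∏ c ∈ T, (x - algebraMap ℂ K c) ^ a c) =
      (if c ∈ T then a c else 0) * V.v (x - algebraMap ℂ K c) := by
  classical
  rw [(v_prod_sub V hC x hx hCne T a).2]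
  by_cases hc : c ∈ T
  · rw [if_pos hc, Finset.sum_eq_single c]
    · intro c' _ hc'
      rw [(v_sub_of_pos V hC hc' (Or.inr h)).2, mul_zero]
    · exact fun h => absurd hc h
  · rw [if_neg hc, zero_mul]
    refine Finset.sum_eq_zero fun c' hc' => ?_
    have hne : c' ≠ c := by
      rintro rfl
      exact hc hc'
    rw [(v_sub_of_pos V hC hne (Or.inr h)).2, mul_zero]

end const

end PQ
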