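import Pool.Agent.Lib.MP_23b606_ag.PQ.Defs
import Pool.Agent.Lib.MP_23b606_ag.T1.A.Om

/-!
PQ/Ai: functions on the factors of a product of curves.

`alg_indep`: `L` is algebraic over `ℂ(t)`: each `F i` is algebraic over `ℂ⟮t i⟯` (`trdeg = 1`) and the
`F i` generate `L`. So the `t i` contain a transcendence basis, which has `n` elements.
`W_ne`: as `T4.W_ne_zero` in `Lib/MP_23b606_ag/T4/Main2.lean` (the differentials are linearly independent,
`T1.linearIndependent_D`, extend the dual forms, determinant).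
-/

set_option autoImplicit false

namespace PQ

open scoped KaehlerDifferential

/-- An element of a field `F₀` of transcendence degree one is algebraic over any field which
contains a transcendental element of `F₀`. -/
private theorem ai_alg {L : Type} [Field L] [Algebra ℂ L] (F₀ E : IntermediateField ℂ L)
    (h1 : Algebra.trdeg ℂ F₀ = 1) (t : L) (ht : t ∈ F₀) (htE : t ∈ E) (htr : Transcendental ℂ t)
    (z : L) (hz : z ∈ F₀) : IsAlgebraic E z := by
  let x : Fin 1 → F₀ := fun _ => ⟨t, ht⟩
  have hx : AlgebraicIndependent ℂ x := by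
    rw [algebraicIndependent_unique_type_iff]
    intro h
    exact htr (h.algHom F₀.val)
  have hb : IsTranscendenceBasis ℂ x := by
    refine hx.isTranscendenceBasis_of_trdeg_le_of_finite ?_
    rw [h1, Cardinal.mk_fin, Nat.cast_one]
  have halg := hb.isAlgebraic
  have hzx : IsAlgebraic (Algebra.adjoin ℂ (Set.range x)) (⟨z, hz⟩ : F₀) := halg.isAlgebraic _
  have hmem : ∀ a : Algebra.adjoin ℂ (Set.range x), (((a : F₀) : L)) ∈ E := by
    intro a
    have h2 : Algebra.adjoin ℂ (Set.range x) ≤ E.toSubalgebra.comap F₀.val := by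
      rw [Algebra.adjoin_le_iff]
      rintro _ ⟨i, rfl⟩
      exact htE
    exact h2 a.2
  let g : F₀ →+* L := F₀.val.toRingHom
  let f : Algebra.adjoin ℂ (Set.range x) →+* E :=
    RingHom.codRestrict (g.comp (Algebra.adjoin ℂ (Set.range x)).subtype) E hmem
  have hf : Function.Injective f := by
    intro a b hab
    have h3 : (((f a : E)) : L) = ((f b : E) : L) := congrArg Subtype.val hab
    exact Subtype.ext (Subtype.ext h3)
  exact hzx.ringHom_of_comp_eq f g hf (RingHom.ext fun a => rfl)

/-- Dual linear forms. -/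
private theorem ai_dual {K : Type} [Field K] [Algebra ℂ K] {n : ℕ} {x : Fin n → K}
    (hx : AlgebraicIndependent ℂ x) :
    ∃ φ : Fin n → Ω[K⁄ℂ] →ₗ[K] K, ∀ i j,
      φ i (KaehlerDifferential.D ℂ K (x j)) = if i = j then 1 else 0 := by
  classical
  have hli := T1.linearIndependent_D x hx
  set v := fun i => KaehlerDifferential.D ℂ K (x i) with hv
  let b := Module.Basis.span hli
  have hφ : ∀ i, ∃ φ : Ω[K⁄ℂ] →ₗ[K] K, ∀ j, φ (v j) = if i = j then 1 else 0 := by
    intro i
    obtain ⟨φ, hφ⟩ := LinearMap.exists_extend (b.coord i)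
    refine ⟨φ, fun j => ?_⟩
    have h1 : (b j : Ω[K⁄ℂ]) = v j := congrArg Subtype.val (Module.Basis.span_apply hli j)
    rw [← h1]
    have h2 : φ (b j : Ω[K⁄ℂ]) = (b.coord i) (b j) := by rw [← hφ]; rfl
    rw [h2, Module.Basis.coord_apply, Module.Basis.repr_self, Finsupp.single_apply]
    simp only [eq_comm]
  choose φ hφ using hφ
  exact ⟨φ, hφ⟩

theorem alg_indep {L : Type} [Field L] [Algebra ℂ L] {n : ℕ} (F : Fin n → IntermediateField ℂ L)
    (h1 : ∀ i, Algebra.trdeg ℂ (F i) = 1) (hsup : ⨆ i, F i = ⊤) (hn : Algebra.trdeg ℂ L = n)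
    (t : Fin n → L) (ht : ∀ i, t i ∈ F i) (htr : ∀ i, Transcendental ℂ (t i)) :
    AlgebraicIndependent ℂ t := by
  let E : IntermediateField ℂ L := IntermediateField.adjoin ℂ (Set.range t)
  have hall : ∀ z : L, IsAlgebraic E z := by
    have hle : ⨆ i, F i ≤ (algebraicClosure E L).restrictScalars ℂ := by
      refine iSup_le fun i z hz => ?_
      have h2 : IsAlgebraic E z := ai_alg (F i) E (h1 i) (t i) (ht i)
        (IntermediateField.subset_adjoin ℂ _ ⟨i, rfl⟩) (htr i) z hz
      exact mem_algebraicClosure_iff.2 h2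
    intro z
    rw [hsup] at hle
    exact mem_algebraicClosure_iff.1 (hle (IntermediateField.mem_top (x := z)))
  have h2 : Algebra.IsAlgebraic (Algebra.adjoin ℂ (Set.range t)) L :=
    ⟨fun z => IntermediateField.isAlgebraic_adjoin_iff.1 (hall z)⟩
  exact (Algebra.IsAlgebraic.isTranscendenceBasis_of_le_trdeg_of_finite ℂ t
    (by rw [hn, Cardinal.mk_fin])).1

theorem W_ne {K : Type} [Field K] [Algebra ℂ K] {n : ℕ} (x : Fin n → K)
    (hx : AlgebraicIndependent ℂ x) : T1.W x ≠ 0 := by
  classical
  obtain ⟨φ, hφ⟩ := ai_dual hx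
  let A : Ω[K⁄ℂ] [⋀^Fin n]→ₗ[K] K :=
    (Matrix.detRowAlternating (R := K) (n := Fin n)).compLinearMap (LinearMap.pi φ)
  intro h
  have h1 : exteriorPower.alternatingMapLinearEquiv A (T1.W x) = 1 := by
    unfold T1.W
    rw [exteriorPower.alternatingMapLinearEquiv_apply_ιMulti]
    show Matrix.det (fun i => (LinearMap.pi φ) (KaehlerDifferential.D ℂ K (x i))) = _
    have h2 : (fun i => (LinearMap.pi φ) (KaehlerDifferential.D ℂ K (x i))) =
        (1 : Matrix (Fin n) (Fin n) K) := by
      ext i j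
      rw [Matrix.one_apply]
      show φ j (KaehlerDifferential.D ℂ K (x i)) = _
      rw [hφ]
      simp only [eq_comm]
    rw [h2, Matrix.det_one]
  rw [h, map_zero] at h1
  exact zero_ne_one h1

end PQ
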