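import Pool.Agent.Lib.MP_23b606_ag.PQ.Defs

/-!
PQ/Act: the action of `G` on an invariant subfield, and the Galois extension `L / fixedField G`.
-/

set_option autoImplicit false

open IntermediateField

namespace PQ

theorem exists_restr {L : Type} [Field L] [Algebra ℂ L] (G : Subgroup (L ≃ₐ[ℂ] L))
    (F : IntermediateField ℂ L) (hG : ∀ g ∈ G, ∀ x ∈ F, g x ∈ F) :
    ∃ φ : G →* (F ≃ₐ[ℂ] F), ∀ (g : G) (x : F), ((φ g x : F) : L) = (g : L ≃ₐ[ℂ] L) (x : L) := by
  let f : G → (F →ₐ[ℂ] F) := fun g =>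
    (((g : L ≃ₐ[ℂ] L) : L →ₐ[ℂ] L).comp F.val).codRestrict F.toSubalgebra
      fun x => hG g g.2 x x.2
  have hf : ∀ (g : G) (x : F), ((f g x : F) : L) = (g : L ≃ₐ[ℂ] L) (x : L) := fun g x => rfl
  have hinv : ∀ g : G, (f g).comp (f g⁻¹) = AlgHom.id ℂ F := by
    intro g
    refine AlgHom.ext fun x => Subtype.ext ?_
    change (g : L ≃ₐ[ℂ] L) (((g⁻¹ : G) : L ≃ₐ[ℂ] L) (x : L)) = (x : L)
    rw [← AlgEquiv.mul_apply, ← Subgroup.coe_mul, mul_inv_cancel]
    rfl
  have hinv' : ∀ g : G, (f g⁻¹).comp (f g) = AlgHom.id ℂ F := by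
    intro g
    have h := hinv g⁻¹
    rwa [inv_inv] at h
  refine ⟨{ toFun := fun g => AlgEquiv.ofAlgHom (f g) (f g⁻¹) (hinv g) (hinv' g)
            map_one' := ?_
            map_mul' := ?_ }, fun g x => rfl⟩
  · exact AlgEquiv.ext fun x => Subtype.ext rfl
  · intro g h
    exact AlgEquiv.ext fun x => Subtype.ext rfl

private theorem act_integral {L : Type} [Field L] [Algebra ℂ L] (G : Subgroup (L ≃ₐ[ℂ] L))
    [Finite G] (x : L) : IsIntegral (fixedField G) x := by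
  obtain ⟨p, hp, hpx⟩ := FixedPoints.isIntegral G L x
  let φ : FixedPoints.subfield G L →+* fixedField G :=
    { toFun := fun y => ⟨(y : L), y.2⟩
      map_one' := rfl
      map_mul' := fun _ _ => rfl
      map_zero' := rfl
      map_add' := fun _ _ => rfl }
  refine ⟨p.map φ, hp.map φ, ?_⟩
  rw [Polynomial.eval₂_map]
  exact hpx

theorem isAlgebraic_fixed {L : Type} [Field L] [Algebra ℂ L] (G : Subgroup (L ≃ₐ[ℂ] L)) [Finite G] :
    Algebra.IsAlgebraic (fixedField G) L :=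
  ⟨fun x => (act_integral G x).isAlgebraic⟩

theorem trdeg_fixed {L : Type} [Field L] [Algebra ℂ L] (G : Subgroup (L ≃ₐ[ℂ] L)) [Finite G]
    {n : ℕ} (hn : Algebra.trdeg ℂ L = n) : Algebra.trdeg ℂ (fixedField G) = n := by
  have := isAlgebraic_fixed G
  have h := trdeg_add_eq ℂ (fixedField G) (A := L)
  rw [trdeg_eq_zero (R := fixedField G) (A := L), add_zero, hn] at h
  exact h

end PQ
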