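import Pool.Agent.Lib.MP_23b606_ag.PQ.Ded

/-!
PQ/Pl: every valuation ring of a curve over `ℂ` is discrete or trivial.

Proof: take `y ∈ P`, `y ≠ 0`, with `P.valuation y < 1` (`P ≠ ⊤`); `y` is not a constant (`hC` for
`c⁻¹`), so transcendental. The integral closure `D` of `ℂ[y] = Algebra.adjoin ℂ {y}` (a principal
ideal domain, isomorphic to `ℂ[X]`) in `F` is a Dedekind domain with fraction field `F`
(`IsIntegralClosure.isDedekindDomain`, `ℂ⟮y⟯` is the fraction field of `Algebra.adjoin ℂ {y}`,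
`F` is finite over `ℂ⟮y⟯` by `hF.fin`). `D ⊆ P` as `P` is integrally closed. Use `ded`.
-/

set_option autoImplicit false

open T1
open scoped IntermediateField IntermediateField.algebraAdjoinAdjoin

namespace PQ

/-- An element integral over a subring of a valuation ring is in the valuation ring. -/
private theorem pl_mem {F : Type} [Field F] [Algebra ℂ F] (P : ValuationSubring F)
    (A : Subalgebra ℂ F) (hA : ∀ a ∈ A, a ∈ P) (u : F) (hu : IsIntegral A u) : u ∈ P := by
  have h1 : IsIntegral P u := by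
    have h2 : IsIntegral P.toSubring u := by
      obtain ⟨p, hp, h0⟩ := hu
      let φ : A →+* P.toSubring :=
        (A.val.toRingHom).codRestrict P.toSubring fun a => hA a a.2
      refine ⟨p.map φ, hp.map φ, ?_⟩
      rw [Polynomial.eval₂_map]
      exact h0
    exact h2
  obtain ⟨v, hv⟩ := (IsIntegrallyClosed.isIntegral_iff (R := P) (K := F)).1 h1
  rw [← hv]
  exact v.2

theorem exists_nval_of_crv {F : Type} [Field F] [Algebra ℂ F] (hF : Crv F)
    (P : ValuationSubring F) (hC : Cst P) (hP : P ≠ ⊤) : Nonempty (NVal P) := by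
  obtain ⟨x, hx⟩ : ∃ x : F, x ∉ P := by
    by_contra h
    push Not at h
    exact hP (eq_top_iff.2 fun x _ => h x)
  have hy : x⁻¹ ∈ P := (P.mem_or_inv_mem x).resolve_left hx
  have ht : Transcendental ℂ x⁻¹ := by
    intro ha
    have hi : IsIntegral ℂ x⁻¹ := ha.isIntegral
    have h1 : Algebra.IsIntegral ℂ (ℂ⟮x⁻¹⟯) := by
      have := IntermediateField.isAlgebraic_adjoin_simple hi
      infer_instance
    obtain ⟨c, hc⟩ := (IsAlgClosed.algebraMap_bijective_of_isIntegral (k := ℂ) (K := ℂ⟮x⁻¹⟯)).2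
      ⟨x⁻¹, IntermediateField.mem_adjoin_simple_self ℂ x⁻¹⟩
    have h2 : algebraMap ℂ F c = x⁻¹ := congrArg (algebraMap ℂ⟮x⁻¹⟯ F) hc
    apply hx
    have h3 : algebraMap ℂ F c⁻¹ = x := by rw [map_inv₀, h2, inv_inv]
    rw [← h3]
    exact hC c⁻¹
  have := hF.fin _ ht
  have e := Polynomial.algEquivOfTranscendental ℂ x⁻¹ ht
  have : IsPrincipalIdealRing (Algebra.adjoin ℂ {x⁻¹}) :=
    IsPrincipalIdealRing.of_surjective e.toRingEquiv.toRingHom e.surjective
  have : CharZero ℂ⟮x⁻¹⟯ := charZero_of_injective_algebraMap (algebraMap ℂ ℂ⟮x⁻¹⟯).injective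
  have : IsDedekindDomain (integralClosure (Algebra.adjoin ℂ {x⁻¹}) F) :=
    integralClosure.isDedekindDomain (Algebra.adjoin ℂ {x⁻¹}) ℂ⟮x⁻¹⟯ F
  have : IsFractionRing (integralClosure (Algebra.adjoin ℂ {x⁻¹}) F) F :=
    IsIntegralClosure.isFractionRing_of_finite_extension (Algebra.adjoin ℂ {x⁻¹}) ℂ⟮x⁻¹⟯ F
      (integralClosure (Algebra.adjoin ℂ {x⁻¹}) F)
  have hA : ∀ a ∈ Algebra.adjoin ℂ {x⁻¹}, a ∈ P := by
    intro a ha
    induction ha using Algebra.adjoin_induction with
    | mem a ha =>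
      rw [Set.mem_singleton_iff.1 ha]
      exact hy
    | algebraMap c => exact hC c
    | add a b _ _ ha hb => exact P.add_mem _ _ ha hb
    | mul a b _ _ ha hb => exact P.mul_mem _ _ ha hb
  have hD : ∀ d : integralClosure (Algebra.adjoin ℂ {x⁻¹}) F,
      algebraMap (integralClosure (Algebra.adjoin ℂ {x⁻¹}) F) F d ∈ P := by
    intro d
    have h1 : IsIntegral (Algebra.adjoin ℂ {x⁻¹}) (d : F) := d.2
    exact pl_mem P _ hA _ h1
  exact (ded (D := integralClosure (Algebra.adjoin ℂ {x⁻¹}) F) P hD hP).1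

end PQ
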