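import Pool.Agent.Lib.MP_23b606_ag.PQ.Defs

/-!
PQ/Sup: integral closure and valuation rings.

`integral_of_all`: `iInf_valuationSubring_superset` (Mathlib, RingTheory/Valuation/LocalSubring)
with `s = R`, `Subring.closure_eq`. `const_of_all`: `R` = the range of `algebraMap ℂ F`, `ℂ` is
algebraically closed. `exists_not_mem`: from `const_of_all`.
-/

set_option autoImplicit false

open T1

namespace PQ

theorem integral_of_all {F : Type} [Field F] (R : Subring F) (u : F)
    (h : ∀ P : ValuationSubring F, R ≤ P.toSubring → u ∈ P) : IsIntegral R u := by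
  have h1 : u ∈ (integralClosure (Subring.closure (R : Set F)) F).toSubring := by
    rw [← iInf_valuationSubring_superset, Subring.mem_iInf]
    rintro ⟨V, hV⟩
    exact h V hV
  have h2 : IsIntegral (Subring.closure (R : Set F)) u := h1
  rw [Subring.closure_eq] at h2
  exact h2

theorem mem_of_integral {F : Type} [Field F] (R : Subring F) (u : F) (hu : IsIntegral R u)
    (P : ValuationSubring F) (hP : R ≤ P.toSubring) : u ∈ P := by
  rw [← Subring.closure_eq R] at hu
  have h1 : u ∈ (integralClosure (Subring.closure (R : Set F)) F).toSubring := hu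
  rw [← iInf_valuationSubring_superset, Subring.mem_iInf] at h1
  exact h1 ⟨P, hP⟩

theorem const_of_all {F : Type} [Field F] [Algebra ℂ F] (u : F)
    (h : ∀ P : ValuationSubring F, Cst P → u ∈ P) : ∃ c : ℂ, u = algebraMap ℂ F c := by
  have h1 : IsIntegral (algebraMap ℂ F).range u := by
    refine integral_of_all _ u fun P hP => h P fun c => ?_
    exact hP ⟨c, rfl⟩
  obtain ⟨p, hp, hpu⟩ := h1
  have h2 : p ∈ Polynomial.lifts (algebraMap ℂ F).rangeRestrict := by
    rw [Polynomial.lifts_iff_coeff_lifts]
    intro n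
    obtain ⟨c, hc⟩ := (algebraMap ℂ F).rangeRestrict_surjective (p.coeff n)
    exact ⟨c, hc⟩
  obtain ⟨q, hq, -, hqm⟩ := Polynomial.lifts_and_natDegree_eq_and_monic h2 hp
  have h3 : IsIntegral ℂ u := by
    refine ⟨q, hqm, ?_⟩
    rw [← hq, Polynomial.eval₂_map] at hpu
    exact hpu
  have h4 : (minpoly ℂ u).degree = 1 :=
    IsAlgClosed.degree_eq_one_of_irreducible ℂ (minpoly.irreducible h3)
  obtain ⟨c, hc⟩ := minpoly.mem_range_of_degree_eq_one ℂ u h4
  exact ⟨c, hc.symm⟩

theorem exists_not_mem {F : Type} [Field F] [Algebra ℂ F] (u : F) (hu : Transcendental ℂ u) :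
    ∃ P : ValuationSubring F, Cst P ∧ u ∉ P := by
  by_contra hcon
  push Not at hcon
  obtain ⟨c, rfl⟩ := const_of_all u hcon
  exact hu (isAlgebraic_algebraMap c)

end PQ
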