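import Pool.Agent.Lib.MP_23b606_ag.PQ.Nv

/-!
PQ/Tr: a discrete valuation which is trivial on `ℂ(t)` is trivial on every algebraic extension.

Proof of `v_eq_zero`: the values of the nonzero elements of `ℂ[t]` are `0` (product of a constant
and of factors `t - c`), so the values of the nonzero elements of `ℂ(t)` are `0`. Let
`∑ p_i x^i = 0`, `p_i ∈ ℂ(t)`, `p_0 ≠ 0` (minimal polynomial). If `V x > 0` then `V (p_i x^i) > 0`
for `i > 0` and `V p_0 = 0`, contradiction (`v_add_eq`, `NVal.sum`); if `V x < 0` use `x⁻¹`.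

Proof of `exists_residue`: otherwise `V (u - c) = 0` for all `c` (`cases_at`; `u ∈ P`), `u` is
transcendental over `ℂ`, `F` is algebraic over `ℂ⟮u⟯` (`hF.fin`), so `V` is trivial, `V.vπ`.
-/

set_option autoImplicit false

open T1

open scoped IntermediateField

namespace PQ

private theorem tr_poly {K : Type} [Field K] [Algebra ℂ K] {O : ValuationSubring K} (V : NVal O)
    (hC : Cst O) (t : K) (ht : ∀ c : ℂ, t - algebraMap ℂ K c ≠ 0)
    (h0 : ∀ c : ℂ, V.v (t - algebraMap ℂ K c) = 0) :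
    ∀ (n : ℕ) (p : Polynomial ℂ), p.natDegree ≤ n → p ≠ 0 →
      Polynomial.aeval t p ≠ 0 ∧ V.v (Polynomial.aeval t p) = 0 := by
  have hconst : ∀ c : ℂ, c ≠ 0 → Polynomial.aeval t (Polynomial.C c) ≠ 0 ∧
      V.v (Polynomial.aeval t (Polynomial.C c)) = 0 := by
    intro c hc
    rw [Polynomial.aeval_C]
    exact ⟨(map_ne_zero _).2 hc, v_const V hC hc⟩
  intro n
  induction n with
  | zero =>
    intro p hp hp0
    have h1 := Polynomial.eq_C_of_natDegree_le_zero hp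
    rw [h1]
    refine hconst _ fun h => hp0 ?_
    rw [h1, h, Polynomial.C_0]
  | succ n ih =>
    intro p hp hp0
    by_cases hd : p.degree = 0
    · have h1 := Polynomial.eq_C_of_degree_eq_zero hd
      rw [h1]
      refine hconst _ fun h => hp0 ?_
      rw [h1, h, Polynomial.C_0]
    · obtain ⟨r, hr⟩ := IsAlgClosed.exists_root p hd
      obtain ⟨q, hq⟩ := Polynomial.dvd_iff_isRoot.2 hr
      have hq0 : q ≠ 0 := by
        rintro rfl
        exact hp0 (by rw [hq, mul_zero])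
      have hdeg : p.natDegree = 1 + q.natDegree := by
        rw [hq, Polynomial.natDegree_mul (Polynomial.X_sub_C_ne_zero r) hq0,
          Polynomial.natDegree_X_sub_C]
      obtain ⟨h1, h2⟩ := ih q (by omega) hq0
      have h3 : Polynomial.aeval t p = (t - algebraMap ℂ K r) * Polynomial.aeval t q := by
        rw [hq, map_mul, map_sub, Polynomial.aeval_X, Polynomial.aeval_C]
      rw [h3]
      refine ⟨mul_ne_zero (ht r) h1, ?_⟩
      rw [V.mul _ _ (ht r) h1, h0, h2, add_zero]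

private theorem tr_adj {K : Type} [Field K] [Algebra ℂ K] {O : ValuationSubring K} (V : NVal O)
    (hC : Cst O) (t : K) (ht : ∀ c : ℂ, t - algebraMap ℂ K c ≠ 0)
    (h0 : ∀ c : ℂ, V.v (t - algebraMap ℂ K c) = 0) (y : K) (hy : y ∈ ℂ⟮t⟯) (hy0 : y ≠ 0) :
    V.v y = 0 := by
  obtain ⟨r, s, hrs⟩ := (IntermediateField.mem_adjoin_simple_iff ℂ y).1 hy
  have hr : r ≠ 0 := by
    rintro rfl
    rw [map_zero, zero_div] at hrs
    exact hy0 hrs
  have hs : s ≠ 0 := by
    rintro rfl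
    rw [map_zero, div_zero] at hrs
    exact hy0 hrs
  obtain ⟨h1, h2⟩ := tr_poly V hC t ht h0 _ r le_rfl hr
  obtain ⟨h3, h4⟩ := tr_poly V hC t ht h0 _ s le_rfl hs
  rw [hrs, v_div V h1 h3, h2, h4, sub_zero]

private theorem tr_le {K : Type} [Field K] [Algebra ℂ K] {O : ValuationSubring K} (V : NVal O)
    (hC : Cst O) (t : K) (ht : ∀ c : ℂ, t - algebraMap ℂ K c ≠ 0)
    (h0 : ∀ c : ℂ, V.v (t - algebraMap ℂ K c) = 0) (x : K) (hx : IsAlgebraic ℂ⟮t⟯ x)
    (hx0 : x ≠ 0) : V.v x ≤ 0 := by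
  by_contra hcon
  push Not at hcon
  have hint := hx.isIntegral
  have hp0 : (minpoly ℂ⟮t⟯ x).coeff 0 ≠ 0 := minpoly.coeff_zero_ne_zero hint hx0
  obtain ⟨p, hp⟩ : ∃ p, p = minpoly ℂ⟮t⟯ x := ⟨_, rfl⟩
  rw [← hp] at hp0
  have h1 : Polynomial.aeval x p = 0 := by
    rw [hp]
    exact minpoly.aeval _ _
  rw [Polynomial.aeval_eq_sum_range, Finset.sum_range_succ'] at h1
  have hc0 : ((p.coeff 0 : ℂ⟮t⟯) : K) ≠ 0 := by
    intro h
    exact hp0 (Subtype.ext h)
  have h2 := v_sum_ge V (Finset.range p.natDegree) (fun i => p.coeff (i + 1) • x ^ (i + 1)) 1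
    (by
      intro i _
      by_cases hi : p.coeff (i + 1) = 0
      · left
        rw [hi, zero_smul]
      · right
        have hi' : ((p.coeff (i + 1) : ℂ⟮t⟯) : K) ≠ 0 := fun h => hi (Subtype.ext h)
        have h3 : p.coeff (i + 1) • x ^ (i + 1) = ((p.coeff (i + 1) : ℂ⟮t⟯) : K) * x ^ (i + 1) :=
          Algebra.smul_def _ _
        rw [h3, V.mul _ _ hi' (pow_ne_zero _ hx0), v_pow V hx0,
          tr_adj V hC t ht h0 _ (p.coeff (i + 1)).2 hi', zero_add]
        have : (1 : ℤ) ≤ ((i + 1 : ℕ) : ℤ) := by omega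
        nlinarith)
  have h3 : ∑ i ∈ Finset.range p.natDegree, p.coeff (i + 1) • x ^ (i + 1) =
      - ((p.coeff 0 : ℂ⟮t⟯) : K) := by
    rw [pow_zero] at h1
    have h4 : p.coeff 0 • (1 : K) = ((p.coeff 0 : ℂ⟮t⟯) : K) := by
      rw [Algebra.smul_def, mul_one]
      rfl
    rw [h4] at h1
    exact eq_neg_of_add_eq_zero_left h1
  rw [h3] at h2
  rcases h2 with h2 | h2
  · exact hc0 (neg_eq_zero.1 h2)
  · rw [v_neg V hc0, tr_adj V hC t ht h0 _ (p.coeff 0).2 hc0] at h2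
    omega

theorem v_eq_zero {K : Type} [Field K] [Algebra ℂ K] {O : ValuationSubring K} (V : NVal O)
    (hC : Cst O) (t : K) (ht : ∀ c : ℂ, t - algebraMap ℂ K c ≠ 0)
    (h0 : ∀ c : ℂ, V.v (t - algebraMap ℂ K c) = 0) (x : K) (hx : IsAlgebraic ℂ⟮t⟯ x)
    (hx0 : x ≠ 0) : V.v x = 0 := by
  have h1 := tr_le V hC t ht h0 x hx hx0
  have h2 := tr_le V hC t ht h0 x⁻¹ hx.inv (inv_ne_zero hx0)
  rw [V.inv hx0] at h2
  omega

theorem exists_residue {F : Type} [Field F] [Algebra ℂ F] (hF : Crv F) {P : ValuationSubring F}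
    (V : NVal P) (hC : Cst P) (u : F) (hu : u ∈ P) :
    ∃ c : ℂ, u - algebraMap ℂ F c = 0 ∨ 0 < V.v (u - algebraMap ℂ F c) := by
  by_contra hcon
  push Not at hcon
  have hne : ∀ c : ℂ, u - algebraMap ℂ F c ≠ 0 := fun c => (hcon c).1
  have hu0 : u ≠ 0 := by
    have := hne 0
    rwa [map_zero, sub_zero] at this
  have h0 : ∀ c : ℂ, V.v (u - algebraMap ℂ F c) = 0 := by
    rcases cases_at V hC u hne with ⟨h1, -⟩ | ⟨c, h1, -⟩ | h1
    · have h2 := (V.mem _ hu0).1 hu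
      omega
    · exact absurd h1 (not_lt.2 (hcon c).2)
    · exact h1
  have htr : Transcendental ℂ u := by
    rw [transcendental_iff]
    intro p hp
    by_contra hp0
    exact (tr_poly V hC u hne h0 _ p le_rfl hp0).1 hp
  have hfd := hF.fin u htr
  have h3 := v_eq_zero V hC u hne h0 V.π (Algebra.IsAlgebraic.isAlgebraic V.π) V.hπ
  rw [V.vπ] at h3
  exact one_ne_zero h3

end PQ
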