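import Pool.Agent.Lib.MP_23b606_ag.PQ.Wts

/-!
PQ/Brn: weights from branch points.

Proof: `x`, `a` from `hb`; `T` = the image of `a`, `w' (a j) = w j`, `w₀ = 0`. `fin`: at `V (x - a j) > 0`
use `isDiv_one`, `valuation_lt_one_iff`, `valuation_le_iff`: `V (x - a j) ≥ e j V y ≥ e j` (`x - a j ≠ 0`
as `k ≠ ⊥`, `e j ≠ 0` by `h1`, so `y ≠ 0`). `inf`: `-V x ≥ 1`.
-/

set_option autoImplicit false

open T1

open scoped IntermediateField

namespace PQ

theorem wts_of_branch {F : Type} [Field F] [Algebra ℂ F] {k : IntermediateField ℂ F} (hk : k ≠ ⊥)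
    {r : ℕ} (e w : Fin r → ℕ) (ρ : ℕ) (hρ : ρ ≤ 12) (h1 : ∀ j, 12 ≤ e j * (12 - w j))
    (h2 : ∀ j, w j + ρ ≤ 12) (h3 : ∑ j, w j = 24) (hb : Branch k e) :
    ∃ x : F, ℂ⟮x⟯ = k ∧ ∃ (T : Finset ℂ) (w' : ℂ → ℕ), Wts x ρ T w' 0 := by
  classical
  obtain ⟨x, a, hx, ha, hv⟩ := hb
  have hne : ∀ c : ℂ, x - algebraMap ℂ F c ≠ 0 := by
    intro c hc
    apply hk
    rw [← hx, IntermediateField.adjoin_simple_eq_bot_iff, IntermediateField.mem_bot]
    exact ⟨c, (sub_eq_zero.1 hc).symm⟩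
  set w' : ℂ → ℕ := fun c => ∑ j, if a j = c then w j else 0 with hw'
  have hw : ∀ j, w' (a j) = w j := by
    intro j
    simp only [hw']
    rw [Finset.sum_eq_single j]
    · rw [if_pos rfl]
    · intro i _ hij
      rw [if_neg fun h => hij (ha h)]
    · exact fun h => absurd (Finset.mem_univ j) h
  refine ⟨x, hx, Finset.univ.image a, w', ?_, ?_, ?_, ?_, ?_⟩
  · rw [Finset.sum_image fun i _ j _ h => ha h, add_zero, ← h3]
    exact Finset.sum_congr rfl fun j _ => hw j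
  · intro c hc
    obtain ⟨j, -, rfl⟩ := Finset.mem_image.1 hc
    rw [hw]
    exact h2 j
  · rw [zero_add]
    exact hρ
  · intro P V hC c hc hpos
    obtain ⟨j, -, rfl⟩ := Finset.mem_image.1 hc
    rw [hw]
    have he : e j ≠ 0 := by
      intro h
      have := h1 j
      rw [h, zero_mul] at this
      omega
    obtain ⟨y, hy1, hy2⟩ := hv j P (isDiv_one V hC) ((valuation_lt_one_iff V (hne _)).2 hpos)
    have hy0 : y ≠ 0 := by
      rintro rfl
      rw [map_zero, zero_pow he, le_zero_iff, map_eq_zero] at hy2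
      exact hne _ hy2
    have hyv : 0 < V.v y := (valuation_lt_one_iff V hy0).1 hy1
    rw [← map_pow] at hy2
    have h4 := (valuation_le_iff V (hne _) (pow_ne_zero _ hy0)).1 hy2
    rw [v_pow V hy0] at h4
    have h5 : (e j : ℤ) ≤ V.v (x - algebraMap ℂ F (a j)) := by nlinarith
    have h6 := h2 j
    have h7 : (12 : ℤ) ≤ e j * (12 - (w j : ℤ)) := by
      have h8 := h1 j
      have h9 : ((12 - w j : ℕ) : ℤ) = 12 - (w j : ℤ) := by omega
      rw [← h9]
      exact_mod_cast h8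
    have h8 : (0 : ℤ) ≤ 12 - (w j : ℤ) := by omega
    exact h7.trans (mul_le_mul_of_nonneg_right h5 h8)
  · intro P V hC hneg
    simp only [Nat.cast_zero, sub_zero]
    omega

end PQ
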