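import Pool.Agent.Lib.MP_23b606_ag.PQ.Defs

/-!
PQ/Crvs: function fields of curves and their subfields.

`crv_of_fg`: `F` (over `ℂ`) is finitely generated and algebraic over `ℂ⟮x⟯`, as its transcendence degree
is one. `crv_sub`: `k / ℂ⟮x⟯` is a subspace of `F / ℂ⟮x⟯`, the transcendence degree of `k` is that of `F`.
`isAlgebraic_of_fixed`: `y` is a root of `∏ (X - φ γ y)`. `transcendental_of_adjoin`: otherwise `k = ⊥`,
`F` algebraic over `ℂ`.
-/

set_option autoImplicit false

open scoped IntermediateField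

namespace PQ

private theorem crvs_alg {F : Type} [Field F] [Algebra ℂ F] (h : Algebra.trdeg ℂ F = 1) (x : F)
    (hx : Transcendental ℂ x) : Algebra.IsAlgebraic ℂ⟮x⟯ F := by
  have h1 : AlgebraicIndependent ℂ (fun _ : Unit => x) :=
    (algebraicIndependent_singleton_iff ()).2 hx
  have h2 : IsTranscendenceBasis ℂ (fun _ : Unit => x) := by
    refine h1.isTranscendenceBasis_of_trdeg_le_of_finite ?_
    rw [h, Cardinal.mk_fintype, Fintype.card_unit, Nat.cast_one]
  have h3 := h2.isAlgebraic_field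
  rwa [Set.range_const] at h3

theorem crv_of_fg {L : Type} [Field L] [Algebra ℂ L] (F : IntermediateField ℂ L)
    (h : Algebra.trdeg ℂ F = 1) (hfg : F.FG) : Crv F := by
  refine ⟨h, fun x hx => ?_⟩
  have h1 : Algebra.EssFiniteType ℂ F := IntermediateField.essFiniteType_iff.2 hfg
  have h2 : Algebra.EssFiniteType ℂ⟮x⟯ F := Algebra.EssFiniteType.of_comp ℂ ℂ⟮x⟯ F
  have h3 : Algebra.IsAlgebraic ℂ⟮x⟯ F := crvs_alg h x hx
  exact Algebra.finite_of_essFiniteType_of_isAlgebraic

theorem crv_sub {F : Type} [Field F] [Algebra ℂ F] (hF : Crv F) (k : IntermediateField ℂ F)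
    [Algebra.IsAlgebraic k F] : Crv k := by
  refine ⟨?_, fun x hx => ?_⟩
  · have h1 := trdeg_add_eq ℂ k (A := F)
    rw [hF.tr, trdeg_eq_zero (R := k) (A := F), add_zero] at h1
    exact h1
  · have hy : Transcendental ℂ (x : F) :=
      (transcendental_algebraMap_iff (algebraMap k F).injective).2 hx
    have h1 : FiniteDimensional ℂ⟮(x : F)⟯ F := hF.fin _ hy
    have h2 : FiniteDimensional ℂ⟮x⟯ F := by
      obtain ⟨s, hs⟩ := h1.fg_top
      refine ⟨⟨s, ?_⟩⟩
      rw [eq_top_iff]
      intro v _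
      have hv : v ∈ Submodule.span ℂ⟮(x : F)⟯ (s : Set F) := by
        rw [hs]
        exact Submodule.mem_top
      refine Submodule.span_induction (p := fun z _ => z ∈ Submodule.span ℂ⟮x⟯ (s : Set F))
        ?_ ?_ ?_ ?_ hv
      · intro z hz
        exact Submodule.subset_span hz
      · exact Submodule.zero_mem _
      · intro z w _ _ hz hw
        exact Submodule.add_mem _ hz hw
      · rintro ⟨c, hc⟩ z _ hz
        have h3 : c ∈ ℂ⟮x⟯.map k.val := by
          rw [IntermediateField.adjoin_map, Set.image_singleton]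
          exact hc
        obtain ⟨c', hc', hcc⟩ := (IntermediateField.mem_map _).1 h3
        have h4 : (⟨c, hc⟩ : ℂ⟮(x : F)⟯) • z = (⟨c', hc'⟩ : ℂ⟮x⟯) • z := by
          show c * z = (c' : F) * z
          rw [← hcc]
          rfl
        rw [h4]
        exact Submodule.smul_mem _ _ hz
    exact FiniteDimensional.left ℂ⟮x⟯ k F

theorem isAlgebraic_of_fixed {F : Type} [Field F] [Algebra ℂ F] {Γ : Type} [Group Γ] [Finite Γ]
    (φ : Γ →* (F ≃ₐ[ℂ] F)) (k : IntermediateField ℂ F) (hk : ∀ y : F, y ∈ k ↔ ∀ γ, φ γ y = y) :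
    Algebra.IsAlgebraic k F := by
  have hkk : k = IntermediateField.fixedField φ.range := by
    ext y
    rw [hk, IntermediateField.mem_fixedField_iff]
    constructor
    · rintro h f ⟨γ, rfl⟩
      exact h γ
    · intro h γ
      exact h _ ⟨γ, rfl⟩
  subst hkk
  haveI : Finite φ.range := Set.finite_range φ
  refine ⟨fun y => ?_⟩
  have h : IsIntegral (FixedPoints.subfield φ.range F) y := FixedPoints.isIntegral φ.range F y
  exact IsIntegral.isAlgebraic h

theorem transcendental_of_adjoin {F : Type} [Field F] [Algebra ℂ F] (hF : Crv F)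
    (k : IntermediateField ℂ F) [Algebra.IsAlgebraic k F] (x : F) (hx : ℂ⟮x⟯ = k) :
    Transcendental ℂ x := by
  intro h
  subst hx
  haveI : Algebra.IsAlgebraic ℂ ℂ⟮x⟯ := IntermediateField.isAlgebraic_adjoin_simple h.isIntegral
  haveI : Algebra.IsAlgebraic ℂ F := Algebra.IsAlgebraic.trans ℂ ℂ⟮x⟯ F
  have h1 := hF.tr
  rw [trdeg_eq_zero (R := ℂ) (A := F)] at h1
  exact zero_ne_one h1

end PQ
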