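import Pool.Agent.Lib.MP_23b606_ag.PQ.Wts

/-!
PQ/Loc2: the form with given weights.

Proof: `y = ∏_{c ∈ T} (x - c)^(-w c)`. `up`: by `cases_at`, `v_prod_sub_neg`, `v_prod_sub_pos` (with
constant `1`, `map_one`): if `V x < 0` then `V y + 12 V x = (-V x) (12 - w₀)`; if `V (x - c) > 0` then it is
`V (x - c) (12 - w c)`, or `12 V (x - c)` for `c ∉ T`. The same in `ℂ⟮x⟯` gives `down`.
-/

set_option autoImplicit false

open T1

open scoped IntermediateField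

namespace PQ

private theorem loc2_gen {K : Type} [Field K] [Algebra ℂ K] {P : ValuationSubring K} (V : NVal P)
    (hC : Cst P) (x : K) (hx : ∀ c : ℂ, x - algebraMap ℂ K c ≠ 0) (T : Finset ℂ) (w : ℂ → ℕ)
    (w₀ : ℕ) (hsum : ∑ c ∈ T, w c + w₀ = 24) (B : ℤ)
    (hfin : ∀ c ∈ T, 0 < V.v (x - algebraMap ℂ K c) →
      B ≤ V.v (x - algebraMap ℂ K c) * (12 - (w c : ℤ)))
    (hinf : V.v x < 0 → B ≤ -V.v x * (12 - (w₀ : ℤ))) (hB : B ≤ 12) (c : ℂ) (hc : At V x c) :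
    B ≤ V.v (∏ c ∈ T, (x - algebraMap ℂ K c) ^ (-(w c : ℤ))) +
      12 * V.v (x - algebraMap ℂ K c) := by
  have h1 := v_prod_sub_neg V hC x hx one_ne_zero T (fun c => -(w c : ℤ))
  have h2 := fun c => v_prod_sub_pos V hC x hx one_ne_zero T (fun c => -(w c : ℤ)) (c := c)
  simp only [map_one, one_mul] at h1 h2
  rcases cases_at V hC x hx with ⟨h3, h4⟩ | ⟨c₀, h3, h4⟩ | h3
  · have h5 : (∑ c ∈ T, (w c : ℤ)) + w₀ = 24 := by exact_mod_cast hsum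
    have h6 := hinf h3
    rw [h1 h3, h4 c, Finset.sum_neg_distrib]
    have h7 : (∑ c ∈ T, (w c : ℤ)) = 24 - w₀ := by linarith
    rw [h7]
    linarith
  · have h5 : c = c₀ := by
      by_contra hne
      exact hc (h4 c hne)
    subst h5
    rw [h2 c h3]
    split_ifs with h6
    · have h7 := hfin c h6 h3
      linarith
    · have h7 : 1 ≤ V.v (x - algebraMap ℂ K c) := h3
      linarith
  · exact absurd (h3 c) hc

theorem frm_of_wts {F : Type} [Field F] [Algebra ℂ F] (x : F) (hx : Transcendental ℂ x) {ρ : ℕ}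
    {T : Finset ℂ} {w : ℂ → ℕ} {w₀ : ℕ} (h : Wts x ρ T w w₀) : ∃ y : F, Frm ℂ⟮x⟯ ρ x y := by
  have hx0 : ∀ c : ℂ, x - algebraMap ℂ F c ≠ 0 := by
    intro c h0
    apply hx
    rw [sub_eq_zero.1 h0]
    exact isAlgebraic_algebraMap c
  have hxm : x ∈ ℂ⟮x⟯ := IntermediateField.mem_adjoin_simple_self ℂ x
  have hρ : (ρ : ℤ) ≤ 12 := by
    have := h.le₀
    omega
  have hym : (∏ c ∈ T, (x - algebraMap ℂ F c) ^ (-(w c : ℤ))) ∈ ℂ⟮x⟯ :=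
    prod_mem fun c _ => zpow_mem (sub_mem hxm (ℂ⟮x⟯.algebraMap_mem c)) _
  refine ⟨∏ c ∈ T, (x - algebraMap ℂ F c) ^ (-(w c : ℤ)), hxm, hym, hx,
    Finset.prod_ne_zero_iff.2 fun c _ => zpow_ne_zero _ (hx0 c), ?_, ?_⟩
  · intro P V hP c hc
    exact loc2_gen V hP x hx0 T w w₀ h.sum 12 (h.fin P V hP) (h.inf P V hP) le_rfl c hc
  · intro Q W hQ c hc
    have hx1 : ∀ c : ℂ, (⟨x, hxm⟩ : ℂ⟮x⟯) - algebraMap ℂ ℂ⟮x⟯ c ≠ 0 := by
      intro c h0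
      exact hx0 c (congrArg Subtype.val h0)
    have e : (⟨∏ c ∈ T, (x - algebraMap ℂ F c) ^ (-(w c : ℤ)), hym⟩ : ℂ⟮x⟯) =
        ∏ c ∈ T, ((⟨x, hxm⟩ : ℂ⟮x⟯) - algebraMap ℂ ℂ⟮x⟯ c) ^ (-(w c : ℤ)) := by
      apply Subtype.ext
      change _ = ℂ⟮x⟯.val (∏ c ∈ T, ((⟨x, hxm⟩ : ℂ⟮x⟯) - algebraMap ℂ ℂ⟮x⟯ c) ^ (-(w c : ℤ)))
      rw [map_prod]
      refine Finset.prod_congr rfl fun c _ => ?_
      rw [map_zpow₀, map_sub]
      rfl
    rw [e]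
    refine loc2_gen W hQ _ hx1 T w w₀ h.sum ρ ?_ ?_ hρ c hc
    · intro c hcT h1
      have h2 : (ρ : ℤ) ≤ 12 - (w c : ℤ) := by
        have := h.le c hcT
        omega
      have h3 : (1 : ℤ) ≤ W.v ((⟨x, hxm⟩ : ℂ⟮x⟯) - algebraMap ℂ ℂ⟮x⟯ c) := h1
      nlinarith
    · intro h1
      have h2 : (ρ : ℤ) ≤ 12 - (w₀ : ℤ) := by
        have := h.le₀
        omega
      have h3 : (1 : ℤ) ≤ -W.v (⟨x, hxm⟩ : ℂ⟮x⟯) := by omega
      nlinarith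

end PQ
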