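import Pool.Agent.Lib.MP_23b606_ag.PQ.Nrm
import Pool.Agent.Lib.MP_23b606_ag.PQ.Brn
import Pool.Agent.Lib.MP_23b606_ag.PQ.Loc2
import Pool.Agent.Lib.MP_23b606_ag.PQ.Crvs
import Pool.Agent.Lib.MP_23b606_ag.PQ.Res

/-!
PQ/LocF: forms on the quotient of a curve.

`frm_of_not_rational`: `k` is a curve (`crv_sub`), take `t ∈ k` transcendental and `z` from
`exists_regular` for `k`, `h = z^12`. `down`: `W h + 12 W (t - c) = 12 (W z + W (t - c)) ≥ 12`.
`up`: restrict `V` to `k` (`exists_res`): `V h + 12 V (t - c) = 12 a (W z + W (t - c)) ≥ 12`.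

`exists_frm`: the five cases of `Weight`. `ρ ≤ 2`: if `k` is rational, `k = ℂ⟮x⟯` (image of a generator),
then `exists_wts`, `frm_of_wts`, otherwise `frm_of_not_rational`; `Frm.mono`. The three cases of `Branch`:
`wts_of_branch` with `w = ![6, 9, 9]`, `![8, 8, 8]`, `![6, 6, 6, 6]`, then `frm_of_wts`. The last case:
`frm_of_not_rational`.
-/

set_option autoImplicit false

open T1

open scoped IntermediateField

namespace PQ

private theorem lf_exists_tr {K : Type} [Field K] [Algebra ℂ K] (hK : Crv K) :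
    ∃ t : K, Transcendental ℂ t := by
  by_contra hcon
  push Not at hcon
  have h1 : Algebra.IsAlgebraic ℂ K := ⟨fun t => by
    have := hcon t
    rwa [Transcendental, not_not] at this⟩
  have h2 : Algebra.trdeg ℂ K = 0 := trdeg_eq_zero
  rw [hK.tr] at h2
  exact one_ne_zero h2

theorem frm_of_not_rational {F : Type} [Field F] [Algebra ℂ F] (hF : Crv F)
    (k : IntermediateField ℂ F) [Algebra.IsAlgebraic k F] (hk : ¬ Rational k) :
    ∃ t h : F, Frm k 12 t h := by
  have hC : Crv k := crv_sub hF k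
  obtain ⟨t, ht⟩ := lf_exists_tr hC
  obtain ⟨z, hz, hreg⟩ := (exists_regular hC t ht).resolve_left hk
  have htF : Transcendental ℂ (t : F) := by
    intro h
    exact ht ((isAlgebraic_algebraMap_iff (algebraMap k F).injective).1 h)
  have hz' : (z : F) ≠ 0 := fun h => hz (Subtype.ext h)
  refine ⟨t, (z : F) ^ 12, t.2, pow_mem z.2 12, htF, pow_ne_zero _ hz', ?_, ?_⟩
  · intro P V hP c hc
    have hx : t - algebraMap ℂ k c ≠ 0 := by
      intro h
      apply ht
      rw [sub_eq_zero.1 h]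
      exact isAlgebraic_algebraMap c
    have hxF : algebraMap k F (t - algebraMap ℂ k c) = (t : F) - algebraMap ℂ F c := by
      rw [map_sub, ← IsScalarTower.algebraMap_apply]
      rfl
    have hc' : V.v (algebraMap k F (t - algebraMap ℂ k c)) ≠ 0 := by
      rw [hxF]
      exact hc
    obtain ⟨W, a, ha, hW⟩ := exists_res (algebraMap k F) V (t - algebraMap ℂ k c) hx hc'
    have hCs : Cst (P.comap (algebraMap k F)) := by
      intro d
      rw [ValuationSubring.mem_comap, ← IsScalarTower.algebraMap_apply]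
      exact hP d
    have h1 := hW _ hx
    have h2 := hW _ hz
    have hAt : At W t c := by
      intro h
      rw [h1] at hc'
      exact hc' (by rw [h, mul_zero])
    have h3 := hreg _ W hCs c hAt
    have h4 : V.v ((z : F) ^ 12) = 12 * (a * W.v z) := by
      rw [v_pow V hz' 12, ← h2]
      rfl
    rw [h4, ← hxF, h1]
    nlinarith [mul_le_mul ha h3 zero_le_one (by linarith : (0 : ℤ) ≤ a)]
  · intro Q W hQ c hc
    have h1 := hreg Q W hQ c hc
    have h2 : (⟨(z : F) ^ 12, pow_mem z.2 12⟩ : k) = z ^ 12 := Subtype.ext rfl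
    have h3 : (⟨(t : F), t.2⟩ : k) = t := rfl
    rw [h2, h3, v_pow W hz 12]
    push_cast
    linarith

private theorem lf_frm_eq {F : Type} [Field F] [Algebra ℂ F] {k : IntermediateField ℂ F}
    {ρ ρ' : ℕ} (x : F) (hxk : ℂ⟮x⟯ = k) (hρ : ρ ≤ ρ') (h : ∃ y : F, Frm ℂ⟮x⟯ ρ' x y) :
    ∃ t h : F, Frm k ρ t h := by
  subst hxk
  obtain ⟨y, hy⟩ := h
  exact ⟨x, y, hy.mono hρ⟩

private theorem lf_branch {F : Type} [Field F] [Algebra ℂ F] (hF : Crv F)
    {k : IntermediateField ℂ F} [Algebra.IsAlgebraic k F] {r : ℕ} (e w : Fin r → ℕ) (ρ : ℕ)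
    (hρ : ρ ≤ 12) (h1 : ∀ j, 12 ≤ e j * (12 - w j)) (h2 : ∀ j, w j + ρ ≤ 12)
    (h3 : ∑ j, w j = 24) (hb : Branch k e) : ∃ t h : F, Frm k ρ t h := by
  have hbot : k ≠ ⊥ := by
    obtain ⟨x, a, hx, -⟩ := hb
    have ht := transcendental_of_adjoin hF k x hx
    intro h
    have hm : x ∈ ℂ⟮x⟯ := IntermediateField.mem_adjoin_simple_self ℂ x
    rw [hx, h, IntermediateField.mem_bot] at hm
    obtain ⟨c, hc⟩ := hm
    apply ht
    rw [← hc]
    exact isAlgebraic_algebraMap c
  obtain ⟨x, hx, T, w', hw⟩ := wts_of_branch hbot e w ρ hρ h1 h2 h3 hb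
  exact lf_frm_eq x hx le_rfl (frm_of_wts x (transcendental_of_adjoin hF k x hx) hw)

theorem exists_frm {F : Type} [Field F] [Algebra ℂ F] (hF : Crv F) (hrat : ¬ Rational F)
    {Γ : Type} [Group Γ] [Finite Γ] (φ : Γ →* (F ≃ₐ[ℂ] F)) (k : IntermediateField ℂ F)
    (hk : ∀ y : F, y ∈ k ↔ ∀ γ, φ γ y = y) (ρ : ℕ) (hρ : Weight k ρ) :
    ∃ t h : F, Frm k ρ t h := by
  have : Algebra.IsAlgebraic k F := isAlgebraic_of_fixed φ k hk
  rcases hρ with hρ | ⟨hρ, hb⟩ | ⟨hρ, hb⟩ | ⟨hρ, hb⟩ | ⟨hρ, hnr⟩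
  · by_cases hr : Rational k
    · obtain ⟨t, ht⟩ := hr
      have hx : ℂ⟮(t : F)⟯ = k := by
        have h1 : IntermediateField.lift (ℂ⟮t⟯ : IntermediateField ℂ k) = k := by
          rw [ht, IntermediateField.lift_top]
        rwa [IntermediateField.lift_adjoin_simple] at h1
      have htr := transcendental_of_adjoin hF k (t : F) hx
      obtain ⟨T, w, w₀, h⟩ := exists_wts hF hrat φ (t : F) htr (by rw [hx]; exact hk)
      exact lf_frm_eq (t : F) hx hρ (frm_of_wts (t : F) htr h)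
    · obtain ⟨t, h, H⟩ := frm_of_not_rational hF k hr
      exact ⟨t, h, H.mono (hρ.trans (by norm_num))⟩
  · refine lf_branch hF ![2, 4, 4] ![6, 9, 9] ρ (by omega) ?_ ?_ ?_ hb
    · decide
    · intro j
      fin_cases j <;> simp <;> omega
    · decide
  · refine lf_branch hF ![3, 3, 3] ![8, 8, 8] ρ (by omega) ?_ ?_ ?_ hb
    · decide
    · intro j
      fin_cases j <;> simp <;> omega
    · decide
  · refine lf_branch hF ![2, 2, 2, 2] ![6, 6, 6, 6] ρ (by omega) ?_ ?_ ?_ hb
    · decide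
    · intro j
      fin_cases j <;> simp <;> omega
    · decide
  · obtain ⟨t, h, H⟩ := frm_of_not_rational hF k hnr
    exact ⟨t, h, H.mono hρ⟩

end PQ
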