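import Pool.Agent.Lib.MP_23b606_ag.PQ.Ded

/-!
PQ/LocA: extensions of a discrete valuation ring to a finite extension.

Proof: `D = integralClosure R F` is a Dedekind domain with fraction field `F`
(`IsIntegralClosure.isDedekindDomain`; `R` is a discrete valuation ring, `dvr_of_nval`, with
fraction field `k`; `F / k` is separable as `k` has characteristic `0`). `D ⊆ P`, and `P ≠ ⊤` since
`algebraMap W.π⁻¹ ∉ P`. Use `ded`. The algebra structure of `F` over `R` is
`((algebraMap k F).comp R.subtype).toAlgebra` (or an existing instance).
-/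

set_option autoImplicit false

open T1

namespace PQ

/-- A root of a monic polynomial over `R` lies in the valuation rings over `R`. -/
private theorem loca_mem {k F : Type} [Field k] [Field F] [Algebra k F] {R : ValuationSubring k}
    [Algebra R F] (hR : ∀ r : R, algebraMap R F r = algebraMap k F r)
    (P : ValuationSubring F) (hP : P.comap (algebraMap k F) = R) (x : F) (hx : IsIntegral R x) :
    x ∈ P := by
  have hmem : ∀ r : R, algebraMap k F r ∈ P := by
    intro r
    have h1 : (r : k) ∈ P.comap (algebraMap k F) := by
      rw [hP]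
      exact r.2
    exact h1
  let φ : R →+* P := ((algebraMap k F).comp (algebraMap R k)).codRestrict P hmem
  have hφ : (algebraMap P F).comp φ = algebraMap R F := by
    ext r
    exact (hR r).symm
  obtain ⟨p, hp, hpx⟩ := hx
  have h2 : IsIntegral P x := by
    refine ⟨p.map φ, hp.map φ, ?_⟩
    rw [Polynomial.eval₂_map, hφ]
    exact hpx
  obtain ⟨y, hy⟩ := IsIntegrallyClosed.isIntegral_iff.1 h2
  rw [← hy]
  exact y.2

private theorem loca_main {k F : Type} [Field k] [CharZero k] [Field F] [Algebra k F]
    [FiniteDimensional k F] {R : ValuationSubring k} (W : NVal R) (P : ValuationSubring F)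
    (hP : P.comap (algebraMap k F) = R) : Nonempty (NVal P) ∧ ∀ u : F, u ∈ P →
    ∃ a s : F, (∀ P' : ValuationSubring F, P'.comap (algebraMap k F) = R → a ∈ P' ∧ s ∈ P') ∧
      P.valuation s = 1 ∧ s * u = a := by
  letI : Algebra R F := ((algebraMap k F).comp (algebraMap R k)).toAlgebra
  haveI : IsScalarTower R k F := IsScalarTower.of_algebraMap_eq (fun _ => rfl)
  haveI : IsDiscreteValuationRing R := dvr_of_nval W
  have hR : ∀ r : R, algebraMap R F r = algebraMap k F r := fun _ => rfl
  haveI : IsDedekindDomain (integralClosure R F) := integralClosure.isDedekindDomain R k F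
  haveI : IsFractionRing (integralClosure R F) F :=
    IsIntegralClosure.isFractionRing_of_finite_extension R k F (integralClosure R F)
  have hD : ∀ P' : ValuationSubring F, P'.comap (algebraMap k F) = R →
      ∀ d : integralClosure R F, algebraMap (integralClosure R F) F d ∈ P' :=
    fun P' hP' d => loca_mem hR P' hP' _ d.2
  have hT : P ≠ ⊤ := by
    rintro rfl
    have h1 : W.π⁻¹ ∈ (⊤ : ValuationSubring F).comap (algebraMap k F) := by
      show algebraMap k F W.π⁻¹ ∈ (⊤ : ValuationSubring F)
      exact ValuationSubring.mem_top _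
    rw [hP, W.mem _ (inv_ne_zero W.hπ), W.inv W.hπ, W.vπ] at h1
    omega
  obtain ⟨h1, h2⟩ := ded (D := integralClosure R F) P (hD P hP) hT
  refine ⟨h1, fun u hu => ?_⟩
  obtain ⟨a, s, h3, h4⟩ := h2 u hu
  exact ⟨_, _, fun P' hP' => ⟨hD P' hP' a, hD P' hP' s⟩, h3, h4⟩

theorem nval_over {k F : Type} [Field k] [CharZero k] [Field F] [Algebra k F]
    [FiniteDimensional k F] {R : ValuationSubring k} (W : NVal R) (P : ValuationSubring F)
    (hP : P.comap (algebraMap k F) = R) : Nonempty (NVal P) :=
  (loca_main W P hP).1

/-- The elements of `P` are fractions of elements which are integral over `R`, that is lie in all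
the valuation rings over `R`. -/
theorem frac_over {k F : Type} [Field k] [CharZero k] [Field F] [Algebra k F]
    [FiniteDimensional k F] {R : ValuationSubring k} (W : NVal R) (P : ValuationSubring F)
    (hP : P.comap (algebraMap k F) = R) (u : F) (hu : u ∈ P) :
    ∃ a s : F, (∀ P' : ValuationSubring F, P'.comap (algebraMap k F) = R → a ∈ P' ∧ s ∈ P') ∧
      P.valuation s = 1 ∧ s * u = a :=
  (loca_main W P hP).2 u hu

end PQ
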