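import Pool.Agent.Lib.MP_23b606_ag.PQ.In1
import Pool.Agent.Lib.MP_23b606_ag.PQ.LocA
import Pool.Agent.Lib.MP_23b606_ag.PQ.Res
import Pool.Agent.Lib.MP_23b606_ag.PQ.Sup

/-!
PQ/In2: a discrete valuation ring `O` of `K`, `L / K` Galois with group `G`: a valuation ring `O'` of `L`
over `O`, unramified or with a nontrivial element of `G` acting trivially on its residue field.

Proof: `O'` exists (`LocalSubring.exists_le_valuationSubring` for the image of `O` in `L`, or
`IsLocalRing.exists_factor_valuationRing`), `V'` by `nval_over`, `e ≥ 1` with `V' = e V` on `K` by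
`exists_res` (`O'.comap = O`; two normalised valuations with the same ring are equal: both are
determined by `O`). Suppose that no `g ≠ 1` satisfies the last condition. `S = integralClosure O L`,
`P = m_{O'} ∩ S`, `p` = the maximal ideal of `O`. If `g ∈ G` has `g s - s ∈ P` for all `s ∈ S` then for
`x = a / s ∈ O'` (`frac_over`, `s ∉ P`) `g s ∉ P` and
`g x - x = (s (g a - a) - a (g s - s)) / (s g s) ∈ m_{O'}`, so `g = 1`. By `not_le_sq` the uniformizer
`V.π` of `O` is not in `P^2`. If `e ≥ 2` then `V' (V.π) ≥ 2`; but `s ∈ S` with `V' s ≥ 2` is in `P^2`: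
`V'.π = a / t`, `t ∉ P`, `s t^2 = a^2 (s / V'.π^2)` with `s / V'.π^2 = b / t' ∈ O'`, so
`s t^2 t' = a^2 b ∈ P^2`, and `P^2` is primary to the maximal ideal `P`. So `e = 1`.
-/

set_option autoImplicit false

open T1

namespace PQ

/-- The elements of the maximal ideal. -/
private theorem in2_mem_max {L : Type} [Field L] {O' : ValuationSubring L} (V' : NVal O')
    (x : O') : x ∈ IsLocalRing.maximalIdeal O' ↔ (x : L) = 0 ∨ 0 < V'.v (x : L) := by
  rw [IsLocalRing.mem_maximalIdeal, mem_nonunits_iff]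
  by_cases hx : (x : L) = 0
  · refine ⟨fun _ => Or.inl hx, fun _ => ?_⟩
    have h0 : x = 0 := Subtype.ext hx
    rw [h0]
    exact not_isUnit_zero
  have h0 := (V'.mem _ hx).1 x.2
  constructor
  · intro h
    right
    by_contra hcon
    apply h
    have h1 : (x : L)⁻¹ ∈ O' := (V'.mem _ (inv_ne_zero hx)).2 (by rw [V'.inv hx]; omega)
    exact isUnit_iff_exists_inv.2 ⟨⟨_, h1⟩, Subtype.ext (mul_inv_cancel₀ hx)⟩
  · intro h hu
    have h := h.resolve_left hx
    obtain ⟨w, hw⟩ := isUnit_iff_exists_inv.1 hu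
    have hw' : (x : L) * (w : L) = 1 := congrArg Subtype.val hw
    have hw0 : (w : L) ≠ 0 := right_ne_zero_of_mul_eq_one hw'
    have h1 := V'.mul _ _ hx hw0
    rw [hw', V'.one] at h1
    have h3 := (V'.mem _ hw0).1 w.2
    omega

/-- An element which is integral over `O` lies in the valuation rings over `O`. -/
private theorem in2_int {K L : Type} [Field K] [Field L] [Algebra K L] {O : ValuationSubring K}
    {O' : ValuationSubring L} (h : ∀ x : K, x ∈ O → algebraMap K L x ∈ O') {x : L}
    (hx : IsIntegral O x) : x ∈ O' := by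
  obtain ⟨p, hp, hp'⟩ := hx
  let φ : O →+* O' := ((algebraMap K L).comp (algebraMap O K)).codRestrict O'.toSubring
    fun y => h y y.2
  have h1 : IsIntegral O' x := by
    refine ⟨p.map φ, hp.map φ, ?_⟩
    rw [Polynomial.eval₂_map]
    exact hp'
  obtain ⟨y, hy⟩ := IsIntegrallyClosed.isIntegral_iff.1 h1
  rw [← hy]
  exact y.2

/-- An ideal `P ^ 2`, `P` maximal, is primary. -/
private theorem in2_prim {S : Type} [CommRing S] {P : Ideal S} [P.IsMaximal] {s t : S}
    (ht : t ∉ P) (h : s * t ∈ P ^ 2) : s ∈ P ^ 2 := by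
  obtain ⟨c, hc⟩ := Ideal.IsMaximal.exists_inv ‹P.IsMaximal› ht
  obtain ⟨i, hi, hci⟩ := hc
  have h1 : i ^ 2 ∈ P ^ 2 := Ideal.pow_mem_pow hi 2
  have h2 : s = s * i ^ 2 + (s * t) * (2 * c - c ^ 2 * t) := by
    have h3 : i = 1 - c * t := by
      rw [← hci]
      ring
    rw [h3]
    ring
  rw [h2]
  exact (P ^ 2).add_mem ((P ^ 2).mul_mem_left _ h1) ((P ^ 2).mul_mem_right _ h)

theorem exists_inert {K L G : Type} [Field K] [Algebra ℂ K] [Field L] [Algebra K L]
    [FiniteDimensional K L] [Group G] [Finite G] [MulSemiringAction G L] [IsGaloisGroup G K L]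
    {O : ValuationSubring K} (V : NVal O) (hC : Cst O) :
    ∃ (O' : ValuationSubring L) (V' : NVal O') (e : ℤ), 1 ≤ e ∧ O'.comap (algebraMap K L) = O ∧
      (∀ x : K, x ≠ 0 → V'.v (algebraMap K L x) = e * V.v x) ∧
      (e = 1 ∨ ∃ g : G, g ≠ 1 ∧ ∀ x : L, x ∈ O' → g • x - x = 0 ∨ 0 < V'.v (g • x - x)) := by
  have hcz : CharZero K := charZero_of_injective_algebraMap (algebraMap ℂ K).injective
  -- the valuation ring
  obtain ⟨O', hO', hloc⟩ := IsLocalRing.exists_factor_valuationRing
    ((algebraMap K L).comp (algebraMap O K))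
  have hO'' : ∀ x : K, x ∈ O → algebraMap K L x ∈ O' := fun x hx => hO' ⟨x, hx⟩
  have hcomap : O'.comap (algebraMap K L) = O := by
    ext x
    rw [ValuationSubring.mem_comap]
    refine ⟨fun hx => ?_, fun hx => hO'' x hx⟩
    by_contra hcon
    have hx0 : x ≠ 0 := by
      rintro rfl
      exact hcon O.zero_mem
    have h1 : x⁻¹ ∈ O := (O.mem_or_inv_mem x).resolve_left hcon
    have h2 : IsUnit ((((algebraMap K L).comp (algebraMap O K)).codRestrict O'.toSubring hO')
        ⟨x⁻¹, h1⟩) := by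
      refine isUnit_iff_exists_inv.2 ⟨⟨algebraMap K L x, hx⟩, Subtype.ext ?_⟩
      change algebraMap K L x⁻¹ * algebraMap K L x = 1
      rw [← map_mul, inv_mul_cancel₀ hx0, map_one]
    have h3 : IsUnit (⟨x⁻¹, h1⟩ : O) := hloc.map_nonunit _ h2
    obtain ⟨w, hw⟩ := isUnit_iff_exists_inv.1 h3
    have hw' : x⁻¹ * (w : K) = 1 := congrArg Subtype.val hw
    apply hcon
    have h4 : x = (w : K) := by
      calc x = x * (x⁻¹ * (w : K)) := by rw [hw', mul_one]
        _ = w := by rw [← mul_assoc, mul_inv_cancel₀ hx0, one_mul]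
    rw [h4]
    exact w.2
  obtain ⟨V'⟩ := nval_over V O' hcomap
  have hinj : ∀ x : K, x ≠ 0 → algebraMap K L x ≠ 0 := fun x hx => (map_ne_zero _).2 hx
  -- the ramification index
  obtain ⟨e, he⟩ : ∃ e : ℤ, e = V'.v (algebraMap K L V.π) := ⟨_, rfl⟩
  have hπO : V.π ∈ O := (V.mem _ V.hπ).2 (by rw [V.vπ]; exact zero_le_one)
  have he1 : 1 ≤ e := by
    have h1 : 0 ≤ e := by
      rw [he]
      exact (V'.mem _ (hinj _ V.hπ)).1 (hO'' _ hπO)
    by_contra hcon
    have h2 : e = 0 := by omega
    have h3 : algebraMap K L V.π⁻¹ ∈ O' := by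
      rw [map_inv₀]
      exact (V'.mem _ (inv_ne_zero (hinj _ V.hπ))).2 (by
        rw [V'.inv (hinj _ V.hπ), ← he, h2, neg_zero])
    have h4 : V.π⁻¹ ∈ O := (SetLike.ext_iff.1 hcomap V.π⁻¹).1 h3
    have h5 := (V.mem _ (inv_ne_zero V.hπ)).1 h4
    rw [V.inv V.hπ, V.vπ] at h5
    omega
  have hev : ∀ x : K, x ≠ 0 → V'.v (algebraMap K L x) = e * V.v x := by
    intro x hx
    obtain ⟨u, u0, u1, u2, u3, hu⟩ := V.unit hx
    have h1 := (V'.mem _ (hinj _ u0)).1 (hO'' _ u1)
    have h2 := (V'.mem _ (hinj _ (inv_ne_zero u0))).1 (hO'' _ u2)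
    rw [map_inv₀, V'.inv (hinj _ u0)] at h2
    have h3 : V'.v (algebraMap K L x) = V'.v (algebraMap K L (V.π ^ V.v x * u)) := by rw [← hu]
    rw [h3, map_mul, map_zpow₀, V'.mul _ _ (zpow_ne_zero _ (hinj _ V.hπ)) (hinj _ u0),
      V'.zpow (hinj _ V.hπ), ← he, le_antisymm (by omega) h1, add_zero, mul_comm]
  by_cases hI : ∃ g : G, g ≠ 1 ∧ ∀ x : L, x ∈ O' → g • x - x = 0 ∨ 0 < V'.v (g • x - x)
  · exact ⟨O', V', e, he1, hcomap, hev, Or.inr hI⟩
  refine ⟨O', V', e, he1, hcomap, hev, Or.inl ?_⟩
  -- the integral closure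
  have hdvr : IsDiscreteValuationRing O := dvr_of_nval V
  have hgal : IsGalois K L := IsGaloisGroup.isGalois G K L
  have hsm : SMulCommClass G O L := ⟨fun g a b => by
    rw [Algebra.smul_def, Algebra.smul_def, smul_mul']
    congr 1
    have h1 : algebraMap O L a = algebraMap K L (algebraMap O K a) := rfl
    rw [h1, smul_algebraMap]⟩
  let S := integralClosure O L
  have hfr : IsFractionRing S L := IsIntegralClosure.isFractionRing_of_finite_extension O K L S
  have hded : IsDedekindDomain S := IsIntegralClosure.isDedekindDomain O K L S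
  have hfin : Module.Finite O S := IsIntegralClosure.finite O K L S
  have hint : Algebra.IsIntegral O S := IsIntegralClosure.isIntegral_algebra O L
  have hGG : IsGaloisGroup G O S := IsGaloisGroup.of_isFractionRing G O S K L
  have hfs : FaithfulSMul O S := by
    rw [faithfulSMul_iff_algebraMap_injective]
    intro a b hab
    have h1 : algebraMap K L (a : K) = algebraMap K L (b : K) := congrArg Subtype.val hab
    exact Subtype.ext ((algebraMap K L).injective h1)
  have hSO : ∀ s : S, (s : L) ∈ O' := fun s => in2_int hO'' s.2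
  let ι : S →+* O' := (algebraMap S L).codRestrict O'.toSubring hSO
  let P : Ideal S := (IsLocalRing.maximalIdeal O').comap ι
  have hPmem : ∀ s : S, s ∈ P ↔ (s : L) = 0 ∨ 0 < V'.v (s : L) := fun s =>
    in2_mem_max V' (ι s)
  have hPprime : P.IsPrime := Ideal.IsPrime.comap ι
  have hover : IsLocalRing.maximalIdeal O = P.under O := by
    ext a
    change a ∈ IsLocalRing.maximalIdeal O ↔ algebraMap O S a ∈ P
    rw [in2_mem_max V a, hPmem]
    have h1 : ((algebraMap O S a : S) : L) = algebraMap K L (a : K) := rfl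
    rw [h1]
    by_cases ha : (a : K) = 0
    · rw [ha, map_zero]
      exact ⟨fun _ => Or.inl rfl, fun _ => Or.inl rfl⟩
    · rw [hev _ ha]
      have h2 := hinj _ ha
      constructor
      · intro h
        exact Or.inr (mul_pos (by omega) (h.resolve_left ha))
      · intro h
        have h3 := h.resolve_left h2
        exact Or.inr ((mul_pos_iff_of_pos_left (by omega)).1 h3)
  have hlies : P.LiesOver (IsLocalRing.maximalIdeal O) := ⟨hover⟩
  have hPmax : P.IsMaximal := by
    refine Ideal.isMaximal_of_isIntegral_of_isMaximal_comap (R := O) P ?_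
    change (P.under O).IsMaximal
    rw [← hover]
    exact IsLocalRing.maximalIdeal.isMaximal O
  have hp0 : IsLocalRing.maximalIdeal O ≠ ⊥ := by
    intro h
    have h1 : (⟨V.π, hπO⟩ : O) ∈ IsLocalRing.maximalIdeal O := by
      rw [in2_mem_max V]
      exact Or.inr (by
        change 0 < V.v V.π
        rw [V.vπ]
        exact one_pos)
    rw [h, Ideal.mem_bot] at h1
    exact V.hπ (congrArg Subtype.val h1)
  have hchar : CharZero (O ⧸ IsLocalRing.maximalIdeal O) := by
    have hnt : Nontrivial (O ⧸ IsLocalRing.maximalIdeal O) :=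
      Ideal.Quotient.nontrivial_iff.2 (IsLocalRing.maximalIdeal.isMaximal O).ne_top
    exact charZero_of_injective_ringHom (f := (Ideal.Quotient.mk (IsLocalRing.maximalIdeal O)).comp
      ((algebraMap ℂ K).codRestrict O.toSubring hC)) (RingHom.injective _)
  have htop : O' ≠ ⊤ := by
    intro h
    have h1 : ∀ x : L, x ∈ O' := by
      intro x
      rw [h]
      exact ValuationSubring.mem_top x
    have h2 := (V'.mem _ (inv_ne_zero V'.hπ)).1 (h1 _)
    rw [V'.inv V'.hπ, V'.vπ] at h2
    omega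
  obtain ⟨-, hfrac⟩ := ded (D := S) (F := L) O' hSO htop
  have hfrac' : ∀ u : L, u ∈ O' → ∃ a s : S, s ∉ P ∧ (s : L) ≠ 0 ∧ V'.v (s : L) = 0 ∧
      (s : L) * u = (a : L) := by
    intro u hu
    obtain ⟨a, s, h1, h2⟩ := hfrac u hu
    have hs0 : (s : L) ≠ 0 := by
      intro h
      have h3 : algebraMap S L s = 0 := h
      rw [h3, map_zero] at h1
      exact zero_ne_one h1
    have hs1 : V'.v (s : L) = 0 := (valuation_eq_one_iff V' hs0).1 h1
    refine ⟨a, s, ?_, hs0, hs1, h2⟩
    rw [hPmem]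
    rintro (h3 | h3)
    · exact hs0 h3
    · omega
  -- the inertia group is trivial
  have hIn : ∀ g : G, (∀ x : S, g • x - x ∈ P) → g = 1 := by
    intro g hg
    by_contra hg1
    apply hI
    refine ⟨g, hg1, fun x hx => ?_⟩
    obtain ⟨a, s, -, hs0, hs1, hsx⟩ := hfrac' x hx
    have hgs : g • (s : L) - (s : L) = 0 ∨ 0 < V'.v (g • (s : L) - (s : L)) := (hPmem _).1 (hg s)
    have hga : g • (a : L) - (a : L) = 0 ∨ 0 < V'.v (g • (a : L) - (a : L)) := (hPmem _).1 (hg a)
    have h1 := v_add_eq V' (x := (s : L)) (y := g • (s : L) - (s : L)) hs0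
      (by rw [hs1]; exact hgs)
    rw [add_sub_cancel] at h1
    obtain ⟨hgs0, hgs1⟩ := h1
    rw [hs1] at hgs1
    have hx' : x = (a : L) / (s : L) := by
      rw [← hsx, mul_div_cancel_left₀ _ hs0]
    have hgx : g • x = g • (a : L) / g • (s : L) := by
      rw [hx', smul_div₀']
    have hkey : g • x - x = ((s : L) * (g • (a : L) - (a : L)) +
        (-(a : L)) * (g • (s : L) - (s : L))) / ((s : L) * g • (s : L)) := by
      rw [hgx, hx']
      field_simp
      ring
    have hden0 : (s : L) * g • (s : L) ≠ 0 := mul_ne_zero hs0 hgs0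
    have hnum : (s : L) * (g • (a : L) - (a : L)) + (-(a : L)) * (g • (s : L) - (s : L)) = 0 ∨
        0 < V'.v ((s : L) * (g • (a : L) - (a : L)) + (-(a : L)) * (g • (s : L) - (s : L))) := by
      refine V'.add ?_ ?_
      · rcases hga with h2 | h2
        · left
          rw [h2, mul_zero]
        · by_cases h3 : g • (a : L) - (a : L) = 0
          · left
            rw [h3, mul_zero]
          · right
            rw [V'.mul _ _ hs0 h3, hs1]
            omega
      · by_cases ha0 : (a : L) = 0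
        · left
          rw [ha0, neg_zero, zero_mul]
        by_cases h3 : g • (s : L) - (s : L) = 0
        · left
          rw [h3, mul_zero]
        · right
          have h4 := (V'.mem _ ha0).1 (hSO a)
          have h5 := hgs.resolve_left h3
          rw [V'.mul _ _ (neg_ne_zero.2 ha0) h3, v_neg V' ha0]
          omega
    rw [hkey]
    rcases hnum with h2 | h2
    · left
      rw [h2, zero_div]
    · by_cases h3 : (s : L) * (g • (a : L) - (a : L)) + (-(a : L)) * (g • (s : L) - (s : L)) = 0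
      · left
        rw [h3, zero_div]
      · right
        rw [v_div V' h3 hden0, V'.mul _ _ hs0 hgs0, hs1, hgs1]
        omega
  -- the elements of value at least 2 are in the square of `P`
  have hsq : ∀ s : S, (s : L) ≠ 0 → 2 ≤ V'.v (s : L) → s ∈ P ^ 2 := by
    intro s hs0 hs2
    have hπ' : V'.π ∈ O' := (V'.mem _ V'.hπ).2 (by rw [V'.vπ]; exact zero_le_one)
    obtain ⟨a, t, htP, ht0, ht1, hta⟩ := hfrac' V'.π hπ'
    have hd0 : (s : L) / V'.π ^ 2 ≠ 0 := div_ne_zero hs0 (pow_ne_zero 2 V'.hπ)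
    have hd : (s : L) / V'.π ^ 2 ∈ O' := by
      refine (V'.mem _ hd0).2 ?_
      rw [v_div V' hs0 (pow_ne_zero 2 V'.hπ), v_pow V' V'.hπ, V'.vπ]
      push_cast
      omega
    obtain ⟨b, t', htP', ht0', ht1', htb⟩ := hfrac' _ hd
    have haP : a ∈ P := by
      rw [hPmem, ← hta]
      right
      rw [V'.mul _ _ ht0 V'.hπ, ht1, V'.vπ]
      omega
    have hprod : s * (t ^ 2 * t') = a ^ 2 * b := by
      refine Subtype.ext ?_
      change (s : L) * ((t : L) ^ 2 * (t' : L)) = (a : L) ^ 2 * (b : L)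
      rw [← hta, ← htb]
      have hπ0 := V'.hπ
      field_simp
    refine in2_prim (t := t ^ 2 * t') ?_ ?_
    · intro h
      rcases hPprime.mem_or_mem h with h1 | h1
      · exact htP (hPprime.mem_of_pow_mem 2 h1)
      · exact htP' h1
    · rw [hprod]
      exact (P ^ 2).mul_mem_right _ (Ideal.pow_mem_pow haP 2)
  -- conclusion
  by_contra hne
  have he2 : 2 ≤ e := by omega
  have hnot := not_le_sq (IsLocalRing.maximalIdeal O) hp0 P hchar hIn
  apply hnot
  rw [Ideal.map_le_iff_le_comap]
  intro y hy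
  rw [Ideal.mem_comap]
  rw [in2_mem_max V] at hy
  by_cases hy0 : (y : K) = 0
  · have h1 : y = 0 := Subtype.ext hy0
    rw [h1, map_zero]
    exact (P ^ 2).zero_mem
  · have hy1 := hy.resolve_left hy0
    refine hsq _ ?_ ?_
    · change algebraMap K L (y : K) ≠ 0
      exact hinj _ hy0
    · change 2 ≤ V'.v (algebraMap K L (y : K))
      rw [hev _ hy0]
      nlinarith

end PQ
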