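import Pool.Agent.Lib.MP_23b606_ag.PQ.Nv

/-!
PQ/Ded: the valuation rings of the fraction field `F` of a Dedekind domain `D` which contain `D`.

Proof: `m = m_P ∩ D` (`{d | P.valuation d < 1}`) is a prime ideal, `m ≠ 0` as `P ≠ ⊤`.
`Localization.AtPrime m` (or the valuation ring of `IsDedekindDomain.HeightOneSpectrum.valuation`
for `m`) is a discrete valuation ring `D_m ⊆ P`. For `u ∈ F` one has `u ∈ D_m` or `u⁻¹ = a / s` with
`a ∈ m`, `s ∉ m`; in the second case `P.valuation u⁻¹ < 1`, so `u ∉ P`. Hence `P = D_m`. The second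
claim says `u = a / s`, `s ∉ m`. For the first take for `v` minus the exponent of the `m`-adic
valuation of `F`, `π` = a uniformizer.
-/

set_option autoImplicit false

open T1

namespace PQ

section ded

variable {D F : Type} [CommRing D] [IsDedekindDomain D] [Field F] [Algebra D F]
  [IsFractionRing D F] (P : ValuationSubring F) (hD : ∀ d : D, algebraMap D F d ∈ P)

include hD

/-- the prime ideal of `D` below `P` -/
private def dedHom : D →+* P where
  toFun d := ⟨algebraMap D F d, hD d⟩
  map_one' := Subtype.ext (map_one _)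
  map_mul' a b := Subtype.ext (map_mul _ a b)
  map_zero' := Subtype.ext (map_zero _)
  map_add' a b := Subtype.ext (map_add _ a b)

private theorem ded_prime : ((IsLocalRing.maximalIdeal P).comap (dedHom P hD)).IsPrime :=
  Ideal.comap_isPrime _ _

private theorem ded_val {d : D} (h : d ∉ (IsLocalRing.maximalIdeal P).comap (dedHom P hD)) :
    P.valuation (algebraMap D F d) = 1 := by
  rw [Ideal.mem_comap, IsLocalRing.mem_maximalIdeal, mem_nonunits_iff, not_not] at h
  exact (P.valuation_eq_one_iff (dedHom P hD d)).1 h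

private theorem ded_inv {d : D} (h : d ∉ (IsLocalRing.maximalIdeal P).comap (dedHom P hD)) :
    (algebraMap D F d)⁻¹ ∈ P := by
  rw [← P.valuation_le_one_iff, map_inv₀, ded_val P hD h, inv_one]

private theorem ded_ne (hP : P ≠ ⊤) : (IsLocalRing.maximalIdeal P).comap (dedHom P hD) ≠ ⊥ := by
  intro h
  apply hP
  rw [eq_top_iff]
  intro x _
  obtain ⟨a, s, hs, rfl⟩ := IsFractionRing.div_surjective (A := D) x
  rw [div_eq_mul_inv]
  refine P.mul_mem _ _ (hD a) (ded_inv P hD ?_)
  rw [h, Ideal.mem_bot]
  exact nonZeroDivisors.ne_zero hs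

end ded

theorem ded {D F : Type} [CommRing D] [IsDedekindDomain D] [Field F] [Algebra D F]
    [IsFractionRing D F] (P : ValuationSubring F) (hD : ∀ d : D, algebraMap D F d ∈ P)
    (hP : P ≠ ⊤) : Nonempty (NVal P) ∧ ∀ u : F, u ∈ P →
      ∃ a s : D, P.valuation (algebraMap D F s) = 1 ∧ algebraMap D F s * u = algebraMap D F a := by
  let w : IsDedekindDomain.HeightOneSpectrum D :=
    ⟨(IsLocalRing.maximalIdeal P).comap (dedHom P hD), ded_prime P hD, ded_ne P hD hP⟩
  have hle : w.valuationSubringAtPrime F ≤ P := by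
    rintro x ⟨a, s, hs, rfl⟩
    exact P.mul_mem _ _ (hD a) (ded_inv P hD hs)
  have heq : P = (w.valuation F).valuationSubring := by
    rw [← IsDedekindDomain.HeightOneSpectrum.valuationSubringAtPrime_eq_valuationSubring]
    exact (ValuationSubring.eq_of_le_of_ne_top _ hle hP).symm
  have hmem : ∀ x : F, x ∈ P ↔ w.valuation F x ≤ 1 := by
    intro x
    conv_lhs => rw [heq]
    exact Valuation.mem_valuationSubring_iff _ _
  constructor
  · obtain ⟨π, hπ⟩ := w.valuation_exists_uniformizer F
    have h0 : π ≠ 0 := by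
      rintro rfl
      rw [map_zero] at hπ
      exact WithZero.exp_ne_zero hπ.symm
    refine ⟨⟨π, fun x => -WithZero.log (w.valuation F x), h0, ?_, ?_, ?_⟩⟩
    · show -WithZero.log (w.valuation F π) = 1
      rw [hπ, WithZero.log_exp, neg_neg]
    · intro x y hx hy
      show -WithZero.log (w.valuation F (x * y)) = _
      rw [map_mul, WithZero.log_mul ((Valuation.ne_zero_iff _).2 hx)
        ((Valuation.ne_zero_iff _).2 hy), neg_add]
    · intro x hx
      show x ∈ P ↔ 0 ≤ -WithZero.log (w.valuation F x)
      rw [hmem, ← WithZero.log_le_log ((Valuation.ne_zero_iff _).2 hx) one_ne_zero,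
        WithZero.log_one]
      omega
  · intro u hu
    obtain ⟨n, d, hd⟩ := w.exists_primeCompl_mul_eq_of_integer u ((hmem u).1 hu)
    exact ⟨n, d, ded_val P hD d.2, by rw [mul_comm]; exact hd⟩

end PQ
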