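import Pool.Agent.Lib.MP_23b606_ag.PQ.Main
import Pool.Agent.Lib.MP_23b606_ag.T1.Jac

/-!
# PQ/Fin: quotients of products of curves, the final statement
-/

set_option autoImplicit false

open IntermediateField

namespace PQ

/-- `L` is the field of rational functions on a product of curves over `ℂ` with the fields of
rational functions `F i`. -/
structure CurveProduct {L : Type} [Field L] [Algebra ℂ L] {n : ℕ}
    (F : Fin n → IntermediateField ℂ L) : Prop where
  tr : ∀ i, Algebra.trdeg ℂ (F i) = 1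
  fg : ∀ i, (F i).FG
  sup : ⨆ i, F i = ⊤
  dim : Algebra.trdeg ℂ L = n

/-- The curves `F i` for which `g` is not the identity on `F i`. -/
def moved {L : Type} [Field L] [Algebra ℂ L] {n : ℕ} (F : Fin n → IntermediateField ℂ L)
    (g : L ≃ₐ[ℂ] L) : Set (Fin n) := {i | ∃ x ∈ F i, g x ≠ x}

/-- The subfield of the elements of `F` which are fixed by `G`. -/
noncomputable def inv {L : Type} [Field L] [Algebra ℂ L] (G : Subgroup (L ≃ₐ[ℂ] L))
    (F : IntermediateField ℂ L) : IntermediateField ℂ F := (fixedField G).comap F.val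

open Classical in
/-- The group `G` acts on every curve `F i`, the weight of `F i` over its quotient by `G` is at least
`ρ i`, and every `g ≠ 1` of `G` moves curves of total weight at least `12`. -/
structure Weighted {L : Type} [Field L] [Algebra ℂ L] {n : ℕ} (F : Fin n → IntermediateField ℂ L)
    (G : Subgroup (L ≃ₐ[ℂ] L)) (ρ : Fin n → ℕ) : Prop where
  stable : ∀ g ∈ G, ∀ i, ∀ x ∈ F i, g x ∈ F i
  weight : ∀ i, Weight (inv G (F i)) (ρ i)
  moves : ∀ g ∈ G, g ≠ 1 → 12 ≤ ∑ i with i ∈ moved F g, ρ i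

/-- `P_m ≥ 1`: there is a nonzero `m`-canonical form which is regular at all divisorial valuation
rings. -/
def Plurigenus (K : Type) [Field K] [Algebra ℂ K] (n m : ℕ) : Prop :=
  ∃ (x : Fin n → K) (g : K), (∃ D, T1.jac D x ≠ 0) ∧ g ≠ 0 ∧
    ∀ O : ValuationSubring K, T1.IsDiv n O → T1.RegularAt O x m g

theorem fin {L : Type} [Field L] [Algebra ℂ L] {n : ℕ} (F : Fin n → IntermediateField ℂ L)
    (hF : CurveProduct F) (G : Subgroup (L ≃ₐ[ℂ] L)) [Finite G] (ρ : Fin n → ℕ)
    (hG : Weighted F G ρ) :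
    ((∃ i, Rational (F i)) ∧ T1.Uniruled (fixedField G)) ∨
      ((∀ i, ¬ Rational (F i)) ∧ Plurigenus (fixedField G) n 12) := by
  classical
  have hw : ∀ g ∈ G, g ≠ 1 → 12 ≤ ∑ i with ∃ x ∈ F i, g x ≠ x, ρ i := by
    intro g hg h1
    refine (hG.moves g hg h1).trans (le_of_eq ?_)
    refine Finset.sum_congr ?_ fun _ _ => rfl
    ext i
    simp [moved]
  rcases main F hF.tr hF.fg hF.sup hF.dim G hG.stable ρ hG.weight hw with h | ⟨h, x, g, hx, hg, hO⟩
  · exact Or.inl h
  · refine Or.inr ⟨h, x, g, T1.exists_jac_ne_zero x hx, hg, fun O hdiv => ?_⟩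
    obtain ⟨a, c, j, ha, hc, hW, hgc⟩ := hO O hdiv
    exact ⟨a, c, j, ha, hc, T1.jac_eq_of_W a x j hW, hgc⟩

end PQ
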