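import Mathlib

/-!
PQ/Ar: arithmetic of orbifold points.

`n i ≤ m (1 - 1 / E i)`, `∑ n i ≥ 2 m`. For `E = 1, 2, 3, 4, 5, ≥ 6` the number `f(E) = 0, 6, 8, 9, 9, 10`
satisfies `f ≤ 10` and `E (12 - f(E)) ≥ 12`. Claim: `∑ f(E i) ≥ 24`; then lower the `f(E i)` to get the
sum `24` (lowering `w i` keeps both inequalities).

Let `I = {i | E i ≥ 2}`; `n i ≤ 0` outside `I` and `n i < m` everywhere, so `|I| ≥ 3`. If `|I| ≥ 4` the
sum of the `f` is at least `24`. If `|I| = 3` and all `E ≥ 3`: at least `24`. If two of them are `2`: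
`n i ≤ m / 2` twice and the third `< m`, contradiction. If exactly one is `2`, the others `≥ 3`: if one
of the others is `3`: `1/2 + 2/3 + 1 - 1/E ≥ 2`, so `E ≥ 6` and `6 + 8 + 10 = 24`; otherwise both are
`≥ 4` and `6 + 9 + 9 = 24`.
-/

set_option autoImplicit false

namespace PQ

private theorem ar_lower {ι : Type} [Fintype ι] (k : ℕ) : ∀ f : ι → ℕ, ∑ i, f i = 24 + k →
    ∃ w : ι → ℕ, (∀ i, w i ≤ f i) ∧ ∑ i, w i = 24 := by
  classical
  induction k with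
  | zero => exact fun f hf => ⟨f, fun _ => le_rfl, hf⟩
  | succ k ih =>
    intro f hf
    obtain ⟨i, hi⟩ : ∃ i, f i ≠ 0 := by
      by_contra hcon
      push Not at hcon
      rw [Finset.sum_eq_zero fun i _ => hcon i] at hf
      omega
    have h1 : ∑ j, Function.update f i (f i - 1) j + 1 = ∑ j, f j := by
      rw [Finset.sum_update_of_mem (Finset.mem_univ i), ← Finset.add_sum_erase _ _
        (Finset.mem_univ i), Finset.sdiff_singleton_eq_erase]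
      omega
    obtain ⟨w, hw, hs⟩ := ih (Function.update f i (f i - 1)) (by omega)
    refine ⟨w, fun j => (hw j).trans ?_, hs⟩
    rcases eq_or_ne j i with rfl | hj
    · rw [Function.update_self]
      exact Nat.sub_le _ _
    · rw [Function.update_of_ne hj]

/-- The weight of an orbifold point of order `E`. -/
private def arF (E : ℤ) : ℕ :=
  if E ≤ 1 then 0 else if E = 2 then 6 else if E = 3 then 8 else if E ≤ 5 then 9 else 10

private theorem arF_le (E : ℤ) : arF E ≤ 10 := by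
  unfold arF
  split_ifs <;> omega

private theorem arF_mul (E : ℤ) (hE : 1 ≤ E) : 12 ≤ E * (12 - (arF E : ℤ)) := by
  unfold arF
  split_ifs with h1 h2 h3 h4
  · push_cast
    omega
  · subst h2
    norm_num
  · subst h3
    norm_num
  · push_cast
    omega
  · push_cast
    omega

private theorem arF_cases (E m n : ℤ) (hm : 1 ≤ m) (hE : 2 ≤ E) (h : n * E ≤ m * (E - 1)) :
    (arF E = 6 ∧ 2 * n ≤ m) ∨ (arF E = 8 ∧ 3 * n ≤ 2 * m) ∨ (arF E = 9 ∧ 5 * n ≤ 4 * m) ∨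
      (arF E = 10 ∧ n ≤ m - 1) := by
  have hlt : n ≤ m - 1 := by
    by_contra hcon
    push Not at hcon
    have h1 : m * E ≤ n * E := mul_le_mul_of_nonneg_right (by omega) (by omega)
    have h2 : m * (E - 1) = m * E - m := by ring
    omega
  unfold arF
  split_ifs with h1 h2 h3 h4
  · omega
  · subst h2
    left
    omega
  · subst h3
    right
    left
    omega
  · right
    right
    left
    refine ⟨rfl, ?_⟩
    have h5 : E = 4 ∨ E = 5 := by omega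
    rcases h5 with rfl | rfl
    · omega
    · omega
  · right
    right
    right
    exact ⟨rfl, hlt⟩

private theorem ar_three (f₁ f₂ f₃ : ℕ) (m n₁ n₂ n₃ : ℤ) (hm : 1 ≤ m)
    (h1 : (f₁ = 6 ∧ 2 * n₁ ≤ m) ∨ (f₁ = 8 ∧ 3 * n₁ ≤ 2 * m) ∨ (f₁ = 9 ∧ 5 * n₁ ≤ 4 * m) ∨
      (f₁ = 10 ∧ n₁ ≤ m - 1))
    (h2 : (f₂ = 6 ∧ 2 * n₂ ≤ m) ∨ (f₂ = 8 ∧ 3 * n₂ ≤ 2 * m) ∨ (f₂ = 9 ∧ 5 * n₂ ≤ 4 * m) ∨
      (f₂ = 10 ∧ n₂ ≤ m - 1))
    (h3 : (f₃ = 6 ∧ 2 * n₃ ≤ m) ∨ (f₃ = 8 ∧ 3 * n₃ ≤ 2 * m) ∨ (f₃ = 9 ∧ 5 * n₃ ≤ 4 * m) ∨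
      (f₃ = 10 ∧ n₃ ≤ m - 1)) (h : 2 * m ≤ n₁ + n₂ + n₃) : 24 ≤ f₁ + f₂ + f₃ := by
  rcases h1 with ⟨h1, h1'⟩ | ⟨h1, h1'⟩ | ⟨h1, h1'⟩ | ⟨h1, h1'⟩ <;>
    rcases h2 with ⟨h2, h2'⟩ | ⟨h2, h2'⟩ | ⟨h2, h2'⟩ | ⟨h2, h2'⟩ <;>
      rcases h3 with ⟨h3, h3'⟩ | ⟨h3, h3'⟩ | ⟨h3, h3'⟩ | ⟨h3, h3'⟩ <;> omega

theorem exists_w {ι : Type} [Fintype ι] (m : ℤ) (hm : 1 ≤ m) (n E : ι → ℤ)
    (hE : ∀ i, 1 ≤ E i) (h1 : ∀ i, n i * E i ≤ m * (E i - 1)) (h2 : 2 * m ≤ ∑ i, n i) :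
    ∃ w : ι → ℕ, (∀ i, w i ≤ 10) ∧ (∀ i, 12 ≤ E i * (12 - (w i : ℤ))) ∧ ∑ i, w i = 24 := by
  classical
  set I := Finset.univ.filter fun i => 2 ≤ E i with hI
  have hIm : ∀ i, i ∈ I ↔ 2 ≤ E i := fun i => by rw [hI, Finset.mem_filter]; simp
  have hsumI : 2 * m ≤ ∑ i ∈ I, n i := by
    refine h2.trans ?_
    rw [← Finset.sum_filter_add_sum_filter_not Finset.univ (fun i => 2 ≤ E i) n, ← hI]
    have h3 : ∑ i ∈ Finset.univ.filter (fun i => ¬ 2 ≤ E i), n i ≤ 0 := by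
      refine Finset.sum_nonpos fun i hi => ?_
      rw [Finset.mem_filter] at hi
      have h4 : E i = 1 := by
        have := hE i
        omega
      have h5 := h1 i
      rw [h4] at h5
      omega
    omega
  have hc : ∀ i ∈ I, (arF (E i) = 6 ∧ 2 * n i ≤ m) ∨ (arF (E i) = 8 ∧ 3 * n i ≤ 2 * m) ∨
      (arF (E i) = 9 ∧ 5 * n i ≤ 4 * m) ∨ (arF (E i) = 10 ∧ n i ≤ m - 1) := fun i hi =>
    arF_cases (E i) m (n i) hm ((hIm i).1 hi) (h1 i)
  have hlt : ∀ i ∈ I, n i ≤ m - 1 := by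
    intro i hi
    rcases hc i hi with ⟨-, h⟩ | ⟨-, h⟩ | ⟨-, h⟩ | ⟨-, h⟩ <;> omega
  have hsix : ∀ i ∈ I, 6 ≤ arF (E i) := by
    intro i hi
    rcases hc i hi with ⟨h, -⟩ | ⟨h, -⟩ | ⟨h, -⟩ | ⟨h, -⟩ <;> omega
  have hcard : 3 ≤ I.card := by
    by_contra hcon
    push Not at hcon
    have h3 : ∑ i ∈ I, n i ≤ I.card * (m - 1) := by
      have := Finset.sum_le_sum hlt
      rwa [Finset.sum_const, nsmul_eq_mul] at this
    have h4 : (I.card : ℤ) * (m - 1) ≤ 2 * (m - 1) :=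
      mul_le_mul_of_nonneg_right (by omega) (by omega)
    omega
  have hf : 24 ≤ ∑ i ∈ I, arF (E i) := by
    rcases Nat.lt_or_ge I.card 4 with h4 | h4
    · have h5 : I.card = 3 := by omega
      obtain ⟨a, b, c, hab, hac, hbc, e⟩ := Finset.card_eq_three.1 h5
      have ha : a ∈ I := by rw [e]; simp
      have hb : b ∈ I := by rw [e]; simp
      have hcc : c ∈ I := by rw [e]; simp
      have h6 := ar_three _ _ _ m (n a) (n b) (n c) hm (hc a ha) (hc b hb) (hc c hcc) (by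
        rw [e, Finset.sum_insert (by simp [hab, hac]), Finset.sum_insert (by simp [hbc]),
          Finset.sum_singleton] at hsumI
        omega)
      rw [e, Finset.sum_insert (by simp [hab, hac]), Finset.sum_insert (by simp [hbc]),
        Finset.sum_singleton]
      omega
    · have h5 : ∑ i ∈ I, 6 ≤ ∑ i ∈ I, arF (E i) := Finset.sum_le_sum hsix
      rw [Finset.sum_const, smul_eq_mul] at h5
      omega
  have hf2 : 24 ≤ ∑ i, arF (E i) :=
    hf.trans (Finset.sum_le_sum_of_subset (Finset.subset_univ _))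
  obtain ⟨w, hw, hs⟩ := ar_lower (∑ i, arF (E i) - 24) (fun i => arF (E i)) (by omega)
  refine ⟨w, fun i => (hw i).trans (arF_le _), fun i => ?_, hs⟩
  refine (arF_mul (E i) (hE i)).trans (mul_le_mul_of_nonneg_left ?_ (by have := hE i; omega))
  have h3 : w i ≤ arF (E i) := hw i
  omega

end PQ
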