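import Pool.Agent.Lib.MP_23b606_ag.PQ.Fac
import Pool.Agent.Lib.MP_23b606_ag.PQ.In2

/-!
PQ/AsmA: the inequality at a divisor `O` of the quotient.

Proof: `K = fixedField G`; `L / K` is Galois with group `G` (`IsGaloisGroup G K L`, finite dimensional).
`O'`, `V'`, `e` from `exists_inert`; `factor` for every `i`. Let `J` be the set of the `i` in the second case,
`c i` from there (`c i = 0` for `i ∉ J`: then `V (T i - c i) = V (H' i) = 0`). If `J = ∅` the first case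
holds. Let `J ≠ ∅`. All the terms of the sum are `≥ 0`. If `e = 1` the terms of `J` are `≥ 12`. Otherwise
take `g ≠ 1` from `exists_inert`. If `i ∉ J` then `V' = 0` on the nonzero elements of `F i`, so for `x ∈ F i`
(`x ∈ O'`, `g x - x ∈ F i` by `hG`) `g x = x`. So the `i` with `g x ≠ x` for some `x ∈ F i` are in `J`, and
`hw` gives `12 ≤ ∑_{i ∈ J} ρ i`.
-/

set_option autoImplicit false

open T1 IntermediateField

namespace PQ

private theorem igg {L : Type} [Field L] [Algebra ℂ L] (G : Subgroup (L ≃ₐ[ℂ] L)) :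
    IsGaloisGroup G (fixedField G) L where
  faithful := inferInstance
  commutes := ⟨fun g k x => by
    change (g : L ≃ₐ[ℂ] L) ((k : L) * x) = (k : L) * (g : L ≃ₐ[ℂ] L) x
    rw [map_mul, (mem_fixedField_iff G (k : L)).1 k.2 g g.2]⟩
  isInvariant := ⟨fun b hb => ⟨⟨b, (mem_fixedField_iff G b).2 fun f hf => hb ⟨f, hf⟩⟩, rfl⟩⟩

open Classical in
theorem exists_coord {L : Type} [Field L] [Algebra ℂ L] {n : ℕ}
    (F : Fin n → IntermediateField ℂ L) (hF : ∀ i, Crv (F i)) (G : Subgroup (L ≃ₐ[ℂ] L)) [Finite G]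
    (hG : ∀ g ∈ G, ∀ i, ∀ x ∈ F i, g x ∈ F i) (ρ : Fin n → ℕ)
    (hw : ∀ g ∈ G, g ≠ 1 → 12 ≤ ∑ i with ∃ x ∈ F i, g x ≠ x, ρ i) (t h : ∀ i, F i)
    (H : ∀ i, Frm ((fixedField G).comap (F i).val) (ρ i) (t i) (h i))
    (T H' : Fin n → fixedField G) (hT : ∀ i, (T i : L) = t i) (hH : ∀ i, (H' i : L) = h i)
    {O : ValuationSubring (fixedField G)} (V : NVal O) (hC : Cst O) :
    (∀ i, V.v (T i) = 0 ∧ V.v (H' i) = 0) ∨
      ∃ c : Fin n → ℂ, (∃ i, V.v (T i - algebraMap ℂ (fixedField G) (c i)) ≠ 0) ∧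
        12 ≤ ∑ i, (V.v (H' i) + 12 * V.v (T i - algebraMap ℂ (fixedField G) (c i))) := by
  have := igg G
  have : FiniteDimensional (fixedField G) L :=
    IsGaloisGroup.finiteDimensional G (fixedField G) L
  obtain ⟨O', V', e, he, -, hV, hin⟩ := exists_inert (L := L) (G := G) V hC
  have hall : ∀ i, ∃ c : ℂ,
      (V.v (T i - algebraMap ℂ (fixedField G) c) = 0 ∧ V.v (H' i) = 0 ∧ V.v (T i) = 0 ∧
        ∀ x : F i, x ≠ 0 → V'.v (x : L) = 0) ∨
      (V.v (T i - algebraMap ℂ (fixedField G) c) ≠ 0 ∧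
        (ρ i : ℤ) ≤ V.v (H' i) + 12 * V.v (T i - algebraMap ℂ (fixedField G) c) ∧
        (e = 1 → 12 ≤ V.v (H' i) + 12 * V.v (T i - algebraMap ℂ (fixedField G) c))) := by
    intro i
    rcases factor (fixedField G) (F i) (hF i) (ρ i) (t i) (h i) (H i) V hC V' e he hV (T i)
      (H' i) (hT i) (hH i) with ⟨h1, h2, h3⟩ | ⟨c, h1, h2, h3⟩
    · refine ⟨0, Or.inl ⟨h1 0, h2, ?_, h3⟩⟩
      have h4 := h1 0
      rwa [map_zero, sub_zero] at h4
    · exact ⟨c, Or.inr ⟨h1, h2, h3⟩⟩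
  choose c hc using hall
  by_cases hJ : ∃ i, V.v (T i - algebraMap ℂ (fixedField G) (c i)) ≠ 0
  · right
    refine ⟨c, hJ, ?_⟩
    have hnn : ∀ i, 0 ≤ V.v (H' i) + 12 * V.v (T i - algebraMap ℂ (fixedField G) (c i)) := by
      intro i
      rcases hc i with ⟨h1, h2, -, -⟩ | ⟨-, h2, -⟩
      · rw [h1, h2]
        norm_num
      · exact le_trans (Int.natCast_nonneg _) h2
    rcases hin with he1 | ⟨g, hg1, hg⟩
    · obtain ⟨i, hi⟩ := hJ
      rcases hc i with ⟨h1, -⟩ | ⟨-, -, h2⟩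
      · exact absurd h1 hi
      · exact (h2 he1).trans (Finset.single_le_sum (fun i _ => hnn i) (Finset.mem_univ i))
    · have hg1' : (g : L ≃ₐ[ℂ] L) ≠ 1 := fun h => hg1 (Subtype.ext h)
      have hw1 := hw g g.2 hg1'
      have hw2 : (12 : ℤ) ≤ ∑ i with ∃ x ∈ F i, (g : L ≃ₐ[ℂ] L) x ≠ x, (ρ i : ℤ) := by
        exact_mod_cast hw1
      refine hw2.trans (le_trans (Finset.sum_le_sum fun i hi => ?_)
        (Finset.sum_le_univ_sum_of_nonneg hnn))
      obtain ⟨x, hx, hgx⟩ := (Finset.mem_filter.1 hi).2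
      rcases hc i with ⟨-, -, -, h3⟩ | ⟨-, h2, -⟩
      · exfalso
        have hsub : (g : L ≃ₐ[ℂ] L) x - x ∈ F i := (F i).sub_mem (hG g g.2 i x hx) hx
        have hne : (g : L ≃ₐ[ℂ] L) x - x ≠ 0 := sub_ne_zero.2 hgx
        have hx0 : x ≠ 0 := by
          rintro rfl
          exact hgx (map_zero _)
        have hv := h3 ⟨_, hsub⟩ (fun h => hne (congrArg Subtype.val h))
        have hvx := h3 ⟨x, hx⟩ (fun h => hx0 (congrArg Subtype.val h))
        have hxO : x ∈ O' := (V'.mem x hx0).2 hvx.ge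
        rcases hg x hxO with h4 | h4
        · exact hne h4
        · exact absurd hv h4.ne'
      · exact h2
  · left
    push Not at hJ
    intro i
    rcases hc i with ⟨-, h2, h3, -⟩ | ⟨h1, -⟩
    · exact ⟨h3, h2⟩
    · exact absurd (hJ i) h1

end PQ
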