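import Pool.Agent.Lib.MP_23b606_ag.PQ.Log
import Pool.Agent.Lib.MP_23b606_ag.PQ.Nv

/-!
PQ/AsmB: the form `(∏ H_i) (dT_1 ∧ ... ∧ dT_n)^12` is regular at a valuation ring `O` where the inequality
of `exists_coord` holds.

Proof: first case: `a = T`, `j = 1`, `c = ∏ H i`, of value `0`. Second case: `y i = T i - c i` (`≠ 0` as
`T i` is not a constant), `W y = W T` (`D` kills constants). `log_form` gives `a`, `j`, `W a = j • W T`,
`V j ≤ 1 - ∑ V (y i)`. `c = ∏ H i / j^12` has value `∑ V (H i) - 12 V j ≥ ∑ V (H i) + 12 ∑ V (y i) - 12 ≥ 0`.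
-/

set_option autoImplicit false

open T1

namespace PQ

theorem regAt_of_coord {K : Type} [Field K] [Algebra ℂ K] {n : ℕ} (hn : Algebra.trdeg ℂ K = n)
    (T H : Fin n → K) (hT : ∀ i, ∀ c : ℂ, T i ≠ algebraMap ℂ K c) (hH : ∀ i, H i ≠ 0)
    (hW : W T ≠ 0) {O : ValuationSubring K} (V : NVal O) (hC : Cst O)
    (h : (∀ i, V.v (T i) = 0 ∧ V.v (H i) = 0) ∨
      ∃ c : Fin n → ℂ, (∃ i, V.v (T i - algebraMap ℂ K (c i)) ≠ 0) ∧
        12 ≤ ∑ i, (V.v (H i) + 12 * V.v (T i - algebraMap ℂ K (c i)))) :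
    RegAt O T 12 (∏ i, H i) := by
  have hH0 : ∏ i, H i ≠ 0 := Finset.prod_ne_zero_iff.2 fun i _ => hH i
  have hvH : V.v (∏ i, H i) = ∑ i, V.v (H i) := v_prod V Finset.univ H fun i _ => hH i
  rcases h with h | ⟨c, ⟨i₀, hi₀⟩, hsum⟩
  · refine ⟨T, ∏ i, H i, 1, fun i => ?_, ?_, (one_smul K _).symm, by rw [one_pow, mul_one]⟩
    · have hTi : T i ≠ 0 := by
        have := hT i 0
        rwa [map_zero] at this
      exact (V.mem _ hTi).2 (h i).1.ge
    · rw [V.mem _ hH0, hvH, Finset.sum_eq_zero fun i _ => (h i).2]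
  · have hy : ∀ i, T i - algebraMap ℂ K (c i) ≠ 0 := fun i => sub_ne_zero.2 (hT i (c i))
    have hWy : W (fun i => T i - algebraMap ℂ K (c i)) = W T := by
      unfold W
      congr 1
      funext i
      rw [map_sub, Derivation.map_algebraMap, sub_zero]
    obtain ⟨a, j, ha, hj, hWa, hvj⟩ := log_form hn V hC (fun i => T i - algebraMap ℂ K (c i)) hy
      (by rw [hWy]; exact hW) i₀ hi₀
    rw [hWy] at hWa
    refine ⟨a, (∏ i, H i) / j ^ 12, j, ha, ?_, hWa, (div_mul_cancel₀ _ (pow_ne_zero 12 hj)).symm⟩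
    rw [V.mem _ (div_ne_zero hH0 (pow_ne_zero 12 hj)), v_div V hH0 (pow_ne_zero 12 hj), hvH,
      v_pow V hj 12]
    rw [Finset.sum_add_distrib, ← Finset.mul_sum] at hsum
    push_cast
    linarith

end PQ
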