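import Mathlib

/-!
PQ/BgA: lattice reduction over `ℂ[X]` (Birkhoff, Grothendieck).

`V` is a vector space over `RatFunc ℂ` with basis `b0`; `N` is stable under the rational functions
of degree `≤ 0`; every vector is in `X^d N` for some `d`; a vector with polynomial coordinates in
`X⁻¹ N` is `0`.

Proof: consider the pairs `(b, d)`, `b` a basis with the same vectors of polynomial coordinates as
`b0` and `X^(-d j) • b j ∈ N`; they exist (`b = b0`, `hd`). Take one with `∑ d j` minimal. Suppose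
`∑ λ j X^(-d j) b j ∈ X⁻¹ N`, that is `X • ∑ ... ∈ N`, `λ ≠ 0`; take `j₀` with `λ j₀ ≠ 0` and
`d j₀` maximal. If `d j₀ = 0` then all the `d j` with `λ j ≠ 0` are `0` and `v = ∑ λ j b j` is `0`
by `h0`, contradiction. Otherwise replace `b j₀` by `b' = ∑ λ j X^(d j₀ - d j) b j` and `d j₀` by
`d j₀ - 1`: the new family is a basis with the same vectors of polynomial coordinates (`b'` has
coefficient `λ j₀`, a unit, at `b j₀`), and `X^(-(d j₀ - 1)) b' = X • ∑ λ j X^(-d j) b j ∈ N`.
-/

set_option autoImplicit false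

open Polynomial

namespace PQ

/-- Polynomial coordinates. -/
def Pc {V : Type} [AddCommGroup V] [Module (RatFunc ℂ) V] {n : ℕ}
    (b : Module.Basis (Fin n) (RatFunc ℂ) V) (v : V) : Prop :=
  ∀ j, b.repr v j ∈ (algebraMap ℂ[X] (RatFunc ℂ)).range

private theorem ba_C (z : ℂ) :
    algebraMap ℂ (RatFunc ℂ) z = algebraMap ℂ[X] (RatFunc ℂ) (Polynomial.C z) :=
  IsScalarTower.algebraMap_apply ℂ ℂ[X] (RatFunc ℂ) z

/-- `g ↦ ∑ g j b j` in coordinates, `b j₀` replaced by `∑ c j b j`. -/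
private noncomputable def baEquiv {n : ℕ} (c : Fin n → RatFunc ℂ) (j₀ : Fin n) (h : c j₀ ≠ 0) :
    (Fin n → RatFunc ℂ) ≃ₗ[RatFunc ℂ] (Fin n → RatFunc ℂ) where
  toFun g j := if j = j₀ then c j₀ * g j₀ else g j + c j * g j₀
  invFun r j := if j = j₀ then (c j₀)⁻¹ * r j₀ else r j - c j * ((c j₀)⁻¹ * r j₀)
  map_add' x y := by
    funext j
    simp only [Pi.add_apply]
    split_ifs <;> ring
  map_smul' a x := by
    funext j
    simp only [Pi.smul_apply, smul_eq_mul, RingHom.id_apply]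
    split_ifs <;> ring
  left_inv x := by
    funext j
    by_cases hj : j = j₀
    · subst hj
      simp [h]
    · simp [h, hj]
  right_inv x := by
    funext j
    by_cases hj : j = j₀
    · subst hj
      simp [h]
    · simp [hj]

theorem exists_min {V : Type} [AddCommGroup V] [Module (RatFunc ℂ) V] {n : ℕ}
    (b0 : Module.Basis (Fin n) (RatFunc ℂ) V) (N : AddSubgroup V)
    (hN : ∀ r : RatFunc ℂ, r.intDegree ≤ 0 → ∀ v ∈ N, r • v ∈ N)
    (hd : ∀ v : V, ∃ d : ℕ, ((RatFunc.X : RatFunc ℂ) ^ d)⁻¹ • v ∈ N)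
    (h0 : ∀ v : V, Pc b0 v → (RatFunc.X : RatFunc ℂ) • v ∈ N → v = 0) :
    ∃ (b : Module.Basis (Fin n) (RatFunc ℂ) V) (d : Fin n → ℕ),
      (∀ v, Pc b0 v ↔ Pc b v) ∧ (∀ j, ((RatFunc.X : RatFunc ℂ) ^ d j)⁻¹ • b j ∈ N) ∧
      ∀ l : Fin n → ℂ, (RatFunc.X : RatFunc ℂ) •
        (∑ j, (algebraMap ℂ (RatFunc ℂ) (l j) * ((RatFunc.X : RatFunc ℂ) ^ d j)⁻¹) • b j) ∈ N →
          l = 0 := by
  classical
  have hX : (RatFunc.X : RatFunc ℂ) ≠ 0 := RatFunc.X_ne_zero
  have hex : ∃ s : ℕ, ∃ (b : Module.Basis (Fin n) (RatFunc ℂ) V) (d : Fin n → ℕ),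
      (∀ v, Pc b0 v ↔ Pc b v) ∧ (∀ j, ((RatFunc.X : RatFunc ℂ) ^ d j)⁻¹ • b j ∈ N) ∧
        ∑ j, d j = s := by
    choose d hd' using fun j => hd (b0 j)
    exact ⟨_, b0, d, fun v => Iff.rfl, hd', rfl⟩
  obtain ⟨b, d, hP, hM, hs⟩ := Nat.find_spec hex
  have hmin := fun s (h : s < Nat.find hex) => Nat.find_min hex h
  refine ⟨b, d, hP, hM, fun l hl => ?_⟩
  by_contra hl0
  obtain ⟨i, hi⟩ : ∃ i, l i ≠ 0 := by
    by_contra hcon
    push Not at hcon
    exact hl0 (funext hcon)
  obtain ⟨j₀, hj₀, hmax⟩ := Finset.exists_max_image (Finset.univ.filter fun j => l j ≠ 0) d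
    ⟨i, Finset.mem_filter.2 ⟨Finset.mem_univ _, hi⟩⟩
  have hlj : l j₀ ≠ 0 := (Finset.mem_filter.1 hj₀).2
  have hle : ∀ j, l j ≠ 0 → d j ≤ d j₀ := fun j hj =>
    hmax j (Finset.mem_filter.2 ⟨Finset.mem_univ _, hj⟩)
  have hrep : ∀ (c : Fin n → RatFunc ℂ) (j : Fin n), b.repr (∑ i, c i • b i) j = c j := by
    intro c j
    rw [Module.Basis.repr_sum_self]
  rcases Nat.eq_zero_or_pos (d j₀) with hz | hpos
  · -- all the `d j` vanish
    have h1 : Pc b (∑ j, (algebraMap ℂ (RatFunc ℂ) (l j) * ((RatFunc.X : RatFunc ℂ) ^ d j)⁻¹) •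
        b j) := by
      intro j
      rw [hrep]
      by_cases hj : l j = 0
      · rw [hj, map_zero, zero_mul]
        exact Subring.zero_mem _
      · have h2 : d j = 0 := by
          have := hle j hj
          omega
        rw [h2, pow_zero, inv_one, mul_one, ba_C]
        exact ⟨_, rfl⟩
    have h3 := h0 _ ((hP _).2 h1) hl
    have h4 := hrep (fun j => algebraMap ℂ (RatFunc ℂ) (l j) *
      ((RatFunc.X : RatFunc ℂ) ^ d j)⁻¹) j₀
    rw [h3, map_zero, Finsupp.zero_apply] at h4
    exact mul_ne_zero ((_root_.map_ne_zero _).2 hlj) (inv_ne_zero (pow_ne_zero _ hX)) h4.symm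
  · -- the new basis
    set c : Fin n → RatFunc ℂ := fun j => algebraMap ℂ (RatFunc ℂ) (l j) *
      (RatFunc.X : RatFunc ℂ) ^ (d j₀ - d j) with hc
    have hcj : c j₀ = algebraMap ℂ (RatFunc ℂ) (l j₀) := by
      rw [hc]
      simp
    have hcj0 : c j₀ ≠ 0 := by
      rw [hcj]
      exact (_root_.map_ne_zero _).2 hlj
    have hcp : ∀ j, c j ∈ (algebraMap ℂ[X] (RatFunc ℂ)).range := by
      intro j
      refine Subring.mul_mem _ ?_ (Subring.pow_mem _ ?_ _)
      · rw [ba_C]
        exact ⟨_, rfl⟩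
      · exact ⟨Polynomial.X, RatFunc.algebraMap_X⟩
    have hcinv : (c j₀)⁻¹ ∈ (algebraMap ℂ[X] (RatFunc ℂ)).range := by
      rw [hcj, ← map_inv₀, ba_C]
      exact ⟨_, rfl⟩
    let b' : Module.Basis (Fin n) (RatFunc ℂ) V :=
      Module.Basis.ofEquivFun (b.equivFun.trans (baEquiv c j₀ hcj0).symm)
    have hb'r : ∀ v j, b'.repr v j = if j = j₀ then (c j₀)⁻¹ * b.repr v j₀ else
        b.repr v j - c j * ((c j₀)⁻¹ * b.repr v j₀) := by
      intro v j
      rfl
    have hb'ne : ∀ j, j ≠ j₀ → b' j = b j := by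
      intro j hj
      apply b'.repr.injective
      ext k
      rw [Module.Basis.repr_self, hb'r, Module.Basis.repr_self]
      simp only [Finsupp.single_apply]
      by_cases hk : k = j₀
      · subst hk
        rw [if_pos rfl, if_neg hj, mul_zero]
      · rw [if_neg hk, if_neg hj, mul_zero, mul_zero, sub_zero]
    have hb'j : b' j₀ = ∑ j, c j • b j := by
      apply b'.repr.injective
      ext k
      rw [Module.Basis.repr_self, hb'r, hrep, hrep, inv_mul_cancel₀ hcj0, mul_one, sub_self]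
      simp only [Finsupp.single_apply]
      by_cases hk : k = j₀
      · rw [if_pos hk, if_pos hk.symm]
      · rw [if_neg hk, if_neg (Ne.symm hk)]
    have hb'X : b' j₀ = (RatFunc.X : RatFunc ℂ) ^ d j₀ • ∑ j, (algebraMap ℂ (RatFunc ℂ) (l j) *
        ((RatFunc.X : RatFunc ℂ) ^ d j)⁻¹) • b j := by
      rw [hb'j, Finset.smul_sum]
      refine Finset.sum_congr rfl fun j _ => ?_
      rw [smul_smul]
      congr 1
      by_cases hj : l j = 0
      · simp [hc, hj]
      · have h5 : (RatFunc.X : RatFunc ℂ) ^ d j₀ =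
            (RatFunc.X : RatFunc ℂ) ^ (d j₀ - d j) * (RatFunc.X : RatFunc ℂ) ^ d j := by
          rw [← pow_add, Nat.sub_add_cancel (hle j hj)]
        rw [h5, hc]
        have h6 : (RatFunc.X : RatFunc ℂ) ^ d j ≠ 0 := pow_ne_zero _ hX
        field_simp
    refine hmin (∑ j, Function.update d j₀ (d j₀ - 1) j) ?_
      ⟨b', Function.update d j₀ (d j₀ - 1), ?_, ?_, rfl⟩
    · rw [← hs]
      refine Finset.sum_lt_sum (fun j _ => ?_) ⟨j₀, Finset.mem_univ _, ?_⟩
      · by_cases hj : j = j₀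
        · subst hj
          rw [Function.update_self]
          exact Nat.sub_le _ _
        · rw [Function.update_of_ne hj]
      · rw [Function.update_self]
        omega
    · intro v
      rw [hP v]
      constructor
      · intro h j
        rw [hb'r]
        split_ifs
        · exact Subring.mul_mem _ hcinv (h j₀)
        · exact Subring.sub_mem _ (h j) (Subring.mul_mem _ (hcp j)
            (Subring.mul_mem _ hcinv (h j₀)))
      · intro h j
        have h7 : b.repr v j₀ = c j₀ * b'.repr v j₀ := by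
          rw [hb'r, if_pos rfl, mul_inv_cancel_left₀ hcj0]
        by_cases hj : j = j₀
        · subst hj
          rw [h7]
          exact Subring.mul_mem _ (hcp _) (h _)
        · have h8 : b.repr v j = b'.repr v j + c j * b'.repr v j₀ := by
            rw [hb'r v j, hb'r v j₀, if_neg hj, if_pos rfl]
            ring
          rw [h8]
          exact Subring.add_mem _ (h _) (Subring.mul_mem _ (hcp _) (h _))
    · intro j
      by_cases hj : j = j₀
      · subst hj
        rw [Function.update_self, hb'X, smul_smul]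
        have h9 : ((RatFunc.X : RatFunc ℂ) ^ (d j - 1))⁻¹ * (RatFunc.X : RatFunc ℂ) ^ d j =
            RatFunc.X := by
          obtain ⟨e, he⟩ : ∃ e, d j = e + 1 := ⟨d j - 1, by omega⟩
          rw [he, Nat.add_sub_cancel, pow_succ, inv_mul_cancel_left₀ (pow_ne_zero _ hX)]
        rw [h9]
        exact hl
      · rw [Function.update_of_ne hj, hb'ne j hj]
        exact hM j

end PQ
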