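import Pool.Agent.Lib.MP_23b606_ag.PQ.BgA

/-!
PQ/BgB: the reduced basis generates at infinity.

`exists_lead`: `l` = the quotient of the leading coefficients if `r.intDegree = 0`, `r ≠ 0`, and
`0` otherwise.

`mem_iff`: `b`, `d` reduced as in `exists_min`. If all `X^(d j) r_j` (`r_j = b.repr v j`) have
degree `≤ 0` then `v = ∑ (X^(d j) r_j) • (X^(-d j) b j) ∈ N`. Conversely let `D > 0` be the maximal
degree of the `X^(d j) r_j`. `γ_j = X^(-D) X^(d j) r_j` has degree `≤ 0`, `= 0` for some `j` (and is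
not `0` there), and `X^(-D) v = ∑ γ_j X^(-d j) b j`. Write `γ_j = l j + γ'_j` with `X γ'_j` of degree
`≤ 0` (`exists_lead`). Then `X • ∑ l j X^(-d j) b j = X^(1-D) v - ∑ (X γ'_j) X^(-d j) b j ∈ N`, so
`l = 0`, contradiction.
-/

set_option autoImplicit false

open Polynomial

namespace PQ

private theorem bgb_add (r s : RatFunc ℂ) (hr : r.intDegree ≤ 0) (hs : s.intDegree ≤ 0) :
    (r + s).intDegree ≤ 0 := by
  by_cases h1 : s = 0
  · rw [h1, add_zero]
    exact hr
  by_cases h2 : r + s = 0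
  · rw [h2]
    exact RatFunc.intDegree_zero.le
  exact (RatFunc.intDegree_add_le h1 h2).trans (max_le hr hs)

private theorem bgb_mul_le (r s : RatFunc ℂ) (h : r.intDegree + s.intDegree ≤ 0) :
    (r * s).intDegree ≤ 0 := by
  by_cases h1 : r = 0
  · rw [h1, zero_mul]
    exact RatFunc.intDegree_zero.le
  by_cases h2 : s = 0
  · rw [h2, mul_zero]
    exact RatFunc.intDegree_zero.le
  rw [RatFunc.intDegree_mul h1 h2]
  exact h

private theorem bgb_pow (k : ℕ) : ((RatFunc.X : RatFunc ℂ) ^ k).intDegree = k := by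
  induction k with
  | zero => rw [pow_zero, RatFunc.intDegree_one]; rfl
  | succ k ih =>
    rw [pow_succ, RatFunc.intDegree_mul (pow_ne_zero _ RatFunc.X_ne_zero) RatFunc.X_ne_zero, ih,
      RatFunc.intDegree_X]
    push_cast
    rfl

theorem exists_lead (r : RatFunc ℂ) (hr : r.intDegree ≤ 0) :
    ∃ l : ℂ, (RatFunc.X * (r - algebraMap ℂ (RatFunc ℂ) l)).intDegree ≤ 0 ∧
      (r.intDegree = 0 → r ≠ 0 → l ≠ 0) := by
  by_cases h0 : r = 0
  · refine ⟨0, ?_, fun _ h => absurd h0 h⟩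
    rw [h0, map_zero, sub_zero, mul_zero]
    exact RatFunc.intDegree_zero.le
  by_cases h1 : r.intDegree = 0
  · obtain ⟨p, hp⟩ : ∃ p, p = r.num := ⟨_, rfl⟩
    obtain ⟨q, hq⟩ : ∃ q, q = r.denom := ⟨_, rfl⟩
    have hp0 : p ≠ 0 := by
      rw [hp]
      exact RatFunc.num_ne_zero h0
    have hq0 : q ≠ 0 := by
      rw [hq]
      exact r.denom_ne_zero
    have hd : p.natDegree = q.natDegree := by
      have h2 : r.intDegree = (p.natDegree : ℤ) - q.natDegree := by
        rw [hp, hq]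
        rfl
      omega
    have hr : r = algebraMap ℂ[X] (RatFunc ℂ) p / algebraMap ℂ[X] (RatFunc ℂ) q := by
      rw [hp, hq]
      exact (RatFunc.num_div_denom r).symm
    have hq1 : algebraMap ℂ[X] (RatFunc ℂ) q ≠ 0 := RatFunc.algebraMap_ne_zero hq0
    obtain ⟨l, hl⟩ : ∃ l, l = p.leadingCoeff / q.leadingCoeff := ⟨_, rfl⟩
    have hl0 : l ≠ 0 := by
      rw [hl]
      exact div_ne_zero (leadingCoeff_ne_zero.2 hp0) (leadingCoeff_ne_zero.2 hq0)
    refine ⟨l, ?_, fun _ _ => hl0⟩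
    have h3 : r - algebraMap ℂ (RatFunc ℂ) l =
        algebraMap ℂ[X] (RatFunc ℂ) (p - C l * q) / algebraMap ℂ[X] (RatFunc ℂ) q := by
      rw [hr, map_sub, map_mul, RatFunc.algebraMap_C, RatFunc.algebraMap_eq_C, sub_div,
        mul_div_assoc, div_self hq1, mul_one]
    by_cases h4 : p - C l * q = 0
    · rw [h3, h4, map_zero, zero_div, mul_zero]
      exact RatFunc.intDegree_zero.le
    have h5 : (p - C l * q).natDegree < q.natDegree := by
      have h6 : (p - C l * q).degree < p.degree := by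
        refine degree_sub_lt_left ?_ hp0 ?_
        · rw [degree_C_mul hl0, degree_eq_natDegree hp0, degree_eq_natDegree hq0, hd]
        · rw [leadingCoeff_mul, leadingCoeff_C, hl, div_mul_cancel₀]
          exact leadingCoeff_ne_zero.2 hq0
      rw [← hd]
      exact natDegree_lt_natDegree h4 h6
    rw [h3, div_eq_mul_inv]
    refine bgb_mul_le _ _ ?_
    rw [RatFunc.intDegree_mul (RatFunc.algebraMap_ne_zero h4) (inv_ne_zero hq1),
      RatFunc.intDegree_inv, RatFunc.intDegree_polynomial, RatFunc.intDegree_polynomial,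
      RatFunc.intDegree_X]
    omega
  · refine ⟨0, ?_, fun h => absurd h h1⟩
    rw [map_zero, sub_zero]
    refine bgb_mul_le _ _ ?_
    rw [RatFunc.intDegree_X]
    omega

theorem mem_iff {V : Type} [AddCommGroup V] [Module (RatFunc ℂ) V] {n : ℕ}
    (b : Module.Basis (Fin n) (RatFunc ℂ) V) (d : Fin n → ℕ) (N : AddSubgroup V)
    (hN : ∀ r : RatFunc ℂ, r.intDegree ≤ 0 → ∀ v ∈ N, r • v ∈ N)
    (hb : ∀ j, ((RatFunc.X : RatFunc ℂ) ^ d j)⁻¹ • b j ∈ N)
    (hred : ∀ l : Fin n → ℂ, (RatFunc.X : RatFunc ℂ) •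
      (∑ j, (algebraMap ℂ (RatFunc ℂ) (l j) * ((RatFunc.X : RatFunc ℂ) ^ d j)⁻¹) • b j) ∈ N →
        l = 0) (v : V) :
    v ∈ N ↔ ∀ j, ((RatFunc.X : RatFunc ℂ) ^ d j * b.repr v j).intDegree ≤ 0 := by
  have hX : ∀ k : ℕ, (RatFunc.X : RatFunc ℂ) ^ k ≠ 0 := fun k => pow_ne_zero _ RatFunc.X_ne_zero
  have hv : v = ∑ j, ((RatFunc.X : RatFunc ℂ) ^ d j * b.repr v j) •
      (((RatFunc.X : RatFunc ℂ) ^ d j)⁻¹ • b j) := by
    conv_lhs => rw [← b.sum_repr v]
    refine Finset.sum_congr rfl fun j _ => ?_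
    rw [smul_smul, mul_comm ((RatFunc.X : RatFunc ℂ) ^ d j), mul_assoc, mul_inv_cancel₀ (hX _),
      mul_one]
  constructor
  · intro hvN
    by_contra hcon
    push Not at hcon
    obtain ⟨i, hi⟩ := hcon
    obtain ⟨j₀, -, hj₀⟩ := Finset.exists_max_image Finset.univ
      (fun j => ((RatFunc.X : RatFunc ℂ) ^ d j * b.repr v j).intDegree) ⟨i, Finset.mem_univ i⟩
    obtain ⟨a, ha⟩ : ∃ a : Fin n → RatFunc ℂ, ∀ j,
        a j = (RatFunc.X : RatFunc ℂ) ^ d j * b.repr v j := ⟨_, fun _ => rfl⟩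
    have hpos : 0 < (a j₀).intDegree := by
      rw [ha]
      exact hi.trans_le (hj₀ i (Finset.mem_univ i))
    have hmax : ∀ j, (a j).intDegree ≤ (a j₀).intDegree := by
      intro j
      rw [ha, ha]
      exact hj₀ j (Finset.mem_univ j)
    obtain ⟨D, hD⟩ : ∃ D : ℕ, (a j₀).intDegree = D :=
      ⟨_, (Int.toNat_of_nonneg hpos.le).symm⟩
    have hDi : (((RatFunc.X : RatFunc ℂ) ^ D)⁻¹).intDegree = -(D : ℤ) := by
      rw [RatFunc.intDegree_inv, bgb_pow]
    have hg : ∀ j, (((RatFunc.X : RatFunc ℂ) ^ D)⁻¹ * a j).intDegree ≤ 0 := by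
      intro j
      refine bgb_mul_le _ _ ?_
      rw [hDi]
      have := hmax j
      omega
    have ha0 : a j₀ ≠ 0 := by
      intro h
      rw [h, RatFunc.intDegree_zero] at hpos
      exact lt_irrefl _ hpos
    have hg0 : ((RatFunc.X : RatFunc ℂ) ^ D)⁻¹ * a j₀ ≠ 0 :=
      mul_ne_zero (inv_ne_zero (hX D)) ha0
    have hg1 : (((RatFunc.X : RatFunc ℂ) ^ D)⁻¹ * a j₀).intDegree = 0 := by
      rw [RatFunc.intDegree_mul (inv_ne_zero (hX D)) ha0, hDi, hD]
      omega
    choose l hl1 hl2 using fun j => exists_lead _ (hg j)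
    have hl : l = 0 := by
      refine hred l ?_
      have h1 : (RatFunc.X : RatFunc ℂ) •
          (∑ j, (algebraMap ℂ (RatFunc ℂ) (l j) * ((RatFunc.X : RatFunc ℂ) ^ d j)⁻¹) • b j) =
          ((RatFunc.X : RatFunc ℂ) * ((RatFunc.X : RatFunc ℂ) ^ D)⁻¹) • v -
          ∑ j, ((RatFunc.X : RatFunc ℂ) * (((RatFunc.X : RatFunc ℂ) ^ D)⁻¹ * a j -
            algebraMap ℂ (RatFunc ℂ) (l j))) • (((RatFunc.X : RatFunc ℂ) ^ d j)⁻¹ • b j) := by
        rw [eq_sub_iff_add_eq, Finset.smul_sum, ← Finset.sum_add_distrib]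
        conv_rhs => rw [hv, Finset.smul_sum]
        refine Finset.sum_congr rfl fun j _ => ?_
        rw [← ha, smul_smul, smul_smul, smul_smul, smul_smul, ← add_smul]
        congr 1
        ring
      rw [h1]
      refine N.sub_mem (hN _ ?_ v hvN) (N.sum_mem fun j _ => hN _ (hl1 j) _ (hb j))
      refine bgb_mul_le _ _ ?_
      rw [hDi, RatFunc.intDegree_X]
      omega
    exact hl2 j₀ hg1 hg0 (by rw [hl]; rfl)
  · intro h
    rw [hv]
    exact N.sum_mem fun j _ => hN _ (h j) _ (hb j)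

end PQ
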