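import Pool.Agent.Lib.MP_23b606_ag.T1.A.Val

/-!
# PQ: product-quotients, definitions

`F` is a field of transcendence degree one over `ℂ`, the rational functions on a curve `C`. The
places of `F` are the valuation subrings `P` with `T1.IsDiv 1 P`, the points of `C`.
-/

set_option autoImplicit false

open scoped IntermediateField

namespace PQ

/-- `F` is a field of rational functions in one variable. -/
def Rational (F : Type) [Field F] [Algebra ℂ F] : Prop := ∃ t : F, ℂ⟮t⟯ = ⊤

/-- For a subfield `k` of `F`: `k = ℂ(x)` is rational, and there are distinct points `a j` of the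
line such that the ramification index of `F` over `k` is at least `e j` at all the places of `F`
over `x = a j`. -/
def Branch {F : Type} [Field F] [Algebra ℂ F] (k : IntermediateField ℂ F) {r : ℕ}
    (e : Fin r → ℕ) : Prop :=
  ∃ (x : F) (a : Fin r → ℂ), ℂ⟮x⟯ = k ∧ Function.Injective a ∧
    ∀ (j : Fin r) (P : ValuationSubring F), T1.IsDiv 1 P →
      P.valuation (x - algebraMap ℂ F (a j)) < 1 →
      ∃ y : F, P.valuation y < 1 ∧ P.valuation (x - algebraMap ℂ F (a j)) ≤ P.valuation y ^ e j

/-- The weight of the curve `C` over its quotient `B`, `k` the functions on `B`: every `ρ ≤ 2`;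
`ρ ≤ 3` if `B = ℙ^1` and `C` is ramified over three points with indices at least `2, 4, 4`;
`ρ ≤ 4` if `B = ℙ^1` and `C` is ramified over three points with indices at least `3, 3, 3`;
`ρ ≤ 6` if `B = ℙ^1` and `C` is ramified over at least four points; `ρ ≤ 12` if `B` is not
rational. -/
def Weight {F : Type} [Field F] [Algebra ℂ F] (k : IntermediateField ℂ F) (ρ : ℕ) : Prop :=
  ρ ≤ 2 ∨ (ρ ≤ 3 ∧ Branch k ![2, 4, 4]) ∨ (ρ ≤ 4 ∧ Branch k ![3, 3, 3]) ∨
    (ρ ≤ 6 ∧ Branch k ![2, 2, 2, 2]) ∨ (ρ ≤ 12 ∧ ¬ Rational k)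

/-- What is used of a curve. -/
structure Crv (F : Type) [Field F] [Algebra ℂ F] : Prop where
  tr : Algebra.trdeg ℂ F = 1
  fin : ∀ x : F, Transcendental ℂ x → FiniteDimensional ℂ⟮x⟯ F

/-- The valuation ring contains the constants. -/
def Cst {K : Type} [Field K] [Algebra ℂ K] (P : ValuationSubring K) : Prop :=
  ∀ c : ℂ, algebraMap ℂ K c ∈ P

/-- `x` is a coordinate at `V`: `V (x - c) ≠ 0`, that is `x = c` or `x = ∞` at `V`. The
logarithmic order of `h dx^m` at `V` is `V h + m V (x - c)`. -/
def At {K : Type} [Field K] [Algebra ℂ K] {P : ValuationSubring K} (V : T1.NVal P) (x : K)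
    (c : ℂ) : Prop := V.v (x - algebraMap ℂ K c) ≠ 0

end PQ
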