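import Pool.Agent.Lib.MP_23b606_ag.PQ.LocT1
import Pool.Agent.Lib.MP_23b606_ag.PQ.LocA
import Pool.Agent.Lib.MP_23b606_ag.PQ.Sup

/-!
PQ/LocT2: the different exponent of a tame extension is at most `e - 1` (local trace lemma).

Proof: `S = integralClosure R F`, `ϖ = W.π`. `E = {s ∈ S | s = ϖ z b for some b ∈ S}` is an ideal
of `S`, and for `s ∈ E` the trace is `ϖ Tr(z b)`, in the maximal ideal of `R` by `hz` (`b ∈ S` lies
in all `P'` over `R`). `S` is finite and free over `R`, `Algebra.trace k F s = Algebra.trace R S s`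
(`Algebra.trace_localization` or `Algebra.algebraMap_intTrace`). By `nilp_of_trace` every `s ∈ E`
has a power in `m_R S`, so `P.valuation s < 1`. If `V.v (ϖ z) ≤ 0` then `(ϖ z)⁻¹ ∈ P`, so by
`frac_over` there are `a, s` in all `P'` over `R` (so integral over `R`: `integral_of_all` for the
image of `R`; the valuation rings of `F` containing `R` lie over `R` or are `⊤`) with
`P.valuation s = 1`, `s (ϖ z)⁻¹ = a`, so `s = ϖ z a ∈ E`, contradiction.
-/

set_option autoImplicit false

open T1

namespace PQ

section aux

variable {k F : Type} [Field k] [Field F] [Algebra k F]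

/-- An element which is integral over `R` lies in the valuation rings containing `R`. -/
private theorem t2_mem {R : ValuationSubring k} (P' : ValuationSubring F)
    (hP' : ∀ x ∈ R, algebraMap k F x ∈ P') {b : F} (hb : IsIntegral R b) : b ∈ P' := by
  let φ : R →+* P' := ((algebraMap k F).comp R.subtype).codRestrict P'.toSubring
    (fun x => hP' x x.2)
  have h1 : IsIntegral P' ((RingHom.id F) b) := by
    refine IsIntegral.map_of_comp_eq φ (RingHom.id F) ?_ hb
    ext x
    rfl
  obtain ⟨y, hy⟩ := (IsIntegrallyClosed.isIntegral_iff (R := P') (K := F)).1 h1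
  have h2 : (y : F) = b := hy
  rw [← h2]
  exact y.2

/-- A valuation ring of `k` which contains `R` (of rank one) is `R` or everything. -/
private theorem t2_max {R : ValuationSubring k} (W : NVal R) (Q : ValuationSubring k)
    (hQ : ∀ x ∈ R, x ∈ Q) : Q = R ∨ ∀ x : k, x ∈ Q := by
  by_cases h : ∀ x ∈ Q, x ∈ R
  · left
    exact SetLike.ext fun x => ⟨h x, hQ x⟩
  · right
    push Not at h
    obtain ⟨y, hy, hyR⟩ := h
    have hy0 : y ≠ 0 := by
      rintro rfl
      exact hyR R.zero_mem
    have hyv : W.v y < 0 := by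
      by_contra hcon
      exact hyR ((W.mem y hy0).2 (not_lt.1 hcon))
    intro x
    by_cases hx : x = 0
    · rw [hx]
      exact Q.zero_mem
    · obtain ⟨n, hn⟩ : ∃ n : ℕ, -(W.v x) ≤ (n : ℤ) := ⟨(-(W.v x)).toNat, Int.self_le_toNat _⟩
      have h1 : x * y ^ (-(n : ℤ)) ∈ R := by
        have h2 : y ^ (-(n : ℤ)) ≠ 0 := zpow_ne_zero _ hy0
        rw [W.mem _ (mul_ne_zero hx h2), W.mul _ _ hx h2, W.zpow hy0]
        nlinarith
      have h3 : x = (x * y ^ (-(n : ℤ))) * y ^ n := by
        rw [mul_assoc, ← zpow_natCast, ← zpow_add₀ hy0, neg_add_cancel, zpow_zero, mul_one]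
      rw [h3]
      exact Q.mul_mem _ _ (hQ _ h1) (Q.toSubring.pow_mem hy n)

/-- An element of all the valuation rings over `R` is integral over `R`. -/
private theorem t2_int [FiniteDimensional k F] {R : ValuationSubring k} (W : NVal R) {a : F}
    (ha : ∀ P' : ValuationSubring F, P'.comap (algebraMap k F) = R → a ∈ P') :
    IsIntegral R a := by
  have h1 : IsIntegral (((algebraMap k F).comp R.subtype).range) a := by
    refine integral_of_all _ a fun P' hP' => ?_
    have h2 : ∀ x ∈ R, x ∈ P'.comap (algebraMap k F) := by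
      intro x hx
      exact hP' ⟨⟨x, hx⟩, rfl⟩
    rcases t2_max W (P'.comap (algebraMap k F)) h2 with h3 | h3
    · exact ha P' h3
    · have h4 : IsIntegral P' ((RingHom.id F) a) := by
        have h5 : IsIntegral k a := Algebra.IsIntegral.isIntegral a
        refine IsIntegral.map_of_comp_eq ((algebraMap k F).codRestrict P'.toSubring
          (fun x => h3 x)) (RingHom.id F) ?_ h5
        ext x
        rfl
      obtain ⟨y, hy⟩ := (IsIntegrallyClosed.isIntegral_iff (R := P') (K := F)).1 h4
      have h6 : (y : F) = a := hy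
      rw [← h6]
      exact y.2
  obtain ⟨p, hp, hpa⟩ := h1
  have h7 : Function.Surjective (((algebraMap k F).comp R.subtype).rangeRestrict) :=
    RingHom.rangeRestrict_surjective _
  obtain ⟨q, hq, -, hqm⟩ := Polynomial.lifts_and_natDegree_eq_and_monic
    (f := ((algebraMap k F).comp R.subtype).rangeRestrict) (p := p)
    (by
      rw [Polynomial.lifts_iff_coeff_lifts]
      intro n
      exact h7 _) hp
  refine ⟨q, hqm, ?_⟩
  rw [← hpa, ← hq, Polynomial.eval₂_map]
  rfl

end aux

theorem trace_dual {k F : Type} [Field k] [Algebra ℂ k] [Field F] [Algebra k F]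
    [FiniteDimensional k F] {R : ValuationSubring k} (W : NVal R) (hC : Cst R)
    {P : ValuationSubring F} (V : NVal P) (hP : P.comap (algebraMap k F) = R) (z : F) (hz0 : z ≠ 0)
    (hz : ∀ s : F, (∀ P' : ValuationSubring F, P'.comap (algebraMap k F) = R → s ∈ P') →
      Algebra.trace k F (z * s) ∈ R) :
    1 ≤ V.v (algebraMap k F W.π * z) := by
  have : CharZero k := charZero_of_injective_algebraMap (algebraMap ℂ k).injective
  have : IsDiscreteValuationRing R := dvr_of_nval W
  have : Algebra.IsSeparable k F := Algebra.IsSeparable.of_integral k F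
  let S := integralClosure R F
  have : Module.Finite R S := IsIntegralClosure.finite R k F S
  have : Module.Free R S := IsIntegralClosure.module_free R k F S
  have hloc : IsLocalization (Algebra.algebraMapSubmonoid S (nonZeroDivisors R)) F :=
    IsIntegralClosure.isLocalization R k F S
  have hover : ∀ P' : ValuationSubring F, P'.comap (algebraMap k F) = R →
      ∀ x ∈ R, algebraMap k F x ∈ P' := by
    intro P' h x hx
    rw [← h] at hx
    exact hx
  have hSP : ∀ (s : S) (P' : ValuationSubring F), P'.comap (algebraMap k F) = R → (s : F) ∈ P' :=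
    fun s P' h => t2_mem P' (hover P' h) s.2
  have hback : ∀ x : k, algebraMap k F x ∈ P → x ∈ R := by
    intro x hx
    rw [← hP]
    exact hx
  have hw0 : algebraMap k F W.π * z ≠ 0 := mul_ne_zero ((map_ne_zero _).2 W.hπ) hz0
  let E : Ideal S :=
    { carrier := {s | ∃ b : S, (s : F) = algebraMap k F W.π * z * (b : F)}
      zero_mem' := ⟨0, by rw [ZeroMemClass.coe_zero, mul_zero]⟩
      add_mem' := by
        rintro s t ⟨b, hb⟩ ⟨c, hc⟩
        refine ⟨b + c, ?_⟩
        change (s : F) + (t : F) = algebraMap k F W.π * z * ((b : F) + (c : F))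
        rw [hb, hc, mul_add]
      smul_mem' := by
        rintro c s ⟨b, hb⟩
        refine ⟨c * b, ?_⟩
        change (c : F) * (s : F) = algebraMap k F W.π * z * ((c : F) * (b : F))
        rw [hb]
        ring }
  have hE : ∀ e ∈ E, Algebra.trace R S e ∈ IsLocalRing.maximalIdeal R := by
    rintro e ⟨b, hb⟩
    have h1 := Algebra.trace_localization R (S := S) (Rₘ := k) (Sₘ := F) (nonZeroDivisors R) e
    have h2 : algebraMap S F e = W.π • (z * (b : F)) := by
      change (e : F) = _
      rw [hb, Algebra.smul_def, mul_assoc]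
    rw [h2, map_smul, smul_eq_mul] at h1
    have h3 := hz (b : F) (hSP b)
    rw [IsLocalRing.mem_maximalIdeal, mem_nonunits_iff]
    intro hu
    obtain ⟨c, hc⟩ := isUnit_iff_exists_inv.1 hu
    have h4 : W.π * Algebra.trace k F (z * (b : F)) * (c : k) = 1 := by
      rw [h1]
      exact congrArg Subtype.val hc
    have h5 : W.π⁻¹ = Algebra.trace k F (z * (b : F)) * (c : k) := by
      rw [mul_assoc] at h4
      exact inv_eq_of_mul_eq_one_right h4
    have h6 : W.π⁻¹ ∈ R := by
      rw [h5]
      exact R.mul_mem _ _ h3 c.2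
    rw [W.mem _ (inv_ne_zero W.hπ), W.inv W.hπ, W.vπ] at h6
    omega
  have h0 : ∀ m : ℕ, m ≠ 0 → (m : IsLocalRing.ResidueField R) ≠ 0 := by
    intro m hm
    have h1 : (m : IsLocalRing.ResidueField R) = IsLocalRing.residue R (m : R) :=
      (map_natCast _ m).symm
    rw [h1, IsLocalRing.residue_ne_zero_iff_isUnit]
    refine isUnit_iff_exists_inv.2 ⟨⟨algebraMap ℂ k ((m : ℂ)⁻¹), hC _⟩, Subtype.ext ?_⟩
    change ((m : R) : k) * algebraMap ℂ k ((m : ℂ)⁻¹) = 1
    have h2 : ((m : R) : k) = algebraMap ℂ k (m : ℂ) := by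
      rw [map_natCast]
      rfl
    rw [h2, ← map_mul, mul_inv_cancel₀ (Nat.cast_ne_zero.2 hm), map_one]
  -- the elements of `S` of value less than one at `P`
  have hval : ∀ e ∈ E, P.valuation (e : F) < 1 := by
    intro e he
    obtain ⟨m, hm⟩ := nilp_of_trace h0 E hE e he
    let Q : Ideal S :=
      { carrier := {s | P.valuation (s : F) < 1}
        zero_mem' := by
          change P.valuation ((0 : S) : F) < 1
          rw [ZeroMemClass.coe_zero, map_zero]
          exact zero_lt_one
        add_mem' := by
          intro s t hs ht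
          change P.valuation ((s : F) + (t : F)) < 1
          exact lt_of_le_of_lt (P.valuation.map_add _ _) (max_lt hs ht)
        smul_mem' := by
          intro c s hs
          change P.valuation ((c : F) * (s : F)) < 1
          rw [map_mul]
          have h1 : P.valuation (c : F) ≤ 1 := (P.valuation_le_one_iff _).2 (hSP c P hP)
          exact lt_of_le_of_lt (mul_le_of_le_one_left' h1) hs }
    have hQ : (IsLocalRing.maximalIdeal R).map (algebraMap R S) ≤ Q := by
      rw [Ideal.map_le_iff_le_comap]
      intro r hr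
      change P.valuation (algebraMap k F (r : k)) < 1
      by_cases hr0 : (r : k) = 0
      · rw [hr0, map_zero, map_zero]
        exact zero_lt_one
      · have hr1 : algebraMap k F (r : k) ≠ 0 := (map_ne_zero _).2 hr0
        by_contra hcon
        rw [not_lt] at hcon
        have h2 : P.valuation (algebraMap k F (r : k)⁻¹) ≤ 1 := by
          rw [map_inv₀, map_inv₀]
          exact inv_le_one_of_one_le₀ hcon
        have h3 : (r : k)⁻¹ ∈ R := hback _ ((P.valuation_le_one_iff _).1 h2)
        rw [IsLocalRing.mem_maximalIdeal, mem_nonunits_iff] at hr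
        exact hr (isUnit_iff_exists_inv.2 ⟨⟨_, h3⟩, Subtype.ext (mul_inv_cancel₀ hr0)⟩)
    have h4 : P.valuation (((e ^ m : S)) : F) < 1 := hQ hm
    rw [SubmonoidClass.coe_pow, map_pow] at h4
    by_contra hcon
    rw [not_lt] at hcon
    exact absurd h4 (not_lt.2 (one_le_pow₀ hcon))
  by_contra hcon
  rw [not_le] at hcon
  have hu : (algebraMap k F W.π * z)⁻¹ ∈ P := by
    rw [V.mem _ (inv_ne_zero hw0), V.inv hw0]
    omega
  obtain ⟨a, s, has, hs1, hsa⟩ := frac_over W P hP _ hu
  have ha : IsIntegral R a := t2_int W fun P' h => (has P' h).1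
  have hs : IsIntegral R s := t2_int W fun P' h => (has P' h).2
  have h5 : s = algebraMap k F W.π * z * a := by
    rw [← hsa, mul_comm s, ← mul_assoc, mul_inv_cancel₀ hw0, one_mul]
  have h6 : (⟨s, hs⟩ : S) ∈ E := ⟨⟨a, ha⟩, h5⟩
  have h7 := hval _ h6
  exact absurd hs1 (ne_of_lt h7)

end PQ
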