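import Pool.Agent.Lib.MP_23b606_ag.PQ.Nv

/-!
PQ/RatFac: factorisation of rational functions in one variable, and their valuations.

`exists_factor`: numerator and denominator split (`IsAlgClosed.splits`, `Polynomial.roots`).
`exists_factor_adjoin`: an element of `ℂ⟮x⟯` is `p(x) / q(x)` (`IntermediateField.mem_adjoin_simple_iff`).
`v_X_neg`, `v_X_pos`: `r = C ∏ (X - c)^(a c)`, `v_prod_sub_neg`, `v_prod_sub_pos`: the values of
`W` are multiples of `W.v X` (`W.v (X - c)`), and `W.vπ` is `1`.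
`eq_of_neg`, `eq_of_pos`: `r` is in `R` iff `r = 0` or `∑ a c ≤ 0` (or the exponent at `c` is `≥ 0`):
at `X ∉ R` the `X - c` have value `> 1`, `(X - c) / X` is a unit; at `R.valuation (X - c) < 1` the
`X - c'`, `c' ≠ c`, are units.
-/

set_option autoImplicit false

open T1

open scoped IntermediateField

namespace PQ

private theorem rf_card (p : Polynomial ℂ) : p.roots.card = p.natDegree :=
  (IsAlgClosed.splits p).natDegree_eq_card_roots.symm

private theorem rf_poly {F : Type} [Field F] [Algebra ℂ F] (x : F) (p : Polynomial ℂ)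
    (T : Finset ℂ) (hT : p.roots.toFinset ⊆ T) :
    Polynomial.aeval x p = algebraMap ℂ F p.leadingCoeff *
      ∏ c ∈ T, (x - algebraMap ℂ F c) ^ (p.roots.count c) := by
  have h2 := Polynomial.C_leadingCoeff_mul_prod_multiset_X_sub_C (rf_card p)
  conv_lhs => rw [← h2]
  rw [map_mul, Polynomial.aeval_C, map_multiset_prod, Multiset.map_map,
    Finset.prod_multiset_map_count]
  congr 1
  rw [← Finset.prod_subset hT (fun c _ hc => by
    rw [Multiset.count_eq_zero_of_notMem (fun h => hc (Multiset.mem_toFinset.2 h)), pow_zero])]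
  refine Finset.prod_congr rfl fun c _ => ?_
  simp

private theorem rf_deg (p : Polynomial ℂ) (T : Finset ℂ) (hT : p.roots.toFinset ⊆ T) :
    p.natDegree = ∑ c ∈ T, p.roots.count c := by
  rw [← Finset.sum_subset hT (fun c _ hc =>
    Multiset.count_eq_zero_of_notMem (fun h => hc (Multiset.mem_toFinset.2 h))),
    Multiset.toFinset_sum_count_eq, rf_card]

private theorem rf_X (p : Polynomial ℂ) :
    algebraMap (Polynomial ℂ) (RatFunc ℂ) p = Polynomial.aeval (RatFunc.X : RatFunc ℂ) p := by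
  have h : (RatFunc.X : RatFunc ℂ) = algebraMap (Polynomial ℂ) (RatFunc ℂ) Polynomial.X :=
    RatFunc.algebraMap_X.symm
  rw [h, Polynomial.aeval_algebraMap_apply, Polynomial.aeval_X_left_apply]

theorem X_sub_ne (c : ℂ) : (RatFunc.X : RatFunc ℂ) - algebraMap ℂ (RatFunc ℂ) c ≠ 0 := by
  have h1 : (RatFunc.X : RatFunc ℂ) - algebraMap ℂ (RatFunc ℂ) c =
      algebraMap (Polynomial ℂ) (RatFunc ℂ) (Polynomial.X - Polynomial.C c) := by
    rw [rf_X]
    simp
  rw [h1]
  intro h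
  exact Polynomial.X_sub_C_ne_zero c ((map_eq_zero_iff _ (RatFunc.algebraMap_injective ℂ)).1 h)

/-- The quotient of two factorised elements. -/
private theorem rf_quot {F : Type} [Field F] [Algebra ℂ F] (x : F)
    (hx : ∀ c : ℂ, x - algebraMap ℂ F c ≠ 0) (p q : Polynomial ℂ) :
    Polynomial.aeval x p / Polynomial.aeval x q =
      algebraMap ℂ F (p.leadingCoeff / q.leadingCoeff) *
        ∏ c ∈ p.roots.toFinset ∪ q.roots.toFinset,
          (x - algebraMap ℂ F c) ^ ((p.roots.count c : ℤ) - (q.roots.count c : ℤ)) := by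
  rw [rf_poly x p _ Finset.subset_union_left, rf_poly x q _ Finset.subset_union_right,
    mul_div_mul_comm, ← Finset.prod_div_distrib, map_div₀]
  congr 1
  refine Finset.prod_congr rfl fun c _ => ?_
  rw [zpow_sub₀ (hx c), zpow_natCast, zpow_natCast]

theorem exists_factor (r : RatFunc ℂ) (hr : r ≠ 0) :
    ∃ (C : ℂ) (T : Finset ℂ) (a : ℂ → ℤ), C ≠ 0 ∧ r.intDegree = ∑ c ∈ T, a c ∧
      r = algebraMap ℂ (RatFunc ℂ) C *
        ∏ c ∈ T, (RatFunc.X - algebraMap ℂ (RatFunc ℂ) c) ^ a c := by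
  refine ⟨r.num.leadingCoeff / r.denom.leadingCoeff, r.num.roots.toFinset ∪ r.denom.roots.toFinset,
    fun c => (r.num.roots.count c : ℤ) - (r.denom.roots.count c : ℤ), ?_, ?_, ?_⟩
  · exact div_ne_zero (Polynomial.leadingCoeff_ne_zero.2 (RatFunc.num_ne_zero hr))
      (Polynomial.leadingCoeff_ne_zero.2 r.denom_ne_zero)
  · rw [RatFunc.intDegree, rf_deg r.num _ Finset.subset_union_left,
      rf_deg r.denom _ Finset.subset_union_right, Finset.sum_sub_distrib]
    push_cast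
    rfl
  · rw [← rf_quot _ X_sub_ne, ← rf_X, ← rf_X, RatFunc.num_div_denom]

theorem exists_factor_adjoin {F : Type} [Field F] [Algebra ℂ F] (x y : F) (hy : y ∈ ℂ⟮x⟯)
    (hy0 : y ≠ 0) : ∃ (C : ℂ) (T : Finset ℂ) (a : ℂ → ℤ), C ≠ 0 ∧
      y = algebraMap ℂ F C * ∏ c ∈ T, (x - algebraMap ℂ F c) ^ a c := by
  by_cases hx : ∃ c : ℂ, x - algebraMap ℂ F c = 0
  · obtain ⟨c, hc⟩ := hx
    have hxb : x ∈ (⊥ : IntermediateField ℂ F) :=
      IntermediateField.mem_bot.2 ⟨c, (sub_eq_zero.1 hc).symm⟩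
    rw [IntermediateField.adjoin_simple_eq_bot_iff.2 hxb] at hy
    obtain ⟨d, rfl⟩ := IntermediateField.mem_bot.1 hy
    refine ⟨d, ∅, fun _ => 0, ?_, ?_⟩
    · rintro rfl
      exact hy0 (map_zero _)
    · rw [Finset.prod_empty, mul_one]
  · push Not at hx
    obtain ⟨p, q, rfl⟩ := (IntermediateField.mem_adjoin_simple_iff ℂ _).1 hy
    have hp : p ≠ 0 := by
      rintro rfl
      exact hy0 (by rw [map_zero, zero_div])
    have hq : q ≠ 0 := by
      rintro rfl
      exact hy0 (by rw [map_zero, div_zero])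
    exact ⟨_, _, _, div_ne_zero (Polynomial.leadingCoeff_ne_zero.2 hp)
      (Polynomial.leadingCoeff_ne_zero.2 hq), rf_quot x hx p q⟩

theorem v_X_neg {R : ValuationSubring (RatFunc ℂ)} (W : NVal R) (hC : Cst R)
    (h : W.v RatFunc.X < 0) :
    W.v RatFunc.X = -1 ∧ ∀ r : RatFunc ℂ, r ≠ 0 → W.v r = -r.intDegree := by
  have h1 : ∀ r : RatFunc ℂ, r ≠ 0 → W.v r = r.intDegree * W.v RatFunc.X := by
    intro r hr
    obtain ⟨C, T, a, hCne, hdeg, hfac⟩ := exists_factor r hr
    rw [hdeg]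
    conv_lhs => rw [hfac]
    exact v_prod_sub_neg W hC RatFunc.X X_sub_ne hCne T a h
  have h2 := h1 W.π W.hπ
  rw [W.vπ] at h2
  have h3 : W.v RatFunc.X = -1 := by
    rcases Int.isUnit_iff.1 (IsUnit.of_mul_eq_one_right _ h2.symm) with h4 | h4
    · omega
    · exact h4
  refine ⟨h3, fun r hr => ?_⟩
  rw [h1 r hr, h3, mul_neg_one]

private theorem rf_cst {R : ValuationSubring (RatFunc ℂ)} (hC : Cst R) {c : ℂ} (hc : c ≠ 0) :
    R.valuation (algebraMap ℂ (RatFunc ℂ) c) = 1 := by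
  refine le_antisymm ((R.valuation_le_one_iff _).2 (hC c)) ?_
  have h1 : R.valuation (algebraMap ℂ (RatFunc ℂ) c⁻¹) ≤ 1 := (R.valuation_le_one_iff _).2 (hC _)
  have h2 : R.valuation (algebraMap ℂ (RatFunc ℂ) c) * R.valuation (algebraMap ℂ (RatFunc ℂ) c⁻¹) =
      1 := by
    rw [← map_mul, ← map_mul, mul_inv_cancel₀ hc, map_one, map_one]
  calc (1 : R.ValueGroup) = R.valuation (algebraMap ℂ (RatFunc ℂ) c) *
        R.valuation (algebraMap ℂ (RatFunc ℂ) c⁻¹) := h2.symm
    _ ≤ R.valuation (algebraMap ℂ (RatFunc ℂ) c) * 1 := by gcongr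
    _ = _ := mul_one _

/-- Membership at infinity. -/
private theorem rf_mem_neg {R : ValuationSubring (RatFunc ℂ)} (hC : Cst R)
    (h : RatFunc.X ∉ R) (r : RatFunc ℂ) (hr : r ≠ 0) : r ∈ R ↔ r.intDegree ≤ 0 := by
  have hX : 1 < R.valuation (RatFunc.X : RatFunc ℂ) := by
    rw [← not_le, R.valuation_le_one_iff]
    exact h
  have h1 : ∀ c : ℂ, R.valuation (RatFunc.X - algebraMap ℂ (RatFunc ℂ) c) =
      R.valuation (RatFunc.X : RatFunc ℂ) := by
    intro c
    refine Valuation.map_sub_eq_of_lt_left _ ?_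
    exact lt_of_le_of_lt ((R.valuation_le_one_iff _).2 (hC c)) hX
  obtain ⟨C, T, a, hCne, hdeg, hfac⟩ := exists_factor r hr
  have h2 : R.valuation r = R.valuation (RatFunc.X : RatFunc ℂ) ^ r.intDegree := by
    rw [hdeg]
    conv_lhs => rw [hfac]
    rw [map_mul, rf_cst hC hCne, one_mul, map_prod]
    have h3 : ∀ c ∈ T, R.valuation ((RatFunc.X - algebraMap ℂ (RatFunc ℂ) c) ^ a c) =
        R.valuation (RatFunc.X : RatFunc ℂ) ^ a c := fun c _ => by
      rw [map_zpow₀, h1]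
    rw [Finset.prod_congr rfl h3]
    clear h3 hfac hdeg
    classical
    induction T using Finset.induction_on with
    | empty => simp
    | insert b S hb ih =>
      rw [Finset.prod_insert hb, Finset.sum_insert hb, ih,
        zpow_add₀ (ne_of_gt (lt_trans zero_lt_one hX))]
  rw [← R.valuation_le_one_iff, h2]
  constructor
  · intro h4
    by_contra hcon
    push Not at hcon
    exact absurd h4 (not_le.2 (one_lt_zpow₀ hX hcon))
  · intro h4
    exact zpow_le_one_of_nonpos₀ hX.le h4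

/-- The valuation ring at infinity. -/
theorem eq_of_neg {R R' : ValuationSubring (RatFunc ℂ)} (hC : Cst R) (hC' : Cst R')
    (h : RatFunc.X ∉ R) (h' : RatFunc.X ∉ R') : R = R' := by
  ext r
  rcases eq_or_ne r 0 with rfl | hr
  · exact ⟨fun _ => R'.zero_mem, fun _ => R.zero_mem⟩
  · rw [rf_mem_neg hC h r hr, rf_mem_neg hC' h' r hr]

/-- Membership at a point. -/
private theorem rf_mem_pos {R : ValuationSubring (RatFunc ℂ)} (hC : Cst R) (c : ℂ)
    (h : R.valuation (RatFunc.X - algebraMap ℂ (RatFunc ℂ) c) < 1) {C : ℂ} (hCne : C ≠ 0)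
    (T : Finset ℂ) (a : ℂ → ℤ) :
    algebraMap ℂ (RatFunc ℂ) C * ∏ c ∈ T, (RatFunc.X - algebraMap ℂ (RatFunc ℂ) c) ^ a c ∈ R ↔
      (c ∈ T → 0 ≤ a c) := by
  classical
  have h0 : 0 < R.valuation (RatFunc.X - algebraMap ℂ (RatFunc ℂ) c) := by
    rw [Valuation.pos_iff]
    exact X_sub_ne c
  have h1 : ∀ c' : ℂ, c' ≠ c → R.valuation (RatFunc.X - algebraMap ℂ (RatFunc ℂ) c') = 1 := by
    intro c' hc'
    have h2 : (RatFunc.X : RatFunc ℂ) - algebraMap ℂ (RatFunc ℂ) c' =
        (RatFunc.X - algebraMap ℂ (RatFunc ℂ) c) + algebraMap ℂ (RatFunc ℂ) (c - c') := by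
      rw [map_sub]
      ring
    have h3 := rf_cst hC (sub_ne_zero.2 hc'.symm)
    rw [h2, Valuation.map_add_eq_of_lt_right _ (by rw [h3]; exact h), h3]
  rw [← R.valuation_le_one_iff, map_mul, rf_cst hC hCne, one_mul, map_prod]
  by_cases hc : c ∈ T
  · rw [Finset.prod_eq_single_of_mem c hc (fun c' _ hc' => by rw [map_zpow₀, h1 c' hc', one_zpow]),
      map_zpow₀]
    constructor
    · intro h4 _
      by_contra hcon
      push Not at hcon
      exact absurd h4 (not_le.2 (one_lt_zpow_of_neg₀ h0 h hcon))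
    · intro h4
      exact zpow_le_one₀ h0 h.le (h4 hc)
  · rw [Finset.prod_eq_one (fun c' hc' => by
      rw [map_zpow₀, h1 c' (fun h5 => hc (h5 ▸ hc')), one_zpow])]
    exact ⟨fun _ h6 => absurd h6 hc, fun _ => le_refl _⟩

/-- The valuation ring at `c`. -/
theorem eq_of_pos {R R' : ValuationSubring (RatFunc ℂ)} (hC : Cst R) (hC' : Cst R') (c : ℂ)
    (h : R.valuation (RatFunc.X - algebraMap ℂ (RatFunc ℂ) c) < 1)
    (h' : R'.valuation (RatFunc.X - algebraMap ℂ (RatFunc ℂ) c) < 1) : R = R' := by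
  ext r
  rcases eq_or_ne r 0 with rfl | hr
  · exact ⟨fun _ => R'.zero_mem, fun _ => R.zero_mem⟩
  · obtain ⟨C, T, a, hCne, -, hfac⟩ := exists_factor r hr
    rw [hfac, rf_mem_pos hC c h hCne T a, rf_mem_pos hC' c h' hCne T a]

/-- Polynomials not vanishing at `c` are units at `c`. -/
theorem v_poly_unit {R : ValuationSubring (RatFunc ℂ)} (W : NVal R) (hC : Cst R) (c : ℂ)
    (h : 0 < W.v (RatFunc.X - algebraMap ℂ (RatFunc ℂ) c)) (q : Polynomial ℂ)
    (hq : q.eval c ≠ 0) : W.v (algebraMap (Polynomial ℂ) (RatFunc ℂ) q) = 0 := by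
  have hq0 : q ≠ 0 := by
    rintro rfl
    exact hq (Polynomial.eval_zero)
  have h1 := v_prod_sub_pos W hC (RatFunc.X : RatFunc ℂ) X_sub_ne
    (Polynomial.leadingCoeff_ne_zero.2 hq0) q.roots.toFinset (fun c => (q.roots.count c : ℤ)) h
  have h2 : c ∉ q.roots.toFinset := fun h3 =>
    hq (Polynomial.isRoot_of_mem_roots (Multiset.mem_toFinset.1 h3))
  rw [if_neg h2, zero_mul] at h1
  rw [rf_X, rf_poly _ q _ (Finset.Subset.refl _)]
  simpa only [zpow_natCast] using h1

theorem v_X_pos {R : ValuationSubring (RatFunc ℂ)} (W : NVal R) (hC : Cst R) (c : ℂ)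
    (h : 0 < W.v (RatFunc.X - algebraMap ℂ (RatFunc ℂ) c)) :
    W.v (RatFunc.X - algebraMap ℂ (RatFunc ℂ) c) = 1 := by
  obtain ⟨C, T, a, hCne, -, hfac⟩ := exists_factor W.π W.hπ
  have h1 := v_prod_sub_pos W hC (RatFunc.X : RatFunc ℂ) X_sub_ne hCne T a h
  rw [← hfac, W.vπ] at h1
  rcases Int.isUnit_iff.1 (IsUnit.of_mul_eq_one_right _ h1.symm) with h4 | h4
  · exact h4
  · omega

end PQ
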