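import Pool.Agent.Lib.MP_23b606_ag.PQ.Rb
import Pool.Agent.Lib.MP_23b606_ag.PQ.Res
import Pool.Agent.Lib.MP_23b606_ag.PQ.RatFac
import Pool.Agent.Lib.MP_23b606_ag.PQ.LocT2

/-!
PQ/Dif: a reduced basis with some `d j ≥ 2` gives a regular differential `z dx`.

Proof: `z` is the element of the dual basis for the trace form: `Tr(z u) = b.repr u j` for all `u`
(`Algebra.traceForm` is nondegenerate). Let `At V x c`, `ψ = algebraMap (RatFunc ℂ) F`,
`R = P.comap ψ`, `W`, `a` from `exists_res` for `X - c`, `Cst R`.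

(1) `V (x - c) > 0`. `W (X - c) = 1` (`v_X_pos`), so `V (x - c) = a = V (ψ W.π)`, and the claim is
`trace_dual` for `z`. Let `s` be in all `P'` over `R`. Take `q` from `exists_fin` for `s`, write
`q = (X - c)^k q'`, `q'(c) ≠ 0`. Then `q' s` is in all `P' ⊇ ℂ` with `x ∈ P'`: if `x - c` is a unit at
`P'` then `q' s = (x - c)^(-k) q s`; otherwise `P'.comap ψ = R` (`eq_of_pos`) and `s ∈ P'`. So
`q' b.repr s j` is a polynomial (`Red.fin`), and `b.repr s j ∈ R` by `v_poly_unit`.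

(2) `V (x - c) < 0`. Then `V x = V (x - c) = -a` as `W X = -1` (`v_X_neg`), and the claim is
`trace_dual` for `x^2 z`: `V (ψ W.π x^2 z) = a - 2 a + V z`. Let `s` be in all `P'` over `R`; by
`eq_of_neg` these are all the `P' ⊇ ℂ` with `x ∉ P'`. So `X^(d j) b.repr s j` has degree `≤ 0`, hence
`Tr(x^2 z s) = X^2 b.repr s j` has degree `≤ 0` and is in `R` by `v_X_neg`.
-/

set_option autoImplicit false

open T1

namespace PQ

section dif

variable {F : Type} [Field F] [Algebra ℂ F] [Algebra (RatFunc ℂ) F]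
  [IsScalarTower ℂ (RatFunc ℂ) F]

/-- The valuation ring on the line contains the constants. -/
private theorem dif_cst {P : ValuationSubring F} (hC : Cst P) :
    Cst (P.comap (algebraMap (RatFunc ℂ) F)) := by
  intro c
  rw [ValuationSubring.mem_comap, ← IsScalarTower.algebraMap_apply ℂ (RatFunc ℂ) F]
  exact hC c

private theorem dif_sub (c : ℂ) :
    algebraMap (RatFunc ℂ) F (RatFunc.X - algebraMap ℂ (RatFunc ℂ) c) =
      algebraMap (RatFunc ℂ) F RatFunc.X - algebraMap ℂ F c := by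
  rw [map_sub, ← IsScalarTower.algebraMap_apply ℂ (RatFunc ℂ) F]

/-- Polynomials are regular where `X` is. -/
private theorem dif_poly {R : ValuationSubring (RatFunc ℂ)} (hC : Cst R) (hX : RatFunc.X ∈ R)
    (q : Polynomial ℂ) : algebraMap (Polynomial ℂ) (RatFunc ℂ) q ∈ R := by
  induction q using Polynomial.induction_on' with
  | add p q hp hq =>
    rw [map_add]
    exact R.add_mem _ _ hp hq
  | monomial n a =>
    rw [← Polynomial.C_mul_X_pow_eq_monomial, map_mul, map_pow, RatFunc.algebraMap_X]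
    refine R.mul_mem _ _ ?_ (pow_mem hX n)
    have h := hC a
    rwa [IsScalarTower.algebraMap_apply ℂ (Polynomial ℂ) (RatFunc ℂ)] at h

omit [Algebra ℂ F] [IsScalarTower ℂ (RatFunc ℂ) F] in
/-- The dual basis vector. -/
private theorem dif_dual [FiniteDimensional (RatFunc ℂ) F] {n : ℕ}
    (b : Module.Basis (Fin n) (RatFunc ℂ) F) (j : Fin n) :
    ∃ z : F, z ≠ 0 ∧ ∀ u : F, Algebra.trace (RatFunc ℂ) F (z * u) = b.repr u j := by
  classical
  have hB := traceForm_nondegenerate (RatFunc ℂ) F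
  refine ⟨(Algebra.traceForm (RatFunc ℂ) F).dualBasis hB b j, Module.Basis.ne_zero _ j,
    fun u => ?_⟩
  rw [← Algebra.traceForm_apply]
  conv_lhs => rw [← b.sum_repr u]
  rw [map_sum, Finset.sum_eq_single j]
  · rw [map_smul, LinearMap.BilinForm.apply_dualBasis_left, if_pos rfl, smul_eq_mul, mul_one]
  · intro i _ hi
    rw [map_smul, LinearMap.BilinForm.apply_dualBasis_left, if_neg hi, smul_zero]
  · intro h
    exact absurd (Finset.mem_univ j) h

/-- The finite places. -/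
private theorem dif_fin [FiniteDimensional (RatFunc ℂ) F] {n : ℕ}
    (b : Module.Basis (Fin n) (RatFunc ℂ) F) (d : Fin n → ℕ) (hb : Red b d) (j : Fin n)
    {R : ValuationSubring (RatFunc ℂ)} (W : NVal R) (hC : Cst R) (c : ℂ)
    (h : 0 < W.v (RatFunc.X - algebraMap ℂ (RatFunc ℂ) c)) (s : F)
    (hs : ∀ P' : ValuationSubring F, P'.comap (algebraMap (RatFunc ℂ) F) = R → s ∈ P') :
    b.repr s j ∈ R := by
  have hXc : RatFunc.X - algebraMap ℂ (RatFunc ℂ) c ∈ R := (W.mem _ (X_sub_ne c)).2 h.le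
  have hX : (RatFunc.X : RatFunc ℂ) ∈ R := by
    have h1 := R.add_mem _ _ hXc (hC c)
    rwa [sub_add_cancel] at h1
  have hRlt : R.valuation (RatFunc.X - algebraMap ℂ (RatFunc ℂ) c) < 1 :=
    (valuation_lt_one_iff W (X_sub_ne c)).2 h
  obtain ⟨q, hq, hqs⟩ := exists_fin (F := F) s
  obtain ⟨q', hq', hndvd⟩ := Polynomial.exists_eq_pow_rootMultiplicity_mul_and_not_dvd q hq c
  obtain ⟨k, hk⟩ : ∃ k, k = Polynomial.rootMultiplicity c q := ⟨_, rfl⟩
  rw [← hk] at hq'
  have hev : q'.eval c ≠ 0 := fun h0 => hndvd (Polynomial.dvd_iff_isRoot.2 h0)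
  -- `q' s` is regular at all the finite places
  have hall : ∀ P' : ValuationSubring F, Cst P' → algebraMap (RatFunc ℂ) F RatFunc.X ∈ P' →
      (algebraMap (Polynomial ℂ) (RatFunc ℂ) q') • s ∈ P' := by
    intro P' hC' hX'
    rw [Algebra.smul_def]
    have hq'P : algebraMap (RatFunc ℂ) F (algebraMap (Polynomial ℂ) (RatFunc ℂ) q') ∈ P' :=
      dif_poly (dif_cst hC') hX' q'
    have hxP : algebraMap (RatFunc ℂ) F RatFunc.X - algebraMap ℂ F c ∈ P' := by
      rw [sub_eq_add_neg, ← map_neg]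
      exact P'.add_mem _ _ hX' (hC' _)
    have hx0 : algebraMap (RatFunc ℂ) F RatFunc.X - algebraMap ℂ F c ≠ 0 := by
      rw [← dif_sub]
      exact (map_ne_zero _).2 (X_sub_ne c)
    by_cases hu : (algebraMap (RatFunc ℂ) F RatFunc.X - algebraMap ℂ F c)⁻¹ ∈ P'
    · have h1 := hqs P' hC' hX'
      have h2 : algebraMap (RatFunc ℂ) F (algebraMap (Polynomial ℂ) (RatFunc ℂ) q') * s =
          ((algebraMap (RatFunc ℂ) F RatFunc.X - algebraMap ℂ F c)⁻¹) ^ k *
            (algebraMap (RatFunc ℂ) F (algebraMap (Polynomial ℂ) (RatFunc ℂ) q) * s) := by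
        rw [hq', map_mul, map_mul, map_pow, map_pow, map_sub (algebraMap (Polynomial ℂ) _),
          RatFunc.algebraMap_X, RatFunc.algebraMap_C, ← RatFunc.algebraMap_eq_C, dif_sub, inv_pow]
        field_simp
      rw [h2]
      exact P'.mul_mem _ _ (pow_mem hu k) h1
    · have h1 : P'.comap (algebraMap (RatFunc ℂ) F) = R := by
        refine eq_of_pos (dif_cst hC') hC c ?_ hRlt
        have h2 : RatFunc.X - algebraMap ℂ (RatFunc ℂ) c ∈
            P'.comap (algebraMap (RatFunc ℂ) F) := by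
          rw [ValuationSubring.mem_comap, dif_sub]
          exact hxP
        have h3 : (RatFunc.X - algebraMap ℂ (RatFunc ℂ) c)⁻¹ ∉
            P'.comap (algebraMap (RatFunc ℂ) F) := by
          rw [ValuationSubring.mem_comap, map_inv₀, dif_sub]
          exact hu
        rw [← ValuationSubring.valuation_le_one_iff] at h2 h3
        refine lt_of_le_of_ne h2 fun h4 => h3 ?_
        rw [map_inv₀, h4, inv_one]
      exact P'.mul_mem _ _ hq'P (hs P' h1)
  obtain ⟨p, hp⟩ := (hb.fin _).1 hall j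
  rw [map_smul, Finsupp.smul_apply, smul_eq_mul] at hp
  have hq0 : algebraMap (Polynomial ℂ) (RatFunc ℂ) q' ≠ 0 := by
    rw [Ne, map_eq_zero_iff _ (RatFunc.algebraMap_injective ℂ)]
    rintro rfl
    exact hev Polynomial.eval_zero
  have hinv : (algebraMap (Polynomial ℂ) (RatFunc ℂ) q')⁻¹ ∈ R := by
    rw [W.mem _ (inv_ne_zero hq0), W.inv hq0, v_poly_unit W hC c h q' hev, neg_zero]
  have h5 : b.repr s j = (algebraMap (Polynomial ℂ) (RatFunc ℂ) q')⁻¹ *
      algebraMap (Polynomial ℂ) (RatFunc ℂ) p := by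
    rw [hp, inv_mul_cancel_left₀ hq0]
  rw [h5]
  exact R.mul_mem _ _ hinv (dif_poly hC hX p)

/-- The places at infinity. -/
private theorem dif_inf [FiniteDimensional (RatFunc ℂ) F] {n : ℕ}
    (b : Module.Basis (Fin n) (RatFunc ℂ) F) (d : Fin n → ℕ) (hb : Red b d) (j : Fin n)
    (hj : 2 ≤ d j) {R : ValuationSubring (RatFunc ℂ)} (W : NVal R) (hC : Cst R)
    (h : W.v RatFunc.X < 0) (s : F)
    (hs : ∀ P' : ValuationSubring F, P'.comap (algebraMap (RatFunc ℂ) F) = R → s ∈ P') :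
    (RatFunc.X : RatFunc ℂ) ^ 2 * b.repr s j ∈ R := by
  obtain ⟨h1, h2⟩ := v_X_neg W hC h
  have hX0 : (RatFunc.X : RatFunc ℂ) ≠ 0 := RatFunc.X_ne_zero
  have hXR : (RatFunc.X : RatFunc ℂ) ∉ R := by
    rw [W.mem _ hX0]
    omega
  by_cases h0 : b.repr s j = 0
  · rw [h0, mul_zero]
    exact R.zero_mem
  have h3 := (hb.inf s).1 (fun P' hC' hX' => hs P' (eq_of_neg (dif_cst hC') hC hX' hXR)) j
  have h4 := h2 _ (mul_ne_zero (pow_ne_zero (d j) hX0) h0)
  rw [W.mul _ _ (pow_ne_zero _ hX0) h0, v_pow W hX0, h1] at h4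
  rw [W.mem _ (mul_ne_zero (pow_ne_zero 2 hX0) h0), W.mul _ _ (pow_ne_zero _ hX0) h0,
    v_pow W hX0, h1]
  push_cast
  have h5 : (2 : ℤ) ≤ d j := by exact_mod_cast hj
  linarith

end dif

theorem exists_dif {F : Type} [Field F] [Algebra ℂ F] [Algebra (RatFunc ℂ) F]
    [IsScalarTower ℂ (RatFunc ℂ) F] [FiniteDimensional (RatFunc ℂ) F] {n : ℕ}
    (b : Module.Basis (Fin n) (RatFunc ℂ) F) (d : Fin n → ℕ) (hb : Red b d) (j : Fin n)
    (hj : 2 ≤ d j) : ∃ z : F, z ≠ 0 ∧ ∀ (P : ValuationSubring F) (V : NVal P), Cst P → ∀ c : ℂ,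
      At V (algebraMap (RatFunc ℂ) F RatFunc.X) c →
        1 ≤ V.v z + V.v (algebraMap (RatFunc ℂ) F RatFunc.X - algebraMap ℂ F c) := by
  obtain ⟨z, hz0, hz⟩ := dif_dual b j
  refine ⟨z, hz0, fun P V hC c hAt => ?_⟩
  have hAt' : V.v (algebraMap (RatFunc ℂ) F RatFunc.X - algebraMap ℂ F c) ≠ 0 := hAt
  obtain ⟨W, a, ha, hW⟩ := exists_res (algebraMap (RatFunc ℂ) F) V
    (RatFunc.X - algebraMap ℂ (RatFunc ℂ) c) (X_sub_ne c) (by rw [dif_sub]; exact hAt')
  have hCR := dif_cst hC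
  have hπ : algebraMap (RatFunc ℂ) F W.π ≠ 0 := (map_ne_zero _).2 W.hπ
  have hVπ : V.v (algebraMap (RatFunc ℂ) F W.π) = a := by
    rw [hW _ W.hπ, W.vπ, mul_one]
  have hWc := hW _ (X_sub_ne c)
  rw [dif_sub] at hWc
  have hX0 : (RatFunc.X : RatFunc ℂ) ≠ 0 := RatFunc.X_ne_zero
  have hx0 : algebraMap (RatFunc ℂ) F RatFunc.X ≠ 0 := (map_ne_zero _).2 hX0
  rcases lt_or_gt_of_ne hAt' with hneg | hpos
  · -- at infinity
    have hxP : algebraMap (RatFunc ℂ) F RatFunc.X ∉ P := by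
      intro h1
      have h2 : algebraMap (RatFunc ℂ) F RatFunc.X - algebraMap ℂ F c ∈ P := by
        rw [sub_eq_add_neg, ← map_neg]
        exact P.add_mem _ _ h1 (hC _)
      rw [V.mem] at h2
      · omega
      · rw [← dif_sub]
        exact (map_ne_zero _).2 (X_sub_ne c)
    have hVx : V.v (algebraMap (RatFunc ℂ) F RatFunc.X) < 0 := by
      rw [V.mem _ hx0] at hxP
      omega
    have hWX : W.v RatFunc.X < 0 := by
      have h1 := hW _ hX0
      rw [h1] at hVx
      by_contra h2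
      push Not at h2
      have h3 : 0 ≤ a * W.v RatFunc.X := mul_nonneg (by omega) h2
      omega
    have hWX1 := (v_X_neg W hCR hWX).1
    have hVx1 : V.v (algebraMap (RatFunc ℂ) F RatFunc.X) = -a := by
      rw [hW _ hX0, hWX1]
      ring
    have hVc := (v_sub_of_neg V hC hx0 hVx c).2
    have h1 := trace_dual W hCR V rfl (algebraMap (RatFunc ℂ) F RatFunc.X ^ 2 * z)
      (mul_ne_zero (pow_ne_zero 2 hx0) hz0) (fun s hs => by
        have h2 : algebraMap (RatFunc ℂ) F RatFunc.X ^ 2 * z * s =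
            ((RatFunc.X : RatFunc ℂ) ^ 2) • (z * s) := by
          rw [Algebra.smul_def, map_pow, mul_assoc]
        rw [h2, map_smul, smul_eq_mul, hz]
        exact dif_inf b d hb j hj W hCR hWX s hs)
    rw [V.mul _ _ hπ (mul_ne_zero (pow_ne_zero 2 hx0) hz0), V.mul _ _ (pow_ne_zero 2 hx0) hz0,
      v_pow V hx0, hVπ, hVx1] at h1
    rw [hVc, hVx1]
    push_cast at h1
    linarith
  · -- at a finite point
    have hWp : 0 < W.v (RatFunc.X - algebraMap ℂ (RatFunc ℂ) c) := by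
      by_contra h2
      push Not at h2
      have h3 : a * W.v (RatFunc.X - algebraMap ℂ (RatFunc ℂ) c) ≤ 0 :=
        mul_nonpos_of_nonneg_of_nonpos (by omega) h2
      omega
    have hW1 := v_X_pos W hCR c hWp
    rw [hW1, mul_one] at hWc
    have h1 := trace_dual W hCR V rfl z hz0 (fun s hs => by
      rw [hz]
      exact dif_fin b d hb j W hCR c hWp s hs)
    rw [V.mul _ _ hπ hz0, hVπ] at h1
    rw [hWc]
    linarith

end PQ
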