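import Pool.Agent.Lib.MP_23b606_ag.PQ.Wts
import Pool.Agent.Lib.MP_23b606_ag.PQ.Res
import Pool.Agent.Lib.MP_23b606_ag.PQ.Tr

/-!
PQ/Fac: one factor at one divisor. `K`, `F` are subfields of `L`, `k = K ∩ F`, `V` a valuation of `K`,
`V'` an extension of it to `L` with ramification index `e`.

Proof: `Cst O'` as `V' c = e V c = 0` for constants `c ≠ 0`. If `V (T - c) = 0` for all `c` then
`V' (t - c) = 0` for all `c`, so by `v_eq_zero` (`F` is algebraic over `ℂ⟮t⟯`: `hF.fin`) `V' = 0` on `F`, and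
`V H' = 0`. Otherwise take `c` with `V (T - c) ≠ 0`. `ψ : k → K` the inclusion, `W`, `a` from `exists_res`:
`V H' + 12 V (T - c) = a (W h + 12 W (t - c)) ≥ a ρ ≥ ρ` (`H.down`). If `e = 1` then with `W'`, `b` from
`exists_res` for `F → L` and `V'`: `V H' + 12 V (T - c) = V' h + 12 V' (t - c) = b (W' h + 12 W' (t - c)) ≥ 12 b`
(`H.up`).
-/

set_option autoImplicit false

open T1

open scoped IntermediateField

namespace PQ

/-- Algebraic over `ℂ(t)` in `F`, hence in `L`. -/
private theorem fac_alg {L : Type} [Field L] [Algebra ℂ L] (F : IntermediateField ℂ L) (t : F)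
    (x : F) (hx : IsAlgebraic ℂ⟮t⟯ x) : IsAlgebraic ℂ⟮(t : L)⟯ (x : L) := by
  have hmem : ∀ y : F, y ∈ ℂ⟮t⟯ → (y : L) ∈ ℂ⟮(t : L)⟯ := by
    intro y hy
    have h1 : F.val y ∈ (ℂ⟮t⟯).map F.val := ⟨y, hy, rfl⟩
    rw [IntermediateField.adjoin_map, Set.image_singleton] at h1
    exact h1
  let f : ℂ⟮t⟯ →+* ℂ⟮(t : L)⟯ :=
    { toFun := fun y => ⟨((y : F) : L), hmem y y.2⟩
      map_one' := rfl
      map_mul' := fun _ _ => rfl
      map_zero' := rfl
      map_add' := fun _ _ => rfl }
  exact hx.ringHom_of_comp_eq f F.val.toRingHom f.injective rfl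

/-- The comparison of the logarithmic orders. -/
private theorem fac_mul {a r y : ℤ} (ha : 1 ≤ a) (hr : 0 ≤ r) (h : r ≤ y) : r ≤ a * y := by
  nlinarith

theorem factor {L : Type} [Field L] [Algebra ℂ L] (K F : IntermediateField ℂ L) (hF : Crv F)
    (ρ : ℕ) (t h : F) (H : Frm (K.comap F.val) ρ t h) {O : ValuationSubring K} (V : NVal O)
    (hC : Cst O) {O' : ValuationSubring L} (V' : NVal O') (e : ℤ) (he : 1 ≤ e)
    (hV : ∀ x : K, x ≠ 0 → V'.v (x : L) = e * V.v x) (T H' : K) (hT : (T : L) = t)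
    (hH : (H' : L) = h) :
    ((∀ c : ℂ, V.v (T - algebraMap ℂ K c) = 0) ∧ V.v H' = 0 ∧
      ∀ x : F, x ≠ 0 → V'.v (x : L) = 0) ∨
    ∃ c : ℂ, V.v (T - algebraMap ℂ K c) ≠ 0 ∧
      (ρ : ℤ) ≤ V.v H' + 12 * V.v (T - algebraMap ℂ K c) ∧
      (e = 1 → 12 ≤ V.v H' + 12 * V.v (T - algebraMap ℂ K c)) := by
  have hC' : Cst O' := by
    intro c
    by_cases hc : c = 0
    · rw [hc, map_zero]
      exact O'.zero_mem
    · have h0 : algebraMap ℂ K c ≠ 0 := (map_ne_zero _).2 hc
      have h1 := hV _ h0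
      rw [v_const V hC hc, mul_zero] at h1
      have h2 : ((algebraMap ℂ K c : K) : L) = algebraMap ℂ L c := rfl
      rw [h2] at h1
      exact (V'.mem _ ((map_ne_zero _).2 hc)).2 h1.ge
  have htne : ∀ c : ℂ, t - algebraMap ℂ F c ≠ 0 := by
    intro c hc
    apply H.tr
    rw [sub_eq_zero.1 hc]
    exact isAlgebraic_algebraMap c
  have hTL : ∀ c : ℂ, ((T - algebraMap ℂ K c : K) : L) = ((t - algebraMap ℂ F c : F) : L) := by
    intro c
    change (T : L) - algebraMap ℂ L c = (t : L) - algebraMap ℂ L c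
    rw [hT]
  have hTne : ∀ c : ℂ, T - algebraMap ℂ K c ≠ 0 := by
    intro c hc
    have h1 := hTL c
    rw [hc] at h1
    exact htne c (Subtype.ext h1.symm)
  have hhL : (h : L) ≠ 0 := fun h0 => H.ne (Subtype.ext h0)
  have hHne : H' ≠ 0 := by
    rintro rfl
    exact hhL hH.symm
  have hVT : ∀ c : ℂ, V'.v ((t - algebraMap ℂ F c : F) : L) = e * V.v (T - algebraMap ℂ K c) := by
    intro c
    rw [← hTL c]
    exact hV _ (hTne c)
  have hVH : V'.v (h : L) = e * V.v H' := by
    rw [← hH]
    exact hV _ hHne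
  by_cases h0 : ∀ c : ℂ, V.v (T - algebraMap ℂ K c) = 0
  · left
    have h1 : ∀ x : F, x ≠ 0 → V'.v (x : L) = 0 := by
      intro x hx
      have := hF.fin t H.tr
      have h2 : IsAlgebraic ℂ⟮t⟯ x := Algebra.IsAlgebraic.isAlgebraic x
      refine v_eq_zero V' hC' (t : L) ?_ ?_ (x : L) (fac_alg F t x h2) ?_
      · intro c hc
        exact htne c (Subtype.ext hc)
      · intro c
        have h3 := hVT c
        rw [h0 c, mul_zero] at h3
        exact h3
      · exact fun h3 => hx (Subtype.ext h3)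
    refine ⟨h0, ?_, h1⟩
    have h2 := h1 h H.ne
    rw [hVH] at h2
    rcases mul_eq_zero.1 h2 with h3 | h3
    · omega
    · exact h3
  · right
    push Not at h0
    obtain ⟨c, hc⟩ := h0
    refine ⟨c, hc, ?_, ?_⟩
    · let ψ : (K.comap F.val : IntermediateField ℂ F) →+* K :=
        { toFun := fun y => ⟨((y : F) : L), y.2⟩
          map_one' := rfl
          map_mul' := fun _ _ => rfl
          map_zero' := rfl
          map_add' := fun _ _ => rfl }
      set tk : (K.comap F.val : IntermediateField ℂ F) := ⟨t, H.t_mem⟩ with htk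
      set hk : (K.comap F.val : IntermediateField ℂ F) := ⟨h, H.h_mem⟩ with hhk
      have e1 : ψ tk = T := Subtype.ext hT.symm
      have e2 : ψ hk = H' := Subtype.ext hH.symm
      have e3 : ∀ c : ℂ, ψ (algebraMap ℂ (K.comap F.val : IntermediateField ℂ F) c) =
          algebraMap ℂ K c := fun c => rfl
      have e4 : ψ (tk - algebraMap ℂ (K.comap F.val : IntermediateField ℂ F) c) =
          T - algebraMap ℂ K c := by
        rw [map_sub, e1, e3]
      have hne : tk - algebraMap ℂ (K.comap F.val : IntermediateField ℂ F) c ≠ 0 := by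
        intro h1
        rw [h1, map_zero] at e4
        exact hTne c e4.symm
      obtain ⟨W, a, ha, hW⟩ := exists_res ψ V _ hne (by rw [e4]; exact hc)
      have hCW : Cst (O.comap ψ) := fun c => hC c
      have h1 := hW _ hne
      rw [e4] at h1
      have h2 : hk ≠ 0 := by
        intro h3
        rw [h3, map_zero] at e2
        exact hHne e2.symm
      have h3 := hW _ h2
      rw [e2] at h3
      have h4 : At W tk c := by
        intro h5
        rw [h5, mul_zero] at h1
        exact hc h1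
      have h5 := H.down (O.comap ψ) W hCW c h4
      have h6 := fac_mul ha (Int.natCast_nonneg ρ) h5
      rw [h1, h3]
      linarith
    · intro he1
      rw [he1, one_mul] at hVH
      have hVT1 := hVT c
      rw [he1, one_mul] at hVT1
      have e1 : F.val.toRingHom (t - algebraMap ℂ F c) = ((t - algebraMap ℂ F c : F) : L) := rfl
      obtain ⟨W, b, hb, hW⟩ := exists_res F.val.toRingHom V' _ (htne c)
        (by rw [e1, hVT1]; exact hc)
      have hCW : Cst (O'.comap F.val.toRingHom) := fun c => hC' c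
      have h1 := hW _ (htne c)
      rw [e1, hVT1] at h1
      have h3 := hW _ H.ne
      have e2 : F.val.toRingHom h = (h : L) := rfl
      rw [e2, hVH] at h3
      have h4 : At W t c := by
        intro h5
        rw [h5, mul_zero] at h1
        exact hc h1
      have h5 := H.up _ W hCW c h4
      have h6 := fac_mul hb (by norm_num) h5
      rw [h1, h3]
      linarith

end PQ
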