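import Pool.Agent.Lib.MP_23b606_ag.PQ.Sup

/-!
PQ/Hd: bounded denominators.

`exists_fin`: `u` is algebraic over the image of `ℂ[X]`, so `q u` is integral over it for some
`q ≠ 0` (`exists_integral_multiple`-like), `mem_of_integral`.
`exists_inf`: `u^m + r_1 u^(m-1) + ... + r_m = 0` with `r_i ∈ RatFunc ℂ`; take `d` with
`(r_i).intDegree ≤ d` for all `i`, `d ≥ 0`. For `P` with `x ∉ P` one has `x⁻¹ ∈ P` of value `< 1`,
and every `r` with `r.intDegree ≤ 0` is in `P` (numerator and denominator are powers of `x` times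
polynomials in `x⁻¹`, that of the denominator with nonzero constant term). `u x^(-d)` is a root of
a monic polynomial with the coefficients `r_i x^(-d i)`, of degree `≤ 0`, so lies in `P`.
-/

set_option autoImplicit false

namespace PQ

variable {F : Type} [Field F] [Algebra ℂ F] [Algebra (RatFunc ℂ) F]
  [IsScalarTower ℂ (RatFunc ℂ) F]

omit [Algebra (RatFunc ℂ) F] [IsScalarTower ℂ (RatFunc ℂ) F] in
private theorem Hd_trivial (P : ValuationSubring F) (hC : Cst P) :
    P.valuation.IsTrivialOn ℂ := by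
  refine ⟨fun c hc => ?_⟩
  have h0 : algebraMap ℂ F c ≠ 0 := (map_ne_zero _).2 hc
  have h1 : P.valuation (algebraMap ℂ F c) ≤ 1 := (P.valuation_le_one_iff _).2 (hC c)
  have h2 : P.valuation (algebraMap ℂ F c)⁻¹ ≤ 1 := by
    rw [← map_inv₀]
    exact (P.valuation_le_one_iff _).2 (hC _)
  have h3 : P.valuation (algebraMap ℂ F c) * P.valuation (algebraMap ℂ F c)⁻¹ = 1 := by
    rw [← map_mul, mul_inv_cancel₀ h0, map_one]
  refine le_antisymm h1 ?_
  rw [← h3]
  exact mul_le_of_le_one_right' h2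

private theorem Hd_poly (p : Polynomial ℂ) :
    algebraMap (RatFunc ℂ) F (algebraMap (Polynomial ℂ) (RatFunc ℂ) p) =
      Polynomial.aeval (algebraMap (RatFunc ℂ) F RatFunc.X) p := by
  rw [Polynomial.aeval_algebraMap_apply]
  congr 1
  rw [← RatFunc.algebraMap_X, Polynomial.aeval_algebraMap_apply, Polynomial.aeval_X_left_apply]

private theorem Hd_poly_mem (P : ValuationSubring F) (hC : Cst P)
    (hP : algebraMap (RatFunc ℂ) F RatFunc.X ∈ P) (p : Polynomial ℂ) :
    algebraMap (RatFunc ℂ) F (algebraMap (Polynomial ℂ) (RatFunc ℂ) p) ∈ P := by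
  rw [Hd_poly, Polynomial.aeval_eq_sum_range]
  refine P.toSubring.sum_mem fun i _ => ?_
  rw [Algebra.smul_def]
  exact P.mul_mem _ _ (hC _) (P.toSubring.pow_mem hP i)

/-- Rational functions of degree `≤ 0` are regular at `x = ∞`. -/
theorem mem_of_intDegree (P : ValuationSubring F) (hC : Cst P)
    (hP : algebraMap (RatFunc ℂ) F RatFunc.X ∉ P) (r : RatFunc ℂ) (hr : r.intDegree ≤ 0) :
    algebraMap (RatFunc ℂ) F r ∈ P := by
  have hT := Hd_trivial P hC
  have h1 : 1 < P.valuation (algebraMap (RatFunc ℂ) F RatFunc.X) := by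
    by_contra hcon
    exact hP ((P.valuation_le_one_iff _).1 (not_lt.1 hcon))
  by_cases h0 : r = 0
  · rw [h0, map_zero]
    exact P.zero_mem
  have hn : r.num ≠ 0 := RatFunc.num_ne_zero h0
  have hd : r.denom ≠ 0 := RatFunc.denom_ne_zero r
  have hdeg : r.num.natDegree ≤ r.denom.natDegree := by
    unfold RatFunc.intDegree at hr
    omega
  rw [← P.valuation_le_one_iff, ← RatFunc.num_div_denom r, map_div₀, map_div₀, Hd_poly, Hd_poly,
    Polynomial.valuation_aeval_eq_valuation_X_pow_natDegree_of_one_lt_valuation_X _ h1 hn,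
    Polynomial.valuation_aeval_eq_valuation_X_pow_natDegree_of_one_lt_valuation_X _ h1 hd]
  refine div_le_one_of_le₀ ?_ zero_le
  exact pow_le_pow_right₀ h1.le hdeg

omit [Algebra ℂ F] [IsScalarTower ℂ (RatFunc ℂ) F] in
private theorem Hd_monic (P : ValuationSubring F) (p : Polynomial (RatFunc ℂ)) (hp : p.Monic)
    (hc : ∀ i, algebraMap (RatFunc ℂ) F (p.coeff i) ∈ P) (w : F)
    (hw : Polynomial.aeval w p = 0) : w ∈ P := by
  refine mem_of_integral P.toSubring w ?_ P le_rfl
  have hc' : (↑(p.map (algebraMap (RatFunc ℂ) F)).coeffs : Set F) ⊆ P.toSubring := by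
    intro y hy
    obtain ⟨n, -, rfl⟩ := Polynomial.mem_coeffs_iff.1 (Finset.mem_coe.1 hy)
    rw [Polynomial.coeff_map]
    exact hc n
  refine ⟨(p.map (algebraMap (RatFunc ℂ) F)).toSubring P.toSubring hc',
    (Polynomial.monic_toSubring _ _ _).2 (hp.map _), ?_⟩
  have h1 := Polynomial.map_toSubring (p.map (algebraMap (RatFunc ℂ) F)) P.toSubring hc'
  have h2 : algebraMap P.toSubring F = P.toSubring.subtype := rfl
  rw [h2, Polynomial.eval₂_eq_eval_map, h1, Polynomial.eval_map_algebraMap]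
  exact hw

theorem exists_inf [FiniteDimensional (RatFunc ℂ) F] (u : F) :
    ∃ d : ℕ, ∀ P : ValuationSubring F, Cst P → algebraMap (RatFunc ℂ) F RatFunc.X ∉ P →
      (algebraMap (RatFunc ℂ) F RatFunc.X ^ d)⁻¹ * u ∈ P := by
  have hu : IsIntegral (RatFunc ℂ) u := Algebra.IsIntegral.isIntegral u
  have hm := minpoly.monic hu
  obtain ⟨p, hp⟩ : ∃ p : Polynomial (RatFunc ℂ), p = minpoly (RatFunc ℂ) u := ⟨_, rfl⟩
  rw [← hp] at hm
  have hpu : Polynomial.aeval u p = 0 := by rw [hp, minpoly.aeval]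
  refine ⟨∑ i ∈ Finset.range p.natDegree, (p.coeff i).intDegree.toNat, fun P hC hP => ?_⟩
  obtain ⟨d, hd⟩ : ∃ d : ℕ, d = ∑ i ∈ Finset.range p.natDegree, (p.coeff i).intDegree.toNat :=
    ⟨_, rfl⟩
  rw [← hd]
  have hdi : ∀ i < p.natDegree, (p.coeff i).intDegree ≤ d := by
    intro i hi
    have h1 : (p.coeff i).intDegree.toNat ≤ d := by
      rw [hd]
      exact Finset.single_le_sum (f := fun i => (p.coeff i).intDegree.toNat)
        (fun _ _ => Nat.zero_le _) (Finset.mem_range.2 hi)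
    have h2 := Int.self_le_toNat (p.coeff i).intDegree
    omega
  have h1 := Polynomial.scaleRoots_aeval_eq_zero (r := (RatFunc.X ^ d)⁻¹) hpu
  rw [map_inv₀, map_pow] at h1
  refine Hd_monic P _ ((Polynomial.monic_scaleRoots_iff _).2 hm) (fun i => ?_) _ h1
  rw [Polynomial.coeff_scaleRoots]
  rcases lt_trichotomy i p.natDegree with hi | hi | hi
  · refine mem_of_intDegree P hC hP _ ?_
    by_cases h0 : p.coeff i = 0
    · rw [h0, zero_mul, RatFunc.intDegree_zero]
    have hX : (RatFunc.X : RatFunc ℂ) ≠ 0 := RatFunc.X_ne_zero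
    have hXn : ∀ n : ℕ, ((RatFunc.X : RatFunc ℂ) ^ n).intDegree = n := by
      intro n
      induction n with
      | zero => rw [pow_zero, RatFunc.intDegree_one, Nat.cast_zero]
      | succ n ih =>
        rw [pow_succ, RatFunc.intDegree_mul (pow_ne_zero _ hX) hX, ih, RatFunc.intDegree_X]
        push_cast
        ring
    rw [inv_pow, ← pow_mul, RatFunc.intDegree_mul h0 (inv_ne_zero (pow_ne_zero _ hX)),
      RatFunc.intDegree_inv, hXn]
    have h2 := hdi i hi
    have h3 : 1 ≤ p.natDegree - i := by omega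
    have h4 : d ≤ d * (p.natDegree - i) := Nat.le_mul_of_pos_right d h3
    have h5 : (d : ℤ) ≤ ((d * (p.natDegree - i) : ℕ) : ℤ) := by exact_mod_cast h4
    omega
  · rw [hi, Nat.sub_self, pow_zero, mul_one, ← Polynomial.leadingCoeff, hm.leadingCoeff, map_one]
    exact P.one_mem
  · rw [Polynomial.coeff_eq_zero_of_natDegree_lt hi, zero_mul, map_zero]
    exact P.zero_mem

theorem exists_fin [FiniteDimensional (RatFunc ℂ) F] (u : F) :
    ∃ q : Polynomial ℂ, q ≠ 0 ∧ ∀ P : ValuationSubring F, Cst P →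
      algebraMap (RatFunc ℂ) F RatFunc.X ∈ P →
        algebraMap (RatFunc ℂ) F (algebraMap (Polynomial ℂ) (RatFunc ℂ) q) * u ∈ P := by
  have hu : IsIntegral (RatFunc ℂ) u := Algebra.IsIntegral.isIntegral u
  have hm := minpoly.monic hu
  obtain ⟨p, hp⟩ : ∃ p : Polynomial (RatFunc ℂ), p = minpoly (RatFunc ℂ) u := ⟨_, rfl⟩
  rw [← hp] at hm
  have hpu : Polynomial.aeval u p = 0 := by rw [hp, minpoly.aeval]
  obtain ⟨b, hb⟩ := IsLocalization.exist_integer_multiples (nonZeroDivisors (Polynomial ℂ))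
    (Finset.range p.natDegree) (fun i => p.coeff i)
  refine ⟨b, nonZeroDivisors.ne_zero b.2, fun P hC hP => ?_⟩
  have h1 := Polynomial.scaleRoots_aeval_eq_zero
    (r := algebraMap (Polynomial ℂ) (RatFunc ℂ) (b : Polynomial ℂ)) hpu
  refine Hd_monic P _ ((Polynomial.monic_scaleRoots_iff _).2 hm) (fun i => ?_) _ h1
  rw [Polynomial.coeff_scaleRoots]
  rcases lt_trichotomy i p.natDegree with hi | hi | hi
  · obtain ⟨c, hc⟩ := hb i (Finset.mem_range.2 hi)
    obtain ⟨k, hk⟩ : ∃ k, p.natDegree - i = k + 1 := ⟨p.natDegree - i - 1, by omega⟩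
    have h2 : p.coeff i * algebraMap (Polynomial ℂ) (RatFunc ℂ) (b : Polynomial ℂ) ^
        (p.natDegree - i) = algebraMap (Polynomial ℂ) (RatFunc ℂ) (c * (b : Polynomial ℂ) ^ k) := by
      rw [hk, map_mul, hc, map_pow, Algebra.smul_def]
      ring
    rw [h2]
    exact Hd_poly_mem P hC hP _
  · rw [hi, Nat.sub_self, pow_zero, mul_one, ← Polynomial.leadingCoeff, hm.leadingCoeff, map_one]
    exact P.one_mem
  · rw [Polynomial.coeff_eq_zero_of_natDegree_lt hi, zero_mul, map_zero]
    exact P.zero_mem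

end PQ
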