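import Mathlib

/-!
PQ/In1: trivial inertia group implies unramified (Dedekind domains, residue characteristic zero).

Proof: `Ideal.card_inertia_eq_ramificationIdxIn` (Mathlib, NumberTheory/RamificationInertia/Galois):
`Nat.card (P.inertia G) = Ideal.ramificationIdxIn p S`, and `ramificationIdxIn_eq_ramificationIdx`.
If the inertia group is trivial then the ramification index of `P` is `1`, so the image of `p` is not
in `P^2`. The residue field of `p` has characteristic zero, so is perfect.
-/

set_option autoImplicit false

open scoped Pointwise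

namespace PQ

theorem not_le_sq {R S G : Type} [CommRing R] [IsDomain R] [IsDedekindDomain R] [CommRing S]
    [IsDomain S] [IsDedekindDomain S] [Algebra R S] [Module.Finite R S] [FaithfulSMul R S]
    [Group G] [Finite G] [MulSemiringAction G S] [IsGaloisGroup G R S] (p : Ideal R) [p.IsMaximal]
    (hp : p ≠ ⊥) (P : Ideal S) [P.IsMaximal] [P.LiesOver p] (hchar : CharZero (R ⧸ p))
    (hI : ∀ g : G, (∀ x : S, g • x - x ∈ P) → g = 1) :
    ¬ p.map (algebraMap R S) ≤ P ^ 2 := by
  have : Module.IsTorsionFree R S := inferInstance
  have : CharZero p.ResidueField :=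
    charZero_of_injective_algebraMap (IsFractionRing.injective (R ⧸ p) p.ResidueField)
  have h1 : Nat.card (P.inertia G) = 1 := by
    rw [Nat.card_eq_one_iff_unique]
    refine ⟨⟨fun a b => Subtype.ext ?_⟩, ⟨1⟩⟩
    rw [hI a.1 a.2, hI b.1 b.2]
  rw [Ideal.card_inertia_eq_ramificationIdxIn p P,
    Ideal.ramificationIdxIn_eq_ramificationIdx p P G,
    ← Ideal.ramificationIdx'_eq_ramificationIdx p P hp] at h1
  have h2 : p.map (algebraMap R S) ≤ P :=
    Ideal.map_le_iff_le_comap.2 (Ideal.LiesOver.over (P := P) (p := p)).le
  intro h3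
  exact (Ideal.ramificationIdx'_ne_one_iff h2).2 h3 h1

end PQ
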