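import Pool.Agent.Lib.MP_23b606_ag.PQ.LocA

/-!
PQ/LocB: an element which generates the maximal ideal of one of the valuation rings over `R` and is
a unit at all the others.

Proof: `D = integralClosure R F` is a semilocal Dedekind domain (finitely many primes over the
maximal ideal of `R`, every nonzero prime of `D` lies over it), so a principal ideal domain
(`IsPrincipalIdealRing.of_finite_primes`). `m₀ = m_{P₀} ∩ D = (π)`. By `ded` the elements of `P₀`
are `a / s`, `s ∉ m₀`; so `V₀.v π = 1` (`V₀.π = a / s` with `a ∈ m₀`, `a = π b`, so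
`1 = V₀.v π + V₀.v b`, `V₀.v π ≥ 1`). For `P ≠ P₀` over `R` the prime `m_P ∩ D` differs from `m₀`
(otherwise `P = D_{m₀} = P₀` by `ded`) so does not contain `π`.
-/

set_option autoImplicit false

open T1

namespace PQ

private theorem lb_mem {k F : Type} [Field k] [Field F] [Algebra k F] {R : ValuationSubring k}
    (P : ValuationSubring F) (hP : P.comap (algebraMap k F) = R) (d : integralClosure R F) :
    (d : F) ∈ P := by
  have h1 : (algebraMap R F).IsIntegralElem (d : F) := d.2
  have hR : ∀ r : R, ((algebraMap k F).comp R.subtype) r ∈ P := by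
    intro r
    have h : (r : k) ∈ P.comap (algebraMap k F) := by
      rw [hP]
      exact r.2
    exact h
  have h2 : algebraMap R F =
      (algebraMap P F).comp (((algebraMap k F).comp R.subtype).codRestrict P hR) :=
    RingHom.ext fun r => rfl
  rw [h2] at h1
  have h3 : IsIntegral P (d : F) := h1.of_comp
  obtain ⟨y, hy⟩ := IsIntegrallyClosed.isIntegral_iff.1 h3
  rw [← hy]
  exact y.2

private theorem lb_top {k F : Type} [Field k] [Field F] [Algebra k F] {R : ValuationSubring k}
    (W : NVal R) (P : ValuationSubring F) (hP : P.comap (algebraMap k F) = R) : P ≠ ⊤ := by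
  intro h
  have h1 : W.π⁻¹ ∈ P.comap (algebraMap k F) := by
    rw [h]
    exact ValuationSubring.mem_top _
  rw [hP, W.mem _ (inv_ne_zero W.hπ), W.inv W.hπ, W.vπ] at h1
  omega

/-- The inclusion of the integral closure. -/
private def lb_φ {k F : Type} [Field k] [Field F] [Algebra k F] {R : ValuationSubring k}
    (P : ValuationSubring F) (hP : P.comap (algebraMap k F) = R) : integralClosure R F →+* P :=
  ((integralClosure R F).val : integralClosure R F →+* F).codRestrict P (lb_mem P hP)

/-- The maximal ideal. -/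
private def lb_m {k F : Type} [Field k] [Field F] [Algebra k F] {R : ValuationSubring k}
    (P : ValuationSubring F) (hP : P.comap (algebraMap k F) = R) : Ideal (integralClosure R F) :=
  (IsLocalRing.maximalIdeal P).comap (lb_φ P hP)

private theorem lb_mem_m {k F : Type} [Field k] [Field F] [Algebra k F] {R : ValuationSubring k}
    (P : ValuationSubring F) (hP : P.comap (algebraMap k F) = R) (d : integralClosure R F) :
    d ∈ lb_m P hP ↔ P.valuation (d : F) < 1 := by
  unfold lb_m
  rw [Ideal.mem_comap]
  exact P.valuation_lt_one_iff _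

private theorem lb_prime {k F : Type} [Field k] [Field F] [Algebra k F] {R : ValuationSubring k}
    (P : ValuationSubring F) (hP : P.comap (algebraMap k F) = R) : (lb_m P hP).IsPrime :=
  Ideal.comap_isPrime _ _

private theorem lb_bot {k F : Type} [Field k] [Field F] [Algebra k F] {R : ValuationSubring k}
    (W : NVal R) (P : ValuationSubring F) (hP : P.comap (algebraMap k F) = R) :
    lb_m P hP ≠ ⊥ := by
  intro h
  have hπ : W.π ∈ R := (W.mem _ W.hπ).2 (by rw [W.vπ]; exact zero_le_one)
  have hne : algebraMap k F W.π ≠ 0 := (map_ne_zero _).2 W.hπ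
  have h1 : algebraMap R (integralClosure R F) ⟨W.π, hπ⟩ ∈ lb_m P hP := by
    rw [lb_mem_m]
    have h2 : ((algebraMap R (integralClosure R F) ⟨W.π, hπ⟩ : integralClosure R F) : F) =
        algebraMap k F W.π := rfl
    rw [h2]
    have h3 : algebraMap k F W.π ∈ P := by
      have h : W.π ∈ P.comap (algebraMap k F) := by
        rw [hP]
        exact hπ
      exact h
    refine lt_of_le_of_ne ((P.valuation_le_one_iff _).2 h3) fun h4 => ?_
    have h5 : W.π⁻¹ ∈ P.comap (algebraMap k F) := by
      change algebraMap k F W.π⁻¹ ∈ P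
      rw [← P.valuation_le_one_iff, map_inv₀, map_inv₀, h4, inv_one]
    rw [hP, W.mem _ (inv_ne_zero W.hπ), W.inv W.hπ, W.vπ] at h5
    omega
  rw [h, Ideal.mem_bot] at h1
  have h2 : algebraMap k F W.π = 0 := congrArg (fun d : integralClosure R F => (d : F)) h1
  exact hne h2

theorem exists_gen {k F : Type} [Field k] [CharZero k] [Field F] [Algebra k F]
    [FiniteDimensional k F] {R : ValuationSubring k} (W : NVal R) (P₀ : ValuationSubring F)
    (h₀ : P₀.comap (algebraMap k F) = R) (V₀ : NVal P₀) :
    ∃ π : F, π ≠ 0 ∧ V₀.v π = 1 ∧ ∀ P : ValuationSubring F, P.comap (algebraMap k F) = R →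
      P ≠ P₀ → π ∈ P ∧ π⁻¹ ∈ P := by
  have hR : IsDiscreteValuationRing R := dvr_of_nval W
  have : IsDedekindDomain (integralClosure R F) := integralClosure.isDedekindDomain R k F
  have : IsFractionRing (integralClosure R F) F :=
    IsIntegralClosure.isFractionRing_of_finite_extension R k F _
  have : Module.IsTorsionFree R F := .trans_faithfulSMul R k F
  have : Module.IsTorsionFree R (integralClosure R F) := IsIntegralClosure.isTorsionFree R F
  -- finitely many primes
  have hfin : {I : Ideal (integralClosure R F) | I.IsPrime}.Finite := by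
    have h1 : ((IsLocalRing.maximalIdeal R).primesOver (integralClosure R F)).Finite :=
      IsDedekindDomain.primesOver_finite _ _
    refine (h1.insert ⊥).subset fun I hI => ?_
    rw [Set.mem_ofPred_eq] at hI
    by_cases hI0 : I = ⊥
    · exact Or.inl hI0
    · right
      have := hI
      have h2 : I.under R ≠ ⊥ := by
        intro h
        exact hI0 (Ideal.eq_bot_of_comap_eq_bot h)
      have h3 : (I.under R).IsPrime := Ideal.comap_isPrime _ _
      have h4 : (I.under R).IsMaximal := h3.isMaximal h2
      refine ⟨hI, ⟨?_⟩⟩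
      exact (IsLocalRing.eq_maximalIdeal h4).symm
  have : IsPrincipalIdealRing (integralClosure R F) := IsPrincipalIdealRing.of_finite_primes hfin
  obtain ⟨p, hp⟩ := (IsPrincipalIdealRing.principal (lb_m P₀ h₀)).principal
  have hp' : ∀ d, d ∈ lb_m P₀ h₀ ↔ p ∣ d := by
    intro d
    rw [hp]
    exact Ideal.mem_span_singleton
  have hp0 : p ≠ 0 := by
    rintro rfl
    apply lb_bot W P₀ h₀
    rw [hp]
    exact Ideal.span_singleton_eq_bot.2 rfl
  have hpF : (p : F) ≠ 0 := fun h => hp0 (Subtype.ext h)
  have hpm : p ∈ lb_m P₀ h₀ := (hp' p).2 dvd_rfl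
  have hint : ∀ d : integralClosure R F, (d : F) ≠ 0 → 0 ≤ V₀.v (d : F) := fun d hd =>
    (V₀.mem _ hd).1 (lb_mem P₀ h₀ d)
  refine ⟨(p : F), hpF, ?_, ?_⟩
  · -- the value of the generator
    have h1 : 0 < V₀.v (p : F) := by
      rw [← valuation_lt_one_iff V₀ hpF]
      exact (lb_mem_m P₀ h₀ p).1 hpm
    have hπ : V₀.π ∈ P₀ := (V₀.mem _ V₀.hπ).2 (by rw [V₀.vπ]; exact zero_le_one)
    obtain ⟨a, s, hs, hsa⟩ := (ded (D := integralClosure R F) P₀ (lb_mem P₀ h₀)
      (lb_top W P₀ h₀)).2 V₀.π hπ
    have hs' : P₀.valuation (s : F) = 1 := hs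
    have hsa' : (s : F) * V₀.π = (a : F) := hsa
    have hs0 : (s : F) ≠ 0 := by
      intro h
      rw [h, map_zero] at hs'
      exact zero_ne_one hs'
    have ha0 : (a : F) ≠ 0 := by
      rw [← hsa']
      exact mul_ne_zero hs0 V₀.hπ
    have h2 : V₀.v (a : F) = 1 := by
      rw [← hsa', V₀.mul _ _ hs0 V₀.hπ, (valuation_eq_one_iff V₀ hs0).1 hs', V₀.vπ, zero_add]
    have h3 : a ∈ lb_m P₀ h₀ := by
      rw [lb_mem_m, valuation_lt_one_iff V₀ ha0, h2]
      exact one_pos
    obtain ⟨b, hb⟩ := (hp' a).1 h3
    have hb' : (a : F) = (p : F) * (b : F) := congrArg (fun d : integralClosure R F => (d : F)) hb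
    have hb0 : (b : F) ≠ 0 := by
      intro h
      rw [h, mul_zero] at hb'
      exact ha0 hb'
    have h4 := V₀.mul _ _ hpF hb0
    rw [← hb', h2] at h4
    have h5 := hint b hb0
    omega
  · intro P hP hne
    have h1 : (p : F) ∈ P := lb_mem P hP p
    refine ⟨h1, ?_⟩
    have h2 : p ∉ lb_m P hP := by
      intro h
      have h3 : lb_m P₀ h₀ ≤ lb_m P hP := by
        intro d hd
        obtain ⟨b, rfl⟩ := (hp' d).1 hd
        exact Ideal.mul_mem_right _ _ h
      have := lb_prime P₀ h₀
      have h4 : (lb_m P₀ h₀).IsMaximal := (lb_prime P₀ h₀).isMaximal (lb_bot W P₀ h₀)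
      have h5 : lb_m P₀ h₀ = lb_m P hP := h4.eq_of_le (lb_prime P hP).ne_top h3
      -- the valuation rings agree
      have hval : ∀ s : integralClosure R F, P.valuation (s : F) = 1 ↔ P₀.valuation (s : F) = 1 := by
        intro s
        have e1 : P.valuation (s : F) = 1 ↔ s ∉ lb_m P hP := by
          rw [lb_mem_m, not_lt]
          exact ⟨fun h => h.ge, fun h => le_antisymm ((P.valuation_le_one_iff _).2 (lb_mem P hP s)) h⟩
        have e2 : P₀.valuation (s : F) = 1 ↔ s ∉ lb_m P₀ h₀ := by
          rw [lb_mem_m, not_lt]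
          exact ⟨fun h => h.ge,
            fun h => le_antisymm ((P₀.valuation_le_one_iff _).2 (lb_mem P₀ h₀ s)) h⟩
        rw [e1, e2, h5]
      have hsub : ∀ (Q Q' : ValuationSubring F) (hQ : Q.comap (algebraMap k F) = R)
          (_ : Q'.comap (algebraMap k F) = R), (∀ s : integralClosure R F,
          Q.valuation (s : F) = 1 → Q'.valuation (s : F) = 1) → ∀ u, u ∈ Q → u ∈ Q' := by
        intro Q Q' hQ hQ' hs u hu
        obtain ⟨a, s, h6, h7⟩ := (ded (D := integralClosure R F) Q (lb_mem Q hQ)
          (lb_top W Q hQ)).2 u hu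
        have h8 : Q'.valuation (s : F) = 1 := hs s h6
        have h7' : (s : F) * u = (a : F) := h7
        have h9 : Q'.valuation u = Q'.valuation (a : F) := by
          rw [← h7', map_mul, h8, one_mul]
        rw [← Q'.valuation_le_one_iff, h9]
        exact (Q'.valuation_le_one_iff _).2 (lb_mem Q' hQ' a)
      apply hne
      refine SetLike.ext fun u => ⟨?_, ?_⟩
      · exact hsub P P₀ hP h₀ (fun s => (hval s).1) u
      · exact hsub P₀ P h₀ hP (fun s => (hval s).2) u
    rw [lb_mem_m, not_lt] at h2
    have h3 : P.valuation (p : F) = 1 := le_antisymm ((P.valuation_le_one_iff _).2 h1) h2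
    rw [← P.valuation_le_one_iff, map_inv₀, h3, inv_one]

end PQ
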