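import Mathlib

/-!
PQ/LocT1: an ideal with traces in the maximal ideal is nilpotent modulo the maximal ideal.

Proof: `κ = R / m` (`m` the maximal ideal), `Q = S / m S`, a finite dimensional `κ`-algebra, so
artinian. For `q` = the class of `e` there are `N` and `y` with `q^N = q^(N+1) y`, so
`q^N = q^(2N) y^N`, and `ε = q^N y^N` is idempotent with `q^N = q^N ε`. `ε` is the class of an
element of `E` if `N ≥ 1` (take `N ≥ 1`), so `Algebra.trace κ Q ε = 0`
(`Algebra.trace_quotient_mk`). The trace of the multiplication by `ε`, an idempotent linear map,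
is its rank in `κ` (`LinearMap.IsIdempotentElem.trace`-like lemmas or `LinearMap.IsProj.trace`),
so the rank is `0` by `h0`, `ε = 0` and `q^N = 0`.
-/

set_option autoImplicit false

namespace PQ

/-- In an artinian commutative ring a power of `q` is a multiple of the next one. -/
theorem locT1_pow_mul {Q : Type} [CommRing Q] [IsArtinianRing Q] (q : Q) :
    ∃ (N : ℕ) (y : Q), 1 ≤ N ∧ q ^ N = q ^ (N + 1) * y := by
  obtain ⟨n, y, hy⟩ := IsArtinian.exists_pow_succ_smul_dvd q (1 : Q)
  refine ⟨n + 1, y, Nat.le_add_left _ _, ?_⟩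
  simp only [smul_eq_mul, mul_one] at hy
  rw [pow_succ q (n + 1), mul_right_comm, hy, pow_succ]

theorem locT1_idem {Q : Type} [CommRing Q] (q y : Q) (N : ℕ) (h : q ^ N = q ^ (N + 1) * y) :
    q ^ N = q ^ N * (q ^ N * y ^ N) := by
  have h2 : ∀ k : ℕ, q ^ N = q ^ (N + k) * y ^ k := by
    intro k
    induction k with
    | zero => simp
    | succ k ih =>
      calc q ^ N = q ^ (N + k) * y ^ k := ih
        _ = q ^ k * q ^ N * y ^ k := by ring
        _ = q ^ k * (q ^ (N + 1) * y) * y ^ k := by rw [← h]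
        _ = q ^ (N + (k + 1)) * y ^ (k + 1) := by ring
  calc q ^ N = q ^ (N + N) * y ^ N := h2 N
    _ = q ^ N * (q ^ N * y ^ N) := by ring

/-- An idempotent of trace zero in a finite dimensional algebra of residue characteristic zero. -/
theorem locT1_zero {κ Q : Type} [Field κ] [CharZero κ] [CommRing Q] [Algebra κ Q]
    [Module.Finite κ Q] (ε : Q) (hε : ε * ε = ε) (ht : Algebra.trace κ Q ε = 0) : ε = 0 := by
  have h1 : IsIdempotentElem (Algebra.lmul κ Q ε) := by
    rw [IsIdempotentElem, ← map_mul, hε]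
  have h2 : Algebra.lmul κ Q ε = 0 := by
    have := LinearMap.IsIdempotentElem.trace_eq_zero_iff (R := κ) (M := Q)
      (e := Algebra.lmul κ Q ε) h1
    exact this.1 ht
  have h3 := LinearMap.congr_fun h2 1
  simpa using h3

attribute [local instance] Ideal.Quotient.field in
theorem locT1_aux {R S : Type} [CommRing R] [IsDomain R] [IsDiscreteValuationRing R]
    [CommRing S] [Algebra R S] [Module.Finite R S] [Module.Free R S]
    (h0 : ∀ m : ℕ, m ≠ 0 → (m : IsLocalRing.ResidueField R) ≠ 0) (E : Ideal S)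
    (hE : ∀ e ∈ E, Algebra.trace R S e ∈ IsLocalRing.maximalIdeal R) (e : S) (he : e ∈ E) :
    ∃ m : ℕ, e ^ m ∈ (IsLocalRing.maximalIdeal R).map (algebraMap R S) := by
  set p := IsLocalRing.maximalIdeal R with hp
  have hz : CharZero (R ⧸ p) := by
    refine charZero_of_inj_zero ?_
    intro n hn
    by_contra hne
    exact h0 n hne hn
  have hfin : Module.Finite (R ⧸ p) (S ⧸ p.map (algebraMap R S)) := by
    exact Module.Finite.of_restrictScalars_finite R _ _
  have hart : IsArtinianRing (S ⧸ p.map (algebraMap R S)) := IsArtinianRing.of_finite (R ⧸ p) _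
  obtain ⟨N, y, hN, hy⟩ := locT1_pow_mul (Ideal.Quotient.mk (p.map (algebraMap R S)) e)
  have hi := locT1_idem _ _ _ hy
  obtain ⟨y0, rfl⟩ := Ideal.Quotient.mk_surjective y
  refine ⟨N, ?_⟩
  have hmem : e ^ N * y0 ^ N ∈ E := E.mul_mem_right _ (Ideal.pow_mem_of_mem E he N hN)
  have ht : Algebra.trace (R ⧸ p) (S ⧸ p.map (algebraMap R S))
      (Ideal.Quotient.mk (p.map (algebraMap R S)) (e ^ N * y0 ^ N)) = 0 := by
    rw [Algebra.trace_quotient_mk]
    exact Ideal.Quotient.eq_zero_iff_mem.2 (hE _ hmem)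
  have hidem : Ideal.Quotient.mk (p.map (algebraMap R S)) (e ^ N * y0 ^ N) *
      Ideal.Quotient.mk (p.map (algebraMap R S)) (e ^ N * y0 ^ N) =
      Ideal.Quotient.mk (p.map (algebraMap R S)) (e ^ N * y0 ^ N) := by
    simp only [map_mul, map_pow]
    linear_combination (-(Ideal.Quotient.mk (p.map (algebraMap R S)) y0) ^ N) * hi
  have hzero := locT1_zero (κ := R ⧸ p) _ hidem ht
  rw [← Ideal.Quotient.eq_zero_iff_mem, map_pow, hi, ← map_pow, ← map_pow, ← map_mul, hzero,
    mul_zero]

theorem nilp_of_trace {R S : Type} [CommRing R] [IsDomain R] [IsDiscreteValuationRing R]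
    [CommRing S] [Algebra R S] [Module.Finite R S] [Module.Free R S]
    (h0 : ∀ m : ℕ, m ≠ 0 → (m : IsLocalRing.ResidueField R) ≠ 0) (E : Ideal S)
    (hE : ∀ e ∈ E, Algebra.trace R S e ∈ IsLocalRing.maximalIdeal R) (e : S) (he : e ∈ E) :
    ∃ m : ℕ, e ^ m ∈ (IsLocalRing.maximalIdeal R).map (algebraMap R S) :=
  locT1_aux h0 E hE e he

end PQ
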