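import Pool.Agent.Lib.MP_23b606_ag.PQ.Defs

/-!
PQ/Un: a product with a rational factor dominates only uniruled varieties of the same dimension.

`uniruled_of_adjoin`: `L = M(t)` is isomorphic to `RatFunc M`.
`uniruled_of_rational`: `F i = ℂ(t)`, `M` = the supremum of the other `F j`, `L = M(t)`. `M` is algebraic
over the field generated by one transcendental element of each `F j`, `j ≠ i`, so has transcendence
degree `≤ n - 1` over `ℂ`. So `t` is transcendental over `M`, and `K` (over which `L` is algebraic, so of
transcendence degree `n`) is not contained in `M`.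
-/

set_option autoImplicit false

open scoped IntermediateField

namespace PQ

theorem uniruled_of_adjoin {L : Type} [Field L] [Algebra ℂ L] (M K : IntermediateField ℂ L)
    (t : L) (ht : Transcendental M t) (htop : IntermediateField.adjoin M {t} = ⊤)
    (hK : ¬ K ≤ M) : T1.Uniruled K := by
  obtain ⟨x, hxK, hxM⟩ := Set.not_subset.1 hK
  let e1 : RatFunc M ≃ₐ[M] M⟮t⟯ := RatFunc.algEquivOfTranscendental t ht
  let e2 : M⟮t⟯ ≃ₐ[M] L := (IntermediateField.equivOfEq htop).trans IntermediateField.topEquiv
  let e : RatFunc M ≃ₐ[M] L := e1.trans e2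
  refine ⟨M, inferInstance, inferInstance,
    ((e.symm : L →ₐ[M] RatFunc M).restrictScalars ℂ).comp K.val, ⟨x, hxK⟩, ?_⟩
  rintro ⟨m, hm⟩
  apply hxM
  have h1 : e (algebraMap M (RatFunc M) m) = x := by
    rw [hm]
    exact e.apply_symm_apply x
  rw [e.commutes] at h1
  have h2 : (m : L) = x := h1
  rw [← h2]
  exact m.2

/-- A transcendence basis of a curve. -/
private theorem un_basis {F : Type} [Field F] [Algebra ℂ F] (h : Algebra.trdeg ℂ F = 1) :
    ∃ x : F, ∀ y : F, IsAlgebraic (Algebra.adjoin ℂ {x}) y := by
  obtain ⟨s, hs⟩ := exists_isTranscendenceBasis ℂ F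
  have h1 : Cardinal.mk s = 1 := by rw [hs.cardinalMk_eq_trdeg, h]
  obtain ⟨x, hx⟩ := Cardinal.mk_set_eq_one_iff.1 h1
  have h2 := hs.isAlgebraic
  rw [Subtype.range_coe, hx] at h2
  exact ⟨x, fun y => h2.isAlgebraic y⟩

open scoped IntermediateField.algebraAdjoinAdjoin in
/-- The supremum of `n - 1` of the `n` fields is too small. -/
private theorem un_not_alg {L : Type} [Field L] [Algebra ℂ L] {n : ℕ}
    (F : Fin n → IntermediateField ℂ L) (h1 : ∀ i, Algebra.trdeg ℂ (F i) = 1)
    (hn : Algebra.trdeg ℂ L = n) (i : Fin n)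
    (hM : ∀ z : L, IsAlgebraic (⨆ j : {j : Fin n // j ≠ i}, F j : IntermediateField ℂ L) z) :
    False := by
  choose x hx using fun j => un_basis (h1 j)
  let S : Set L := Set.range fun j : {j : Fin n // j ≠ i} => ((x j : F j) : L)
  let E : IntermediateField ℂ L := IntermediateField.adjoin ℂ S
  have hE : ∀ j : {j : Fin n // j ≠ i}, ∀ y : F j, IsAlgebraic E (y : L) := by
    intro j y
    have hle : Algebra.adjoin ℂ {x j} ≤ E.toSubalgebra.comap (F j).val := by
      rw [Algebra.adjoin_le_iff, Set.singleton_subset_iff]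
      change ((x j : F j) : L) ∈ E
      exact IntermediateField.subset_adjoin ℂ S ⟨j, rfl⟩
    let f : Algebra.adjoin ℂ {x j} →+* E :=
      { toFun := fun a => ⟨((a : F j) : L), hle a.2⟩
        map_one' := rfl
        map_mul' := fun _ _ => rfl
        map_zero' := rfl
        map_add' := fun _ _ => rfl }
    refine (hx j y).ringHom_of_comp_eq f ((F j).val : F j →+* L) ?_ ?_
    · intro a b hab
      have h2 : ((a : F j) : L) = ((b : F j) : L) := congrArg (fun z : E => (z : L)) hab
      exact Subtype.ext (Subtype.ext h2)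
    · ext a
      rfl
  have hle : (⨆ j : {j : Fin n // j ≠ i}, F j : IntermediateField ℂ L) ≤
      (algebraicClosure E L).restrictScalars ℂ := by
    refine iSup_le fun j y hy => ?_
    exact mem_algebraicClosure_iff.2 (hE j ⟨y, hy⟩)
  have hC : Algebra.IsAlgebraic (algebraicClosure E L) L := by
    refine ⟨fun z => ?_⟩
    let f : (⨆ j : {j : Fin n // j ≠ i}, F j : IntermediateField ℂ L) →+* algebraicClosure E L :=
      { toFun := fun a => ⟨(a : L), hle a.2⟩
        map_one' := rfl
        map_mul' := fun _ _ => rfl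
        map_zero' := rfl
        map_add' := fun _ _ => rfl }
    refine (hM z).ringHom_of_comp_eq f (RingHom.id L) ?_ ?_
    · intro a b hab
      have h2 : (a : L) = (b : L) := congrArg (fun z : algebraicClosure E L => (z : L)) hab
      exact Subtype.ext h2
    · ext a
      rfl
  have hEL : Algebra.IsAlgebraic E L := Algebra.IsAlgebraic.trans E (algebraicClosure E L) L
  have hAL : Algebra.IsAlgebraic (Algebra.adjoin ℂ S) L :=
    (IsFractionRing.comap_isAlgebraic_iff (A := Algebra.adjoin ℂ S)
      (K := IntermediateField.adjoin ℂ S) (C := L)).2 hEL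
  have h2 : Algebra.trdeg ℂ L ≤ Cardinal.mk S := Algebra.IsAlgebraic.trdeg_le_cardinalMk ℂ S
  have h3 : Cardinal.mk S ≤ Cardinal.mk {j : Fin n // j ≠ i} := Cardinal.mk_range_le
  have h4 : Fintype.card {j : Fin n // j ≠ i} < Fintype.card (Fin n) :=
    Fintype.card_subtype_lt (x := i) (by simp)
  have h5 := h2.trans h3
  rw [hn, Cardinal.mk_fintype, Nat.cast_le] at h5
  rw [Fintype.card_fin] at h4
  exact absurd h5 (not_le.2 h4)

theorem uniruled_of_rational {L : Type} [Field L] [Algebra ℂ L] {n : ℕ}
    (F : Fin n → IntermediateField ℂ L) (h1 : ∀ i, Algebra.trdeg ℂ (F i) = 1)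
    (hsup : ⨆ i, F i = ⊤) (hn : Algebra.trdeg ℂ L = n) (i : Fin n) (hi : Rational (F i))
    (K : IntermediateField ℂ L) [Algebra.IsAlgebraic K L] : T1.Uniruled K := by
  obtain ⟨t, ht⟩ := hi
  let M : IntermediateField ℂ L := ⨆ j : {j : Fin n // j ≠ i}, F j
  have htop : IntermediateField.adjoin M {(t : L)} = ⊤ := by
    have h2 : (⊤ : IntermediateField ℂ L) ≤
        (IntermediateField.adjoin M {(t : L)}).restrictScalars ℂ := by
      rw [← hsup]
      refine iSup_le fun j => ?_
      by_cases hj : j = i
      · subst hj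
        have h3 : (⊤ : IntermediateField ℂ (F j)) ≤
            ((IntermediateField.adjoin M {(t : L)}).restrictScalars ℂ).comap (F j).val := by
          rw [← ht, IntermediateField.adjoin_le_iff, Set.singleton_subset_iff]
          change (t : L) ∈ IntermediateField.adjoin M {(t : L)}
          exact IntermediateField.mem_adjoin_simple_self M (t : L)
        intro y hy
        exact h3 (IntermediateField.mem_top (x := (⟨y, hy⟩ : F j)))
      · intro y hy
        have h3 : y ∈ M := (le_iSup (fun j : {j : Fin n // j ≠ i} => F j) ⟨j, hj⟩) hy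
        exact (IntermediateField.adjoin M {(t : L)}).algebraMap_mem ⟨y, h3⟩
    exact top_le_iff.1 fun y _ => h2 IntermediateField.mem_top
  refine uniruled_of_adjoin M K (t : L) ?_ htop ?_
  · intro hta
    refine un_not_alg F h1 hn i fun z => ?_
    have h2 : Algebra.IsAlgebraic M M⟮(t : L)⟯ :=
      IntermediateField.isAlgebraic_adjoin_simple hta.isIntegral
    have hz : z ∈ M⟮(t : L)⟯ := by
      rw [htop]
      exact IntermediateField.mem_top
    have h3 := h2.isAlgebraic ⟨z, hz⟩
    exact h3.algebraMap (A := L)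
  · intro hKM
    refine un_not_alg F h1 hn i fun z => ?_
    let f : K →+* M :=
      { toFun := fun a => ⟨(a : L), hKM a.2⟩
        map_one' := rfl
        map_mul' := fun _ _ => rfl
        map_zero' := rfl
        map_add' := fun _ _ => rfl }
    refine (Algebra.IsAlgebraic.isAlgebraic (R := K) z).ringHom_of_comp_eq f (RingHom.id L) ?_ ?_
    · intro a b hab
      have h2 : (a : L) = (b : L) := congrArg (fun z : M => (z : L)) hab
      exact Subtype.ext h2
    · ext a
      rfl

end PQ
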