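import Pool.Agent.Lib.MP_23b606_ag.PQ.LocF
import Pool.Agent.Lib.MP_23b606_ag.PQ.AsmA
import Pool.Agent.Lib.MP_23b606_ag.PQ.AsmB
import Pool.Agent.Lib.MP_23b606_ag.PQ.Ai
import Pool.Agent.Lib.MP_23b606_ag.PQ.Un
import Pool.Agent.Lib.MP_23b606_ag.PQ.Act

/-!
PQ/Main: product-quotients.
-/

set_option autoImplicit false

open T1 IntermediateField

namespace PQ

open Classical in
theorem main {L : Type} [Field L] [Algebra ℂ L] {n : ℕ} (F : Fin n → IntermediateField ℂ L)
    (h1 : ∀ i, Algebra.trdeg ℂ (F i) = 1) (hfg : ∀ i, (F i).FG) (hsup : ⨆ i, F i = ⊤)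
    (hn : Algebra.trdeg ℂ L = n) (G : Subgroup (L ≃ₐ[ℂ] L)) [Finite G]
    (hG : ∀ g ∈ G, ∀ i, ∀ x ∈ F i, g x ∈ F i) (ρ : Fin n → ℕ)
    (hρ : ∀ i, Weight ((fixedField G).comap (F i).val) (ρ i))
    (hw : ∀ g ∈ G, g ≠ 1 → 12 ≤ ∑ i with ∃ x ∈ F i, g x ≠ x, ρ i) :
    ((∃ i, Rational (F i)) ∧ Uniruled (fixedField G)) ∨
      ((∀ i, ¬ Rational (F i)) ∧ ∃ (x : Fin n → fixedField G) (g : fixedField G), W x ≠ 0 ∧
        g ≠ 0 ∧ ∀ O : ValuationSubring (fixedField G), IsDiv n O → RegAt O x 12 g) := by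
  by_cases hr : ∃ i, Rational (F i)
  · obtain ⟨i, hi⟩ := hr
    have := isAlgebraic_fixed G
    exact Or.inl ⟨⟨i, hi⟩, uniruled_of_rational F h1 hsup hn i hi (fixedField G)⟩
  · right
    push Not at hr
    refine ⟨hr, ?_⟩
    have hF : ∀ i, Crv (F i) := fun i => crv_of_fg (F i) (h1 i) (hfg i)
    have hfrm : ∀ i, ∃ t h : F i, Frm ((fixedField G).comap (F i).val) (ρ i) t h := by
      intro i
      obtain ⟨φ, hφ⟩ := exists_restr G (F i) fun g hg x hx => hG g hg i x hx
      refine exists_frm (hF i) (hr i) φ _ (fun y => ?_) (ρ i) (hρ i)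
      change (y : L) ∈ fixedField G ↔ _
      rw [IntermediateField.mem_fixedField_iff]
      constructor
      · intro h γ
        refine Subtype.ext ?_
        rw [hφ]
        exact h _ γ.2
      · intro h g hg
        have h2 := congrArg Subtype.val (h ⟨g, hg⟩)
        rw [hφ] at h2
        exact h2
    choose t h H using hfrm
    have htK : ∀ i, ((t i : F i) : L) ∈ fixedField G := fun i => (H i).t_mem
    have hhK : ∀ i, ((h i : F i) : L) ∈ fixedField G := fun i => (H i).h_mem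
    have htr : ∀ i, Transcendental ℂ ((t i : F i) : L) := by
      intro i halg
      apply (H i).tr
      exact (isAlgebraic_algHom_iff (F i).val (F i).val.injective).1 halg
    have hai : AlgebraicIndependent ℂ (fun i => ((t i : F i) : L)) :=
      alg_indep F h1 hsup hn _ (fun i => (t i).2) htr
    set T : Fin n → fixedField G := fun i => ⟨_, htK i⟩ with hT
    set H' : Fin n → fixedField G := fun i => ⟨_, hhK i⟩ with hH'
    have hai' : AlgebraicIndependent ℂ T := AlgebraicIndependent.of_comp (fixedField G).val hai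
    have hH0 : ∀ i, H' i ≠ 0 := by
      intro i h0
      apply (H i).ne
      have h2 : ((h i : F i) : L) = 0 := congrArg Subtype.val h0
      exact Subtype.ext h2
    refine ⟨T, ∏ i, H' i, W_ne T hai', Finset.prod_ne_zero_iff.2 fun i _ => hH0 i, ?_⟩
    intro O hO
    obtain ⟨V⟩ := exists_nval O hO.1
    have hC := cst_of_isDiv hO
    refine regAt_of_coord (trdeg_fixed G hn) T H' (fun i c hc => ?_) hH0 (W_ne T hai') V hC
      (exists_coord F hF G hG ρ hw t h H T H' (fun _ => rfl) (fun _ => rfl) V hC)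
    have h2 : ((t i : F i) : L) = algebraMap ℂ L c := congrArg Subtype.val hc
    apply htr i
    rw [h2]
    exact isAlgebraic_algebraMap c

open Classical in
theorem main' {L : Type} [Field L] [Algebra ℂ L] {n : ℕ} (F : Fin n → IntermediateField ℂ L)
    (h1 : ∀ i, Algebra.trdeg ℂ (F i) = 1) (hfg : ∀ i, (F i).FG) (hsup : ⨆ i, F i = ⊤)
    (hn : Algebra.trdeg ℂ L = n) (G : Subgroup (L ≃ₐ[ℂ] L)) [Finite G]
    (hG : ∀ g ∈ G, ∀ i, ∀ x ∈ F i, g x ∈ F i) (ρ : Fin n → ℕ)
    (hρ : ∀ i, Weight ((fixedField G).comap (F i).val) (ρ i))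
    (hw : ∀ g ∈ G, g ≠ 1 → 12 ≤ ∑ i with ∃ x ∈ F i, g x ≠ x, ρ i) :
    KodairaNeg (fixedField G) n → Uniruled (fixedField G) := by
  intro hneg
  rcases main F h1 hfg hsup hn G hG ρ hρ hw with h | ⟨-, x, g, hx, hg, h⟩
  · exact h.2
  · exact absurd (hneg x 12 g hx (by norm_num) h) hg

end PQ
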