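import Pool.Agent.Lib.MP_23b606_ag.PQ.Sup

/-!
PQ/Mb: the functions regular over the finite points of the line have a basis over `ℂ[X]`.

Proof: with `Algebra ℂ[X] F` from `ℂ[X] → RatFunc ℂ → F`, the integral closure `B` of `ℂ[X]` in `F`
is a free `ℂ[X]`-module of rank `n = [F : RatFunc ℂ]` (`IsIntegralClosure.module_free`,
`IsIntegralClosure.isNoetherian`), and a basis of `B` over `ℂ[X]` is a basis of `F` over
`RatFunc ℂ` (`Module.Basis.localizationLocalization` or `IsIntegralClosure.exists_basis`-like),
the elements of `B` are those with coordinates in `ℂ[X]`. By `integral_of_all` and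
`mem_of_integral` `u ∈ B` iff `u` lies in all valuation rings containing `ℂ` and `x`.
-/

set_option autoImplicit false

namespace PQ

/-- A basis of the integral closure of a principal ideal domain. -/
private theorem mb_gen (A K L : Type) [CommRing A] [IsDomain A] [IsPrincipalIdealRing A] [Field K]
    [Field L] [Algebra A K] [IsFractionRing A K] [Algebra K L] [Algebra A L] [IsScalarTower A K L]
    [FiniteDimensional K L] [Algebra.IsSeparable K L] :
    ∃ (n : ℕ) (b : Module.Basis (Fin n) K L), ∀ u : L, IsIntegral A u ↔
      ∀ j, b.repr u j ∈ (algebraMap A K).range := by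
  have htf : Module.IsTorsionFree A L := .trans_faithfulSMul A K L
  have hfree : Module.Free A (integralClosure A L) := IsIntegralClosure.module_free A K L _
  have hnoeth : IsNoetherian A (integralClosure A L) := IsIntegralClosure.isNoetherian A K L _
  have hloc : IsLocalization (Algebra.algebraMapSubmonoid (integralClosure A L)
      (nonZeroDivisors A)) L := IsIntegralClosure.isLocalization A K L _
  have hfin : Module.Finite A (integralClosure A L) := Module.IsNoetherian.finite A _
  let b₀ := Module.finBasis A (integralClosure A L)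
  refine ⟨Module.finrank A (integralClosure A L),
    b₀.localizationLocalization K (nonZeroDivisors A) L, fun u => ⟨fun hu j => ?_, fun hu => ?_⟩⟩
  · have h1 := Module.Basis.localizationLocalization_repr_algebraMap K (nonZeroDivisors A) L b₀
      (⟨u, hu⟩ : integralClosure A L) j
    exact ⟨_, h1.symm⟩
  · choose a ha using hu
    have h1 := (b₀.localizationLocalization K (nonZeroDivisors A) L).sum_repr u
    rw [← h1]
    refine IsIntegral.sum _ fun j _ => ?_
    rw [← ha j, Module.Basis.localizationLocalization_apply, algebraMap_smul]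
    have h2 : IsIntegral A (algebraMap (integralClosure A L) L (b₀ j)) := (b₀ j).2
    rw [Algebra.smul_def]
    exact isIntegral_algebraMap.mul h2

/-- Integrality over the image. -/
private theorem mb_range {A L : Type} [CommRing A] [Field L] [Algebra A L] (u : L) :
    IsIntegral (algebraMap A L).range u ↔ IsIntegral A u := by
  constructor
  · intro h
    let _ : Algebra A (algebraMap A L).range := (algebraMap A L).rangeRestrict.toAlgebra
    have htow : IsScalarTower A (algebraMap A L).range L := IsScalarTower.of_algebraMap_eq fun _ => rfl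
    have hint : Algebra.IsIntegral A (algebraMap A L).range :=
      ⟨fun x => by
        obtain ⟨y, rfl⟩ := (algebraMap A L).rangeRestrict_surjective x
        exact isIntegral_algebraMap⟩
    exact isIntegral_trans u h
  · intro h
    exact h.map_of_comp_eq (algebraMap A L).rangeRestrict (RingHom.id L) rfl

theorem exists_basis {F : Type} [Field F] [Algebra ℂ F] [Algebra (RatFunc ℂ) F]
    [IsScalarTower ℂ (RatFunc ℂ) F] [FiniteDimensional (RatFunc ℂ) F] :
    ∃ (n : ℕ) (b : Module.Basis (Fin n) (RatFunc ℂ) F), ∀ u : F,
      (∀ P : ValuationSubring F, Cst P → algebraMap (RatFunc ℂ) F RatFunc.X ∈ P → u ∈ P) ↔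
        ∀ j, b.repr u j ∈ (algebraMap (Polynomial ℂ) (RatFunc ℂ)).range := by
  let _ : Algebra (Polynomial ℂ) F :=
    ((algebraMap (RatFunc ℂ) F).comp (algebraMap (Polynomial ℂ) (RatFunc ℂ))).toAlgebra
  have htow : IsScalarTower (Polynomial ℂ) (RatFunc ℂ) F := IsScalarTower.of_algebraMap_eq fun _ => rfl
  have hchar : CharZero (RatFunc ℂ) :=
    charZero_of_injective_algebraMap (algebraMap ℂ (RatFunc ℂ)).injective
  obtain ⟨n, b, hb⟩ := mb_gen (Polynomial ℂ) (RatFunc ℂ) F
  refine ⟨n, b, fun u => ?_⟩
  rw [← hb u, ← mb_range u]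
  have hC : ∀ c : ℂ, algebraMap (Polynomial ℂ) F (Polynomial.C c) = algebraMap ℂ F c := by
    intro c
    change algebraMap (RatFunc ℂ) F (algebraMap (Polynomial ℂ) (RatFunc ℂ) (Polynomial.C c)) = _
    rw [RatFunc.algebraMap_C, ← RatFunc.algebraMap_eq_C, ← IsScalarTower.algebraMap_apply]
  have hX : algebraMap (Polynomial ℂ) F Polynomial.X = algebraMap (RatFunc ℂ) F RatFunc.X := by
    change algebraMap (RatFunc ℂ) F (algebraMap (Polynomial ℂ) (RatFunc ℂ) Polynomial.X) = _
    rw [RatFunc.algebraMap_X]
  have hle : ∀ P : ValuationSubring F, (algebraMap (Polynomial ℂ) F).range ≤ P.toSubring ↔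
      Cst P ∧ algebraMap (RatFunc ℂ) F RatFunc.X ∈ P := by
    intro P
    constructor
    · intro h
      exact ⟨fun c => h ⟨Polynomial.C c, hC c⟩, h ⟨Polynomial.X, hX⟩⟩
    · rintro ⟨h1, h2⟩ _ ⟨p, rfl⟩
      induction p using Polynomial.induction_on' with
      | add p q hp hq =>
        rw [map_add]
        exact P.toSubring.add_mem hp hq
      | monomial k c =>
        rw [← Polynomial.C_mul_X_pow_eq_monomial, map_mul, map_pow, hC, hX]
        exact P.toSubring.mul_mem (h1 c) (P.toSubring.pow_mem h2 k)
  constructor
  · intro h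
    exact integral_of_all _ u fun P hP => h P ((hle P).1 hP).1 ((hle P).1 hP).2
  · intro h P h1 h2
    exact mem_of_integral _ u h P ((hle P).2 ⟨h1, h2⟩)

end PQ
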