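import Pool.Agent.Lib.MP_23b606_ag.PQ.Rb
import Pool.Agent.Lib.MP_23b606_ag.PQ.Res
import Pool.Agent.Lib.MP_23b606_ag.PQ.RatFac
import Pool.Agent.Lib.MP_23b606_ag.PQ.LocB
import Pool.Agent.Lib.MP_23b606_ag.PQ.Pl

/-!
PQ/One: if all `d j ≤ 1` there is a function with a single pole, of order one.

Proof: `x` = the image of `X`. Take `P₀ ⊇ ℂ` with `x ∉ P₀` (`exists_not_mem`), `V₀`
(`exists_nval_of_crv`), `R = P₀.comap`, `W` (`exists_res`), `π` from `exists_gen`. Every `P ⊇ ℂ` with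
`x ∉ P` lies over `R` (`eq_of_neg`). `w = x⁻¹ π⁻¹` is in all these `P` (`V₀ w = -V₀ x - 1 ≥ 0`). So
`γ_j = X^(d j) b.repr w j` has degree `≤ 0`. Take `l j` from `exists_lead` for `γ_j` and
`f = ∑ (l j X^(1 - d j)) • b j`. `f` has polynomial coordinates, so `f` is in all `P ∋ x`.
`g = x w - f` has the coordinates `X b.repr w j - l j X^(1 - d j)`, and `X^(d j)` times this is
`X (γ_j - l j)`, of degree `≤ 0`, so `g` is in all `P ∌ x`. `f = π⁻¹ - g`: `V₀ f = -1`, and `f ∈ P` for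
`P ∌ x`, `P ≠ P₀`.
-/

set_option autoImplicit false

open T1

namespace PQ

theorem exists_one_pole {F : Type} [Field F] [Algebra ℂ F] (hF : Crv F) [Algebra (RatFunc ℂ) F]
    [IsScalarTower ℂ (RatFunc ℂ) F] [FiniteDimensional (RatFunc ℂ) F] {n : ℕ}
    (b : Module.Basis (Fin n) (RatFunc ℂ) F) (d : Fin n → ℕ) (hb : Red b d)
    (hd : ∀ j, d j ≤ 1) : ∃ (f : F) (P₀ : ValuationSubring F) (V₀ : NVal P₀), Cst P₀ ∧ f ≠ 0 ∧
      V₀.v f = -1 ∧ ∀ P : ValuationSubring F, Cst P → P ≠ P₀ → f ∈ P := by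
  obtain ⟨x, hx⟩ : ∃ x : F, x = algebraMap (RatFunc ℂ) F RatFunc.X := ⟨_, rfl⟩
  have hXt : Transcendental ℂ x := by
    have h1 : Transcendental ℂ (RatFunc.X : RatFunc ℂ) := RatFunc.transcendental_X
    rw [hx]
    exact (transcendental_algebraMap_iff (algebraMap (RatFunc ℂ) F).injective).2 h1
  have hX0 : (RatFunc.X : RatFunc ℂ) ≠ 0 := RatFunc.X_ne_zero
  have hx0 : x ≠ 0 := by
    rw [hx]
    exact (map_ne_zero _).2 hX0
  obtain ⟨P₀, hC₀, hxP₀⟩ := exists_not_mem x hXt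
  have hP₀ : P₀ ≠ ⊤ := by
    rintro rfl
    exact hxP₀ (ValuationSubring.mem_top x)
  obtain ⟨V₀⟩ := exists_nval_of_crv hF P₀ hC₀ hP₀
  have hVx : V₀.v x < 0 := by
    by_contra hcon
    exact hxP₀ ((V₀.mem x hx0).2 (not_lt.1 hcon))
  obtain ⟨W, -, -, -⟩ := exists_res (algebraMap (RatFunc ℂ) F) V₀ RatFunc.X hX0
    (by rw [← hx]; exact hVx.ne)
  obtain ⟨π, hπ0, hVπ, hπ⟩ := exists_gen W P₀ rfl V₀
  have hcst : ∀ P : ValuationSubring F, Cst P → Cst (P.comap (algebraMap (RatFunc ℂ) F)) := by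
    intro P hC c
    change algebraMap (RatFunc ℂ) F (algebraMap ℂ (RatFunc ℂ) c) ∈ P
    rw [← IsScalarTower.algebraMap_apply ℂ (RatFunc ℂ) F]
    exact hC c
  have hπ' : ∀ P : ValuationSubring F, Cst P → x ∉ P → P ≠ P₀ → π⁻¹ ∈ P := by
    intro P hC hP hne
    refine (hπ P ?_ hne).2
    refine eq_of_neg (hcst P hC) (hcst P₀ hC₀) ?_ ?_
    · change algebraMap (RatFunc ℂ) F RatFunc.X ∉ P
      rwa [← hx]
    · change algebraMap (RatFunc ℂ) F RatFunc.X ∉ P₀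
      rwa [← hx]
  obtain ⟨w, hw⟩ : ∃ w : F, w = x⁻¹ * π⁻¹ := ⟨_, rfl⟩
  have hwP : ∀ P : ValuationSubring F, Cst P → algebraMap (RatFunc ℂ) F RatFunc.X ∉ P →
      w ∈ P := by
    intro P hC hP
    rw [← hx] at hP
    by_cases hne : P = P₀
    · rw [hne, hw, V₀.mem _ (mul_ne_zero (inv_ne_zero hx0) (inv_ne_zero hπ0)),
        V₀.mul _ _ (inv_ne_zero hx0) (inv_ne_zero hπ0), V₀.inv hx0, V₀.inv hπ0, hVπ]
      omega
    · rw [hw]
      exact P.mul_mem _ _ ((P.mem_or_inv_mem x).resolve_left hP) (hπ' P hC hP hne)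
  have hγ := (hb.inf w).1 hwP
  choose l hl _ using fun j => exists_lead _ (hγ j)
  obtain ⟨f, hf⟩ : ∃ f : F, f = ∑ j, (algebraMap ℂ (RatFunc ℂ) (l j) *
    (RatFunc.X : RatFunc ℂ) ^ (1 - d j)) • b j := ⟨_, rfl⟩
  have hrf : ∀ j, b.repr f j = algebraMap ℂ (RatFunc ℂ) (l j) *
      (RatFunc.X : RatFunc ℂ) ^ (1 - d j) := by
    intro j
    rw [hf, b.repr_sum_self]
  have hfin : ∀ P : ValuationSubring F, Cst P → algebraMap (RatFunc ℂ) F RatFunc.X ∈ P →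
      f ∈ P := by
    refine (hb.fin f).2 fun j => ⟨Polynomial.C (l j) * Polynomial.X ^ (1 - d j), ?_⟩
    rw [hrf, map_mul, map_pow, RatFunc.algebraMap_X, RatFunc.algebraMap_C]
    rfl
  have hg : ∀ P : ValuationSubring F, Cst P → algebraMap (RatFunc ℂ) F RatFunc.X ∉ P →
      π⁻¹ - f ∈ P := by
    refine (hb.inf _).2 fun j => ?_
    have h1 : π⁻¹ = (RatFunc.X : RatFunc ℂ) • w := by
      rw [Algebra.smul_def, ← hx, hw, mul_inv_cancel_left₀ hx0]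
    have h2 : (RatFunc.X : RatFunc ℂ) ^ d j * b.repr (π⁻¹ - f) j =
        RatFunc.X * ((RatFunc.X : RatFunc ℂ) ^ d j * b.repr w j -
          algebraMap ℂ (RatFunc ℂ) (l j)) := by
      rw [map_sub, Finsupp.sub_apply, hrf, h1, map_smul, Finsupp.smul_apply, smul_eq_mul]
      have h3 : (RatFunc.X : RatFunc ℂ) ^ d j * (RatFunc.X : RatFunc ℂ) ^ (1 - d j) =
          RatFunc.X := by
        rw [← pow_add, Nat.add_sub_cancel' (hd j), pow_one]
      linear_combination -(algebraMap ℂ (RatFunc ℂ) (l j)) * h3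
    rw [h2]
    exact hl j
  have hf2 : f = π⁻¹ + -(π⁻¹ - f) := by ring
  have hg0 : π⁻¹ - f ∈ P₀ := hg P₀ hC₀ (by rwa [← hx])
  have h4 := v_add_eq V₀ (x := π⁻¹) (y := -(π⁻¹ - f)) (inv_ne_zero hπ0) (by
    by_cases h5 : π⁻¹ - f = 0
    · left
      rw [h5, neg_zero]
    · right
      rw [v_neg V₀ h5, V₀.inv hπ0, hVπ]
      have h6 := (V₀.mem _ h5).1 hg0
      omega)
  rw [← hf2, V₀.inv hπ0, hVπ] at h4
  refine ⟨f, P₀, V₀, hC₀, h4.1, h4.2, fun P hC hne => ?_⟩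
  by_cases hP : x ∈ P
  · exact hfin P hC (by rwa [← hx])
  · rw [hf2]
    exact P.add_mem _ _ (hπ' P hC hP hne) (P.neg_mem _ (hg P hC (by rwa [← hx])))

end PQ
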