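import Pool.Agent.Lib.MP_23b606_ag.PQ.Defs

/-!
PQ/RatAlg: a nonconstant function `x` on a curve makes `F` a finite extension of `RatFunc ℂ`.

Proof: the algebra structure is `RatFunc.liftAlgHom (Polynomial.aeval x)` (injective on `ℂ[X]`).
Its range is `ℂ⟮x⟯`, over which `F` is finite by `hF.fin`.
-/

set_option autoImplicit false

namespace PQ

theorem exists_ratAlg {F : Type} [Field F] [Algebra ℂ F] (hF : Crv F) (x : F)
    (hx : Transcendental ℂ x) :
    ∃ (_ : Algebra (RatFunc ℂ) F) (_ : IsScalarTower ℂ (RatFunc ℂ) F),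
      algebraMap (RatFunc ℂ) F RatFunc.X = x ∧ FiniteDimensional (RatFunc ℂ) F := by
  classical
  have hinj : Function.Injective (Polynomial.aeval x : Polynomial ℂ →ₐ[ℂ] F) :=
    transcendental_iff_injective.1 hx
  let ψ : RatFunc ℂ →ₐ[ℂ] F := RatFunc.liftAlgHom (Polynomial.aeval x)
    (nonZeroDivisors_le_comap_nonZeroDivisors_of_injective _ hinj)
  have hψ : ψ RatFunc.X = x := by
    have h := RatFunc.liftAlgHom_apply_div' (Polynomial.aeval x : Polynomial ℂ →ₐ[ℂ] F)
      (nonZeroDivisors_le_comap_nonZeroDivisors_of_injective _ hinj) Polynomial.X 1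
    rw [map_one, map_one, map_one, div_one, div_one, RatFunc.algebraMap_X,
      Polynomial.aeval_X] at h
    exact h
  letI : Algebra (RatFunc ℂ) F := ψ.toRingHom.toAlgebra
  have htow : IsScalarTower ℂ (RatFunc ℂ) F :=
    IsScalarTower.of_algebraMap_eq fun c => (ψ.commutes c).symm
  refine ⟨inferInstance, htow, hψ, ?_⟩
  have hle : (IntermediateField.adjoin ℂ {x}) ≤ ψ.fieldRange := IntermediateField.adjoin_simple_le_iff.2 ⟨_, hψ⟩
  obtain ⟨t, ht⟩ := (hF.fin x hx).fg_top
  refine ⟨t, ?_⟩
  rw [eq_top_iff]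
  rintro y -
  have hy : y ∈ Submodule.span (IntermediateField.adjoin ℂ {x}) (t : Set F) := by
    rw [ht]
    exact Submodule.mem_top
  induction hy using Submodule.span_induction with
  | mem y hy => exact Submodule.subset_span hy
  | zero => exact Submodule.zero_mem _
  | add y z _ _ hy hz => exact Submodule.add_mem _ hy hz
  | smul a y _ hy =>
    obtain ⟨r, hr⟩ := hle a.2
    have h1 : a • y = r • y := by
      rw [Algebra.smul_def, Algebra.smul_def]
      exact congrArg (fun z => z * y) hr.symm
    rw [h1]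
    exact Submodule.smul_mem _ _ hy

end PQ
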