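import Pool.Agent.Lib.MP_23b606_ag.PQ.Sup
import Pool.Agent.Lib.MP_23b606_ag.PQ.Tr

/-!
PQ/Sgl: a function `f` with a single pole, of order one, generates the function field.

Proof: (1) If `u ∈ P` for all `P ⊇ ℂ`, `P ≠ P₀`, then `u ∈ ℂ[f]`: induction on the pole order of `u`
at `P₀`. If `u = 0` or `V₀ u ≥ 0` then `u` is in all `P ⊇ ℂ`, so `u` is a constant (`const_of_all`).
If `V₀ u = -N < 0` then `u / f^N ∈ P₀` has a residue `c` (`exists_residue`), and `u - c f^N` is `0` or
has smaller pole order.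
(2) For every `u ∈ F` there is `p ∈ ℂ[f]`, `p ≠ 0`, with `p u ∈ P` for all `P ⊇ ℂ`, `P ≠ P₀`: `f` is
transcendental (not a constant, `V₀ f ≠ 0`), `F` is algebraic over `ℂ⟮f⟯` (`hF.fin`), so `p u` is
integral over `ℂ[f]` for some `p ≠ 0`, and valuation rings are integrally closed
(`mem_of_integral`).
So `u = (p u) / p ∈ ℂ⟮f⟯`.
-/

set_option autoImplicit false

open T1

open scoped IntermediateField

namespace PQ

private theorem sgl_poly {F : Type} [Field F] [Algebra ℂ F] (hF : Crv F) (f : F)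
    (P₀ : ValuationSubring F) (V₀ : NVal P₀) (hC : Cst P₀) (hf : f ≠ 0) (h1 : V₀.v f = -1)
    (h2 : ∀ P : ValuationSubring F, Cst P → P ≠ P₀ → f ∈ P) (n : ℕ) :
    ∀ u : F, (u = 0 ∨ -(n : ℤ) ≤ V₀.v u) →
      (∀ P : ValuationSubring F, Cst P → P ≠ P₀ → u ∈ P) → u ∈ Algebra.adjoin ℂ {f} := by
  classical
  induction n with
  | zero =>
    intro u hu hP
    have h3 : u ∈ P₀ := by
      rcases hu with rfl | hu
      · exact P₀.zero_mem
      · by_cases h0 : u = 0
        · rw [h0]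
          exact P₀.zero_mem
        · exact (V₀.mem u h0).2 (by simpa using hu)
    obtain ⟨c, rfl⟩ := const_of_all u fun P hPC => by
      by_cases h : P = P₀
      · rw [h]
        exact h3
      · exact hP P hPC h
    exact Subalgebra.algebraMap_mem _ c
  | succ n ih =>
    intro u hu hP
    by_cases h3 : u = 0 ∨ -(n : ℤ) ≤ V₀.v u
    · exact ih u h3 hP
    push Not at h3
    obtain ⟨hu0, h4⟩ := h3
    have h5 : V₀.v u = -((n : ℤ) + 1) := by
      have := hu.resolve_left hu0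
      push_cast at this
      omega
    have hfn : f ^ (n + 1) ≠ 0 := pow_ne_zero _ hf
    have hv : V₀.v (u / f ^ (n + 1)) = 0 := by
      rw [v_div V₀ hu0 hfn, v_pow V₀ hf, h1, h5]
      push_cast
      ring
    have hmem : u / f ^ (n + 1) ∈ P₀ := (V₀.mem _ (div_ne_zero hu0 hfn)).2 hv.ge
    obtain ⟨c, hc⟩ := exists_residue hF V₀ hC _ hmem
    have hfa : f ∈ Algebra.adjoin ℂ {f} := Algebra.self_mem_adjoin_singleton ℂ f
    have hcf : algebraMap ℂ F c * f ^ (n + 1) ∈ Algebra.adjoin ℂ {f} :=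
      Subalgebra.mul_mem _ (Subalgebra.algebraMap_mem _ c) (Subalgebra.pow_mem _ hfa _)
    have e1 : u - algebraMap ℂ F c * f ^ (n + 1) =
        (u / f ^ (n + 1) - algebraMap ℂ F c) * f ^ (n + 1) := by
      rw [sub_mul, div_mul_cancel₀ _ hfn]
    have h6 : u - algebraMap ℂ F c * f ^ (n + 1) ∈ Algebra.adjoin ℂ {f} := by
      refine ih _ ?_ fun P hPC hne => ?_
      · rw [e1]
        by_cases h7 : u / f ^ (n + 1) - algebraMap ℂ F c = 0
        · left
          rw [h7, zero_mul]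
        · right
          have h8 := hc.resolve_left h7
          rw [V₀.mul _ _ h7 hfn, v_pow V₀ hf, h1]
          push_cast
          omega
      · exact P.toSubring.sub_mem (hP P hPC hne)
          (P.mul_mem _ _ (hPC c) (P.toSubring.pow_mem (h2 P hPC hne) _))
    have h7 := Subalgebra.add_mem _ h6 hcf
    rwa [sub_add_cancel] at h7

private theorem sgl_int {F : Type} [Field F] [Algebra ℂ F] {A : Subalgebra ℂ F} {R : Subring F}
    (h : ∀ a ∈ A, a ∈ R) {z : F} (hz : IsIntegral A z) : IsIntegral R z := by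
  obtain ⟨q, hq, h1⟩ := hz
  let φ : A →+* R := A.val.toRingHom.codRestrict R fun a => h a a.2
  refine ⟨q.map φ, hq.map φ, ?_⟩
  rw [Polynomial.eval₂_map]
  exact h1

theorem rational_of_pole {F : Type} [Field F] [Algebra ℂ F] (hF : Crv F) (f : F)
    (P₀ : ValuationSubring F) (V₀ : NVal P₀) (hC : Cst P₀) (hf : f ≠ 0) (h1 : V₀.v f = -1)
    (h2 : ∀ P : ValuationSubring F, Cst P → P ≠ P₀ → f ∈ P) : ℂ⟮f⟯ = ⊤ := by
  classical
  have htr : Transcendental ℂ f := by
    intro halg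
    obtain ⟨c, hc⟩ : ∃ c : ℂ, algebraMap ℂ F c = f := by
      have hi : IsIntegral ℂ f := halg.isIntegral
      refine ⟨-(minpoly ℂ f).coeff 0, ?_⟩
      have hq : (minpoly ℂ f).leadingCoeff = 1 := minpoly.monic hi
      have h : (minpoly ℂ f).degree = 1 :=
        IsAlgClosed.degree_eq_one_of_irreducible ℂ (minpoly.irreducible hi)
      have h3 : Polynomial.aeval f (minpoly ℂ f) = 0 := minpoly.aeval ℂ f
      rw [Polynomial.eq_X_add_C_of_degree_eq_one h, hq, Polynomial.C_1, one_mul, map_add,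
        Polynomial.aeval_X, Polynomial.aeval_C] at h3
      rw [map_neg]
      exact (eq_neg_of_add_eq_zero_left h3).symm
    have hc0 : c ≠ 0 := by
      rintro rfl
      rw [map_zero] at hc
      exact hf hc.symm
    have h3 := v_const V₀ hC hc0
    rw [hc, h1] at h3
    omega
  have hfin := hF.fin f htr
  rw [eq_top_iff]
  intro u _
  open scoped IntermediateField.algebraAdjoinAdjoin in
  have halg : IsAlgebraic (Algebra.adjoin ℂ {f}) u := by
    have h3 : IsAlgebraic ℂ⟮f⟯ u := Algebra.IsAlgebraic.isAlgebraic u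
    exact (IsFractionRing.isAlgebraic_iff (Algebra.adjoin ℂ {f}) ℂ⟮f⟯ F).2 h3
  obtain ⟨p, hp, hpu⟩ := halg.exists_integral_multiple
  have hp0 : (p : F) ≠ 0 := fun h => hp (Subtype.ext h)
  have hpu' : (p : F) * u ∈ Algebra.adjoin ℂ {f} := by
    refine sgl_poly hF f P₀ V₀ hC hf h1 h2 (-(V₀.v ((p : F) * u))).toNat _ (Or.inr ?_)
      fun P hPC hne => ?_
    · omega
    · have hle : Algebra.adjoin ℂ {f} ≤ ({ P.toSubring with
          algebraMap_mem' := fun c => hPC c } : Subalgebra ℂ F) :=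
        Algebra.adjoin_le (Set.singleton_subset_iff.2 (h2 P hPC hne))
      exact mem_of_integral P.toSubring _ (sgl_int (fun a ha => hle ha) hpu) P le_rfl
  have h3 : (p : F) * u ∈ ℂ⟮f⟯ := IntermediateField.algebra_adjoin_le_adjoin ℂ {f} hpu'
  have h4 : (p : F) ∈ ℂ⟮f⟯ := IntermediateField.algebra_adjoin_le_adjoin ℂ {f} p.2
  have h5 : u = (p : F)⁻¹ * ((p : F) * u) := (inv_mul_cancel_left₀ hp0 u).symm
  rw [h5]
  exact ℂ⟮f⟯.mul_mem (ℂ⟮f⟯.inv_mem h4) h3

end PQ
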