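import Pool.Agent.Lib.MP_23b606_ag.PQ.Dif
import Pool.Agent.Lib.MP_23b606_ag.PQ.One
import Pool.Agent.Lib.MP_23b606_ag.PQ.Sgl
import Pool.Agent.Lib.MP_23b606_ag.PQ.RatAlg

/-!
PQ/RR: a curve which is not rational has a nonzero regular differential `z dx`, for every
nonconstant function `x`.
-/

set_option autoImplicit false

open T1

namespace PQ

theorem exists_regular {F : Type} [Field F] [Algebra ℂ F] (hF : Crv F) (x : F)
    (hx : Transcendental ℂ x) : Rational F ∨
      ∃ z : F, z ≠ 0 ∧ ∀ (P : ValuationSubring F) (V : NVal P), Cst P → ∀ c : ℂ, At V x c →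
        1 ≤ V.v z + V.v (x - algebraMap ℂ F c) := by
  classical
  obtain ⟨_, _, hX, _⟩ := exists_ratAlg hF x hx
  obtain ⟨n, b, d, hb⟩ := exists_red (F := F)
  by_cases h : ∃ j, 2 ≤ d j
  · obtain ⟨j, hj⟩ := h
    obtain ⟨z, hz, h1⟩ := exists_dif b d hb j hj
    rw [hX] at h1
    exact Or.inr ⟨z, hz, h1⟩
  · push Not at h
    obtain ⟨f, P₀, V₀, hC, hf, h1, h2⟩ := exists_one_pole hF b d hb fun j => by
      have := h j
      omega
    exact Or.inl ⟨f, rational_of_pole hF f P₀ V₀ hC hf h1 h2⟩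

end PQ
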