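import Pool.Agent.Lib.MP_23b606_ag.PQ.Wts
import Pool.Agent.Lib.MP_23b606_ag.PQ.RR
import Pool.Agent.Lib.MP_23b606_ag.PQ.Ar
import Pool.Agent.Lib.MP_23b606_ag.PQ.RatFac
import Pool.Agent.Lib.MP_23b606_ag.PQ.Pl
import Pool.Agent.Lib.MP_23b606_ag.PQ.Sup

/-!
PQ/Nrm: a curve which is not rational, Galois over the line `ℂ(x)`: the weights for `ρ = 2`.

Proof: `z` from `exists_regular`, `N = ∏ γ, φ γ z`, `m` the order of `Γ`. `N` is invariant, so in `ℂ⟮x⟯`,
`N = C ∏_{c ∈ T} (x - c)^(a c)` (`exists_factor_adjoin`). Let `At V x c`. `V ∘ φ γ` is a normalised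
valuation of `P.comap (φ γ)`, `Cst`, with value `V (x - c)` at `x - c`; so `1 ≤ V (φ γ z) + V (x - c)`
and `m ≤ V N + m V (x - c)`.
For `c ∈ ℂ` there is `V` with `V (x - c) > 0` (`exists_not_mem` for `(x - c)⁻¹`, `exists_nval_of_crv`); let
`E c` be the least value of `V (x - c)` for these `V`. By `v_prod_sub_pos` (at a `V` with
`V (x - c) = E c`): `m ≤ a c E c + m E c`, so `-a c E c ≤ m (E c - 1)` for `c ∈ T`. There is `V` with
`V x < 0`; let `E₀` be the least value of `-V x`. By `v_prod_sub_neg`: `m ≤ -(∑ a) E₀ - m E₀`, so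
`(2 m + ∑ a) E₀ ≤ m (E₀ - 1)`. Now `exists_w` for `ι = Option T`, `n (some c) = -a c`,
`n none = 2 m + ∑ a`.
-/

set_option autoImplicit false

open T1

open scoped IntermediateField

namespace PQ

/-- The valuation `V ∘ σ`. -/
private noncomputable def nrmC {F : Type} [Field F] [Algebra ℂ F] {P : ValuationSubring F}
    (V : NVal P) (σ : F ≃ₐ[ℂ] F) : NVal (P.comap (σ : F →+* F)) where
  π := σ.symm V.π
  v y := V.v (σ y)
  hπ := fun h => V.hπ (by
    have h1 := congrArg σ h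
    rwa [AlgEquiv.apply_symm_apply, map_zero] at h1)
  vπ := by rw [AlgEquiv.apply_symm_apply, V.vπ]
  mul y y' hy hy' := by
    rw [map_mul]
    exact V.mul _ _ (fun h => hy ((map_eq_zero _).1 h)) (fun h => hy' ((map_eq_zero _).1 h))
  mem y hy := V.mem (σ y) (fun h => hy ((map_eq_zero _).1 h))

private theorem nrmC_v {F : Type} [Field F] [Algebra ℂ F] {P : ValuationSubring F}
    (V : NVal P) (σ : F ≃ₐ[ℂ] F) (y : F) : (nrmC V σ).v y = V.v (σ y) := rfl

private theorem nrmC_cst {F : Type} [Field F] [Algebra ℂ F] {P : ValuationSubring F}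
    (hC : Cst P) (σ : F ≃ₐ[ℂ] F) : Cst (P.comap (σ : F →+* F)) := by
  intro c
  change σ (algebraMap ℂ F c) ∈ P
  rw [σ.commutes]
  exact hC c

/-- A function with a pole somewhere; the least order of the poles. -/
private theorem nrm_min {F : Type} [Field F] [Algebra ℂ F] (hF : Crv F) (u : F)
    (hu : Transcendental ℂ u) :
    ∃ e : ℤ, 1 ≤ e ∧ (∃ (P : ValuationSubring F) (V : NVal P), Cst P ∧ V.v u = -e) ∧
      ∀ (P : ValuationSubring F) (V : NVal P), Cst P → V.v u < 0 → e ≤ -V.v u := by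
  classical
  have hu0 : u ≠ 0 := by
    rintro rfl
    exact hu (isAlgebraic_zero)
  have hex : ∃ n : ℕ, 1 ≤ n ∧ ∃ (P : ValuationSubring F) (V : NVal P), Cst P ∧
      V.v u = -(n : ℤ) := by
    obtain ⟨P, hC, hP⟩ := exists_not_mem u hu
    obtain ⟨V⟩ := exists_nval_of_crv hF P hC (by
      rintro rfl
      exact hP (ValuationSubring.mem_top u))
    have h1 : ¬ 0 ≤ V.v u := fun h => hP ((V.mem u hu0).2 h)
    exact ⟨(-V.v u).toNat, by omega, P, V, hC, by omega⟩
  obtain ⟨h1, P, V, hC, hV⟩ := Nat.find_spec hex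
  refine ⟨(Nat.find hex : ℤ), by exact_mod_cast h1, ⟨P, V, hC, hV⟩, ?_⟩
  intro P' V' hC' hV'
  have h2 := Nat.find_min' hex (m := (-V'.v u).toNat) ⟨by omega, P', V', hC', by omega⟩
  omega

theorem exists_wts {F : Type} [Field F] [Algebra ℂ F] (hF : Crv F) (hrat : ¬ Rational F)
    {Γ : Type} [Group Γ] [Finite Γ] (φ : Γ →* (F ≃ₐ[ℂ] F)) (x : F) (hx : Transcendental ℂ x)
    (hk : ∀ y : F, y ∈ ℂ⟮x⟯ ↔ ∀ γ, φ γ y = y) :
    ∃ (T : Finset ℂ) (w : ℂ → ℕ) (w₀ : ℕ), Wts x 2 T w w₀ := by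
  classical
  have := Fintype.ofFinite Γ
  obtain ⟨z, hz, hreg⟩ := (exists_regular hF x hx).resolve_left hrat
  have hxc : ∀ c : ℂ, Transcendental ℂ (x - algebraMap ℂ F c) := by
    intro c h
    have h1 := h.add (isAlgebraic_algebraMap (R := ℂ) (A := F) c)
    rw [sub_add_cancel] at h1
    exact hx h1
  have hne : ∀ c : ℂ, x - algebraMap ℂ F c ≠ 0 := by
    intro c h
    have h1 := hxc c
    rw [h] at h1
    exact h1 isAlgebraic_zero
  have hx0 : x ≠ 0 := by
    rintro rfl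
    exact hx isAlgebraic_zero
  have hφx : ∀ γ, φ γ x = x := (hk x).1 (IntermediateField.mem_adjoin_simple_self ℂ x)
  have hφc : ∀ γ (c : ℂ), φ γ (x - algebraMap ℂ F c) = x - algebraMap ℂ F c := by
    intro γ c
    rw [map_sub, hφx, AlgEquiv.commutes]
  -- the norm
  have hN0 : ∏ γ, φ γ z ≠ 0 := Finset.prod_ne_zero_iff.2 fun γ _ h => hz ((map_eq_zero _).1 h)
  have hNk : ∏ γ, φ γ z ∈ ℂ⟮x⟯ := by
    rw [hk]
    intro δ
    rw [map_prod]
    have h1 : ∀ γ, φ δ (φ γ z) = φ (δ * γ) z := fun γ => by rw [map_mul]; rfl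
    rw [Finset.prod_congr rfl fun γ _ => h1 γ]
    exact Fintype.prod_equiv (Equiv.mulLeft δ) _ _ fun γ => rfl
  obtain ⟨C, T, a, hC0, hfac⟩ := exists_factor_adjoin x _ hNk hN0
  set m : ℤ := (Fintype.card Γ : ℤ) with hm
  have hm1 : 1 ≤ m := by
    have : 0 < Fintype.card Γ := Fintype.card_pos
    omega
  have key : ∀ (P : ValuationSubring F) (V : NVal P), Cst P → ∀ c : ℂ, At V x c →
      m ≤ V.v (∏ γ, φ γ z) + m * V.v (x - algebraMap ℂ F c) := by
    intro P V hC c hAt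
    rw [v_prod V Finset.univ _ fun γ _ h => hz ((map_eq_zero _).1 h)]
    have h1 : ∀ γ ∈ (Finset.univ : Finset Γ),
        (1 : ℤ) ≤ V.v (φ γ z) + V.v (x - algebraMap ℂ F c) := by
      intro γ _
      have h2 := hreg _ (nrmC V (φ γ)) (nrmC_cst hC (φ γ)) c (by
        change (nrmC V (φ γ)).v _ ≠ 0
        rw [nrmC_v, hφc]
        exact hAt)
      rwa [nrmC_v, nrmC_v, hφc] at h2
    have h2 := Finset.sum_le_sum h1
    rw [Finset.sum_add_distrib, Finset.sum_const, Finset.sum_const, nsmul_eq_mul, nsmul_eq_mul,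
      mul_one, Finset.card_univ] at h2
    exact h2
  -- the minimal ramification indices
  have hfin : ∀ c : ℂ, ∃ e : ℤ, 1 ≤ e ∧
      (∃ (P : ValuationSubring F) (V : NVal P), Cst P ∧ V.v (x - algebraMap ℂ F c) = e) ∧
      ∀ (P : ValuationSubring F) (V : NVal P), Cst P → 0 < V.v (x - algebraMap ℂ F c) →
        e ≤ V.v (x - algebraMap ℂ F c) := by
    intro c
    have hu : Transcendental ℂ (x - algebraMap ℂ F c)⁻¹ := by
      intro h
      have h1 := h.inv
      rw [inv_inv] at h1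
      exact hxc c h1
    obtain ⟨e, he, ⟨P, V, hC, hV⟩, hmin⟩ := nrm_min hF _ hu
    refine ⟨e, he, ⟨P, V, hC, ?_⟩, fun P' V' hC' h => ?_⟩
    · rw [V.inv (hne c)] at hV
      omega
    · have h1 := hmin P' V' hC' (by rw [V'.inv (hne c)]; omega)
      rw [V'.inv (hne c)] at h1
      omega
  choose E hE1 hEex hEmin using hfin
  obtain ⟨E₀, hE₀1, ⟨P₀, V₀, hC₀, hV₀⟩, hE₀min⟩ := nrm_min hF x hx
  have hineq : ∀ c ∈ T, -a c * E c ≤ m * (E c - 1) := by
    intro c hc
    obtain ⟨P, V, hC, hV⟩ := hEex c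
    have hpos : 0 < V.v (x - algebraMap ℂ F c) := by
      rw [hV]
      have := hE1 c
      omega
    have h1 := key P V hC c hpos.ne'
    rw [hfac, v_prod_sub_pos V hC x hne hC0 T a hpos, if_pos hc, hV] at h1
    have h2 : m * (E c - 1) = m * E c - m := by ring
    have h3 : -a c * E c = -(a c * E c) := by ring
    omega
  have hineq₀ : (2 * m + ∑ c ∈ T, a c) * E₀ ≤ m * (E₀ - 1) := by
    have hneg : V₀.v x < 0 := by omega
    have h0 : V₀.v (x - algebraMap ℂ F 0) = V₀.v x := (v_sub_of_neg V₀ hC₀ hx0 hneg 0).2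
    have h1 := key P₀ V₀ hC₀ 0 (by
      change V₀.v (x - algebraMap ℂ F 0) ≠ 0
      rw [h0]
      exact hneg.ne)
    rw [h0, hfac, v_prod_sub_neg V₀ hC₀ x hne hC0 T a hneg, hV₀] at h1
    have h2 : m * (E₀ - 1) = m * E₀ - m := by ring
    have h3 : (2 * m + ∑ c ∈ T, a c) * E₀ = 2 * (m * E₀) + (∑ c ∈ T, a c) * E₀ := by ring
    have h4 : (∑ c ∈ T, a c) * -E₀ = -((∑ c ∈ T, a c) * E₀) := by ring
    have h5 : m * -E₀ = -(m * E₀) := by ring
    omega
  obtain ⟨w, hw1, hw2, hw3⟩ := exists_w (ι := Option T) m hm1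
    (fun o => o.elim (2 * m + ∑ c ∈ T, a c) fun c => -a c)
    (fun o => o.elim E₀ fun c => E c)
    (by
      rintro (_ | c)
      · exact hE₀1
      · exact hE1 c)
    (by
      rintro (_ | c)
      · exact hineq₀
      · exact hineq c c.2)
    (by
      rw [Fintype.sum_option]
      simp only [Option.elim_none, Option.elim_some]
      rw [Finset.sum_neg_distrib, Finset.sum_coe_sort T a]
      omega)
  have hws : ∀ c (hc : c ∈ T), (if h : c ∈ T then w (some ⟨c, h⟩) else 0) = w (some ⟨c, hc⟩) :=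
    fun c hc => dif_pos hc
  refine ⟨T, fun c => if h : c ∈ T then w (some ⟨c, h⟩) else 0, w none, ?_, ?_, ?_, ?_, ?_⟩
  · have h1 : ∑ c ∈ T, (if h : c ∈ T then w (some ⟨c, h⟩) else 0) = ∑ c : T, w (some c) := by
      rw [← Finset.sum_coe_sort T fun c => if h : c ∈ T then w (some ⟨c, h⟩) else 0]
      exact Finset.sum_congr rfl fun c _ => hws c c.2
    rw [h1, add_comm]
    rw [Fintype.sum_option] at hw3
    exact hw3
  · intro c hc
    rw [hws c hc]
    have := hw1 (some ⟨c, hc⟩)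
    omega
  · have := hw1 none
    omega
  · intro P V hC c hc h
    rw [hws c hc]
    have h1 : 12 ≤ E c * (12 - (w (some ⟨c, hc⟩) : ℤ)) := hw2 (some ⟨c, hc⟩)
    have h2 := hw1 (some ⟨c, hc⟩)
    exact h1.trans (mul_le_mul_of_nonneg_right (hEmin c P V hC h) (by omega))
  · intro P V hC h
    have h1 : 12 ≤ E₀ * (12 - (w none : ℤ)) := hw2 none
    have h2 := hw1 none
    exact h1.trans (mul_le_mul_of_nonneg_right (hE₀min P V hC h) (by omega))

end PQ
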