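import Pool.Agent.Lib.MP_23b606_ag.PQ.BgB
import Pool.Agent.Lib.MP_23b606_ag.PQ.Mb
import Pool.Agent.Lib.MP_23b606_ag.PQ.Hd

/-!
PQ/Rb: the reduced basis of a curve over the line.

Proof: `exists_basis` gives `b0`. `N` = the additive group of the `u` which lie in all valuation
rings `P ⊇ ℂ` with `x ∉ P`. `hN`: `mem_of_intDegree`. `hd`: `exists_inf`. `h0`: if `u` has
polynomial coordinates and `x u ∈ N` then `u` lies in all `P ∋ x`, and in all `P ∌ x` as `x⁻¹ ∈ P`,
so `u` is a constant `c` (`const_of_all`); if `c ≠ 0` then `x ∈ N`, so `x` lies in all `P ⊇ ℂ` and is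
a constant, but `x` is transcendental. Then `exists_min` and `mem_iff`.
-/

set_option autoImplicit false

namespace PQ

/-- A reduced basis: the coordinates of the functions with poles only over `x = ∞` are polynomials,
and `u` has no poles over `x = ∞` iff the coordinates `r_j` have `deg r_j ≤ -d j`. -/
structure Red {F : Type} [Field F] [Algebra ℂ F] [Algebra (RatFunc ℂ) F] {n : ℕ}
    (b : Module.Basis (Fin n) (RatFunc ℂ) F) (d : Fin n → ℕ) : Prop where
  fin : ∀ u : F,
    (∀ P : ValuationSubring F, Cst P → algebraMap (RatFunc ℂ) F RatFunc.X ∈ P → u ∈ P) ↔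
      ∀ j, b.repr u j ∈ (algebraMap (Polynomial ℂ) (RatFunc ℂ)).range
  inf : ∀ u : F,
    (∀ P : ValuationSubring F, Cst P → algebraMap (RatFunc ℂ) F RatFunc.X ∉ P → u ∈ P) ↔
      ∀ j, ((RatFunc.X : RatFunc ℂ) ^ d j * b.repr u j).intDegree ≤ 0

theorem exists_red {F : Type} [Field F] [Algebra ℂ F] [Algebra (RatFunc ℂ) F]
    [IsScalarTower ℂ (RatFunc ℂ) F] [FiniteDimensional (RatFunc ℂ) F] :
    ∃ (n : ℕ) (b : Module.Basis (Fin n) (RatFunc ℂ) F) (d : Fin n → ℕ), Red b d := by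
  obtain ⟨n, b0, hb0⟩ := exists_basis (F := F)
  let N : AddSubgroup F :=
    { carrier := {u | ∀ P : ValuationSubring F, Cst P →
        algebraMap (RatFunc ℂ) F RatFunc.X ∉ P → u ∈ P}
      add_mem' := fun ha hb P hC hP => P.add_mem _ _ (ha P hC hP) (hb P hC hP)
      zero_mem' := fun P _ _ => P.zero_mem
      neg_mem' := fun ha P hC hP => P.neg_mem _ (ha P hC hP) }
  have hmem : ∀ u : F, u ∈ N ↔ ∀ P : ValuationSubring F, Cst P →
      algebraMap (RatFunc ℂ) F RatFunc.X ∉ P → u ∈ P := fun _ => Iff.rfl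
  have hN : ∀ r : RatFunc ℂ, r.intDegree ≤ 0 → ∀ v ∈ N, r • v ∈ N := by
    intro r hr v hv P hC hP
    rw [Algebra.smul_def]
    exact P.mul_mem _ _ (mem_of_intDegree P hC hP r hr) (hv P hC hP)
  have hd : ∀ v : F, ∃ d : ℕ, ((RatFunc.X : RatFunc ℂ) ^ d)⁻¹ • v ∈ N := by
    intro v
    obtain ⟨d, h⟩ := exists_inf (F := F) v
    refine ⟨d, fun P hC hP => ?_⟩
    rw [Algebra.smul_def, map_inv₀, map_pow]
    exact h P hC hP
  have hX : Transcendental ℂ (algebraMap (RatFunc ℂ) F RatFunc.X) := by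
    have h1 : Transcendental ℂ (RatFunc.X : RatFunc ℂ) := RatFunc.transcendental_X
    exact (transcendental_algebraMap_iff (algebraMap (RatFunc ℂ) F).injective).2 h1
  have hX0 : algebraMap (RatFunc ℂ) F RatFunc.X ≠ 0 := by
    intro h
    rw [h] at hX
    exact hX isAlgebraic_zero
  have h0 : ∀ v : F, Pc b0 v → (RatFunc.X : RatFunc ℂ) • v ∈ N → v = 0 := by
    intro v hv hXv
    have h1 := (hb0 v).2 hv
    have h2 : ∀ P : ValuationSubring F, Cst P →
        algebraMap (RatFunc ℂ) F RatFunc.X ∉ P → algebraMap (RatFunc ℂ) F RatFunc.X * v ∈ P := by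
      intro P hC hP
      have h3 := hXv P hC hP
      rwa [Algebra.smul_def] at h3
    have h3 : ∀ P : ValuationSubring F, Cst P → v ∈ P := by
      intro P hC
      by_cases hP : algebraMap (RatFunc ℂ) F RatFunc.X ∈ P
      · exact h1 P hC hP
      · have h4 := P.mul_mem _ _ ((P.mem_or_inv_mem _).resolve_left hP) (h2 P hC hP)
        rwa [inv_mul_cancel_left₀ hX0] at h4
    obtain ⟨c, rfl⟩ := const_of_all v h3
    by_contra hne
    have hc : c ≠ 0 := by
      rintro rfl
      exact hne (map_zero _)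
    obtain ⟨P, hC, hP⟩ := exists_not_mem _ hX
    apply hP
    have h4 := P.mul_mem _ _ (h2 P hC hP) (hC c⁻¹)
    rwa [mul_assoc, ← map_mul, mul_inv_cancel₀ hc, map_one, mul_one] at h4
  obtain ⟨b, d, hb, hbN, hl⟩ := exists_min b0 N hN hd h0
  refine ⟨n, b, d, fun u => ?_, fun u => ?_⟩
  · exact (hb0 u).trans (hb u)
  · exact (hmem u).symm.trans (mem_iff b d N hN hbN hl u)

end PQ
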