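import Pool.Agent.Lib.MP_23b606_ag.PQ.Nv

/-! PQ/Wts: orbifold weights and forms (definitions). -/

set_option autoImplicit false

open T1

namespace PQ

/-- Pole orders: `w c` at the points `c ∈ T`, `w₀` at `∞`, of a `12`-canonical form on the line with
function field `ℂ(x)`, which is regular on the curve of `F` and of logarithmic order at least `ρ`
everywhere on the line. -/
structure Wts {F : Type} [Field F] [Algebra ℂ F] (x : F) (ρ : ℕ) (T : Finset ℂ) (w : ℂ → ℕ)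
    (w₀ : ℕ) : Prop where
  sum : ∑ c ∈ T, w c + w₀ = 24
  le : ∀ c ∈ T, w c + ρ ≤ 12
  le₀ : w₀ + ρ ≤ 12
  fin : ∀ (P : ValuationSubring F) (V : NVal P), Cst P → ∀ c ∈ T,
    0 < V.v (x - algebraMap ℂ F c) → 12 ≤ V.v (x - algebraMap ℂ F c) * (12 - (w c : ℤ))
  inf : ∀ (P : ValuationSubring F) (V : NVal P), Cst P → V.v x < 0 →
    12 ≤ -V.v x * (12 - (w₀ : ℤ))

/-- The form `h dt^12` on the curve of `k` has logarithmic order at least `ρ` everywhere and is
regular on the curve of `F`. -/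
structure Frm {F : Type} [Field F] [Algebra ℂ F] (k : IntermediateField ℂ F) (ρ : ℕ) (t h : F) :
    Prop where
  t_mem : t ∈ k
  h_mem : h ∈ k
  tr : Transcendental ℂ t
  ne : h ≠ 0
  up : ∀ (P : ValuationSubring F) (V : NVal P), Cst P → ∀ c : ℂ, At V t c →
    12 ≤ V.v h + 12 * V.v (t - algebraMap ℂ F c)
  down : ∀ (Q : ValuationSubring k) (W : NVal Q), Cst Q → ∀ c : ℂ, At W (⟨t, t_mem⟩ : k) c →
    (ρ : ℤ) ≤ W.v (⟨h, h_mem⟩ : k) + 12 * W.v ((⟨t, t_mem⟩ : k) - algebraMap ℂ k c)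

theorem Frm.mono {F : Type} [Field F] [Algebra ℂ F] {k : IntermediateField ℂ F} {ρ ρ' : ℕ}
    {t h : F} (H : Frm k ρ t h) (hρ : ρ' ≤ ρ) : Frm k ρ' t h :=
  ⟨H.t_mem, H.h_mem, H.tr, H.ne, H.up, fun Q W hQ c hc =>
    le_trans (by exact_mod_cast hρ) (H.down Q W hQ c hc)⟩

end PQ
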